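import Pool.Agent.Run7.h386.DL.Decomp

/-!
The isoperimetric inequality for the subsets of the sets of the products `x ∏ s`, with `x` in an
arbitrary set and `s` a subset of a set of pairwise coprime integers.
-/

set_option autoImplicit false

namespace Pool.Agent.Run7.h386.DL

open Finset Pool.Agent.TH83.SQ Pool.Agent.N811.IS
open Pool.Agent.Run7.h386.GL Pool.Agent.Run7.h386.DE
open scoped Classical Pointwise

/-- the inequality in logarithmic form -/
lemma final_log2 {α δ θ ε C M2 s v b y : ℝ} (hα : 0 < α)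
    (hε : 0 < ε) (hδ : δ ≤ ε / 8) (hδθ : δ ≤ 1 - θ) (hv : 0 ≤ v) (hb : 0 ≤ b)
    (hM : M2 ≤ ε / 8 * v)
    (h : (1 + α) * (s + b) ≤ α * y + (α * M2 + Real.log C + (1 + α * δ) * (v + b))) :
    (1 - ε) * v + (1 + α) / α * (s - v) - Real.log C / α + θ * b ≤ y := by
  have e1 : α * ((1 + α) / α * (s - v)) = (1 + α) * (s - v) := by field_simp
  have e3 : α * (Real.log C / α) = Real.log C := by field_simp
  have h5 : α * M2 ≤ α * (ε / 8 * v) := mul_le_mul_of_nonneg_left hM hα.le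
  have h7 : α * (δ * v) ≤ α * (ε / 8 * v) :=
    mul_le_mul_of_nonneg_left (mul_le_mul_of_nonneg_right hδ hv) hα.le
  have h9 : α * (δ * b) ≤ α * ((1 - θ) * b) :=
    mul_le_mul_of_nonneg_left (mul_le_mul_of_nonneg_right hδθ hb) hα.le
  have h10 : 0 ≤ α * (ε * v) := mul_nonneg hα.le (mul_nonneg hε.le hv)
  have key : α * ((1 - ε) * v + (1 + α) / α * (s - v) - Real.log C / α + θ * b) ≤ α * y := by
    have e2 : α * ((1 - ε) * v + (1 + α) / α * (s - v) - Real.log C / α + θ * b) =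
        α * ((1 - ε) * v) + α * ((1 + α) / α * (s - v)) - α * (Real.log C / α) + α * (θ * b) := by
      ring
    rw [e2, e1, e3]
    linarith
  exact le_of_mul_le_mul_left key hα

/-- from logarithms to powers -/
lemma of_log {v s b y κ C K θ V S Bc Y : ℝ} (hV : 0 < V) (hS : 0 < S) (hB : 0 < Bc) (hY : 0 < Y)
    (hv : v = Real.log V) (hs : s = Real.log S) (hb : b = Real.log Bc) (hy : y = Real.log Y)
    (h : κ * v + C * (s - v) - K + θ * b ≤ y) :
    Real.exp (-K) * V ^ κ * (S / V) ^ C * Bc ^ θ ≤ Y := by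
  have h1 := Real.exp_le_exp.2 h
  rw [hy, Real.exp_log hY] at h1
  refine le_trans (le_of_eq ?_) h1
  have e1 : Real.exp (κ * v) = V ^ κ := by rw [Real.rpow_def_of_pos hV, mul_comm, hv]
  have e2 : Real.exp (θ * b) = Bc ^ θ := by rw [Real.rpow_def_of_pos hB, mul_comm, hb]
  have e3 : Real.exp (C * (s - v)) = (S / V) ^ C := by
    rw [Real.rpow_def_of_pos (div_pos hS hV), Real.log_div hS.ne' hV.ne', mul_comm, hs, hv]
  rw [Real.exp_add, sub_eq_add_neg, Real.exp_add, Real.exp_add, e1, e2, e3]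
  ring

theorem isoC (T θ ε : ℝ) (hT : 0 ≤ T) (hθ0 : 0 ≤ θ) (hθ1 : θ < 1) (hε : 0 < ε) (hε1 : ε ≤ 1) :
    ∃ C c : ℝ, 0 < C ∧ 0 < c ∧ ∀ (X : Finset ℤ) (P : Finset ℕ), X.Nonempty → Ad P →
      (X.card : ℝ) ≤ 2 ^ (T * P.card) → ∀ S : Finset ℤ, S.Nonempty →
      (∀ z ∈ S, ∃ x ∈ X, ∃ s ⊆ P, z = (pd s : ℤ) * x) →
      c * ((X.card : ℝ) * 2 ^ P.card) ^ (1 - ε) * (S.card / ((X.card : ℝ) * 2 ^ P.card)) ^ C ≤
        rho θ S := by
  have hl20 : 0 < Real.log 2 := Real.log_pos (by norm_num)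
  have hl2 : Real.log 2 < 1 := by
    have := Real.log_two_lt_d9
    linarith
  have hθ : 0 < 1 - θ := by linarith
  obtain ⟨δ, hδ0, hδθ, hδε⟩ : ∃ δ : ℝ, 0 < δ ∧ δ ≤ 1 - θ ∧ δ ≤ ε / 8 :=
    ⟨min (1 - θ) (ε / 8), lt_min hθ (by linarith), min_le_left _ _, min_le_right _ _⟩
  obtain ⟨t, ht⟩ : ∃ t : ℝ, t = 1 / (1 - θ) := ⟨_, rfl⟩
  have ht0 : 0 < t := by rw [ht]; positivity
  have ht1 : (1 - θ) * t = 1 := by rw [ht]; field_simp
  obtain ⟨γ, hγ⟩ : ∃ γ : ℝ, γ = ε / 8 := ⟨_, rfl⟩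
  have hγ0 : 0 < γ := by rw [hγ]; positivity
  have hγ1 : γ ≤ 1 / 8 := by rw [hγ]; linarith
  obtain ⟨θE, hθE⟩ : ∃ θE : ℝ, θE = γ / (2 * ((T + 1) * (1 + t))) := ⟨_, rfl⟩
  have hθE0 : 0 < θE := by rw [hθE]; positivity
  obtain ⟨α, hα0, hα1, C, hC1, hen⟩ := energyA δ θE hδ0 hθE0
  have hlC : 0 ≤ Real.log C := Real.log_nonneg hC1
  obtain ⟨K, hK⟩ : ∃ K : ℝ, K = Real.log C / α + (T + 1) * (2 / γ) := ⟨_, rfl⟩
  have hK0 : 0 ≤ K := by rw [hK]; positivity
  refine ⟨(1 + α) / α, Real.exp (-K), by positivity, Real.exp_pos _, ?_⟩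
  intro X P hX hP hXP S hS hSV
  have cX : (1 : ℝ) ≤ X.card := by exact_mod_cast hX.card_pos
  have h2P : (1 : ℝ) ≤ 2 ^ P.card := one_le_pow₀ (by norm_num)
  obtain ⟨V, hV⟩ : ∃ V : ℝ, V = (X.card : ℝ) * 2 ^ P.card := ⟨_, rfl⟩
  have hV1 : 1 ≤ V := by rw [hV]; nlinarith
  have hV0 : 0 < V := by linarith
  obtain ⟨v, hv⟩ : ∃ v : ℝ, v = Real.log V := ⟨_, rfl⟩
  have hv0 : 0 ≤ v := by rw [hv]; exact Real.log_nonneg hV1
  have hPv : (P.card : ℝ) * Real.log 2 ≤ v := by
    rw [hv, ← Real.log_pow]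
    refine Real.log_le_log (by positivity) ?_
    rw [hV]
    nlinarith
  have hvP : v ≤ (T + 1) * (P.card * Real.log 2) := by
    rw [hv, hV, Real.log_mul (by positivity) (by positivity), Real.log_pow]
    have h1 := Real.log_le_log (by linarith) hXP
    rw [Real.log_rpow (by norm_num)] at h1
    linarith
  have cS : (0 : ℝ) < S.card := by exact_mod_cast hS.card_pos
  have cS1 : (1 : ℝ) ≤ S.card := by exact_mod_cast hS.card_pos
  have hSV1 : (S.card : ℝ) ≤ V := by
    have h1 : S ⊆ (X ×ˢ P.powerset).image fun p => (pd p.2 : ℤ) * p.1 := by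
      intro z hz
      obtain ⟨x, hx, s, hs, rfl⟩ := hSV z hz
      exact Finset.mem_image.2 ⟨(x, s), Finset.mem_product.2 ⟨hx, Finset.mem_powerset.2 hs⟩, rfl⟩
    have h2 := (Finset.card_le_card h1).trans Finset.card_image_le
    rw [Finset.card_product, Finset.card_powerset] at h2
    rw [hV]
    exact_mod_cast h2
  rw [← hV]
  refine le_rho fun B hB => ?_
  have cB : (0 : ℝ) < B.card := by exact_mod_cast hB.card_pos
  have cB1 : (1 : ℝ) ≤ B.card := by exact_mod_cast hB.card_pos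
  have hlB0 : 0 ≤ Real.log B.card := Real.log_nonneg cB1
  have hsum0 : (0 : ℝ) < (S + B).card := by
    exact_mod_cast (hS.add hB).card_pos
  have hBS : Real.log B.card ≤ Real.log (S + B).card := by
    refine Real.log_le_log cB ?_
    exact_mod_cast Finset.card_le_card_add_left hS
  have hsv : Real.log S.card - v ≤ 0 := by
    rw [hv]
    have := Real.log_le_log cS hSV1
    linarith
  have hsv2 : (1 + α) / α * (Real.log S.card - v) ≤ 0 :=
    mul_nonpos_of_nonneg_of_nonpos (by positivity) hsv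
  refine of_log (K := K) hV0 cS cB hsum0 hv rfl rfl rfl ?_
  by_cases hBbig : t * v < Real.log B.card
  · -- large second summand
    have h2 : v ≤ (1 - θ) * Real.log B.card := by
      calc v = (1 - θ) * (t * v) := by rw [← mul_assoc, ht1, one_mul]
        _ ≤ _ := mul_le_mul_of_nonneg_left hBbig.le hθ.le
    have h3 : 0 ≤ ε * v := mul_nonneg hε.le hv0
    linarith
  push Not at hBbig
  have hlCα : 0 ≤ Real.log C / α := by positivity
  by_cases hPs : (P.card : ℝ) < 2 / γ
  · -- few integers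
    have h1 : v ≤ (T + 1) * (2 / γ) := by
      refine hvP.trans (mul_le_mul_of_nonneg_left ?_ (by linarith))
      have h2 : (P.card : ℝ) * Real.log 2 ≤ P.card * 1 :=
        mul_le_mul_of_nonneg_left hl2.le (Nat.cast_nonneg _)
      linarith
    have h3 : 0 ≤ ε * v := mul_nonneg hε.le hv0
    have h4 : θ * Real.log B.card ≤ 1 * Real.log B.card :=
      mul_le_mul_of_nonneg_right hθ1.le hlB0
    linarith
  push Not at hPs
  rw [div_le_iff₀ hγ0] at hPs
  -- the smaller cube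
  obtain ⟨h, hh⟩ : ∃ h : ℕ, h = ⌊γ * P.card⌋₊ := ⟨_, rfl⟩
  have hhle : (h : ℝ) ≤ γ * P.card := by rw [hh]; exact Nat.floor_le (by positivity)
  have hhge : γ * P.card / 2 ≤ h := by
    have := Nat.lt_floor_add_one (γ * P.card)
    rw [← hh] at this
    linarith
  have hhP : h ≤ P.card := by
    have h1 : (h : ℝ) ≤ P.card := by
      refine hhle.trans ?_
      have : γ * P.card ≤ 1 * P.card := mul_le_mul_of_nonneg_right (by linarith) (Nat.cast_nonneg _)
      linarith
    exact_mod_cast h1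
  obtain ⟨P', hP'P, hP'c⟩ := Finset.exists_subset_card_eq hhP
  set X' := (X ×ˢ (P \ P').powerset).image fun p => (pd p.2 : ℤ) * p.1 with hX'
  have hX'ne : X'.Nonempty := (hX.product ⟨∅, Finset.empty_mem_powerset _⟩).image _
  have hX'c : (X'.card : ℝ) * 2 ^ h ≤ V := by
    have h1 : X'.card ≤ X.card * 2 ^ (P.card - h) := by
      refine Finset.card_image_le.trans ?_
      rw [Finset.card_product, Finset.card_powerset, Finset.card_sdiff_of_subset hP'P, hP'c]
    have h2 : X'.card * 2 ^ h ≤ X.card * 2 ^ P.card := by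
      calc X'.card * 2 ^ h ≤ X.card * 2 ^ (P.card - h) * 2 ^ h := Nat.mul_le_mul_right _ h1
        _ = X.card * 2 ^ P.card := by
            rw [mul_assoc, ← pow_add, Nat.sub_add_cancel hhP]
    rw [hV]
    exact_mod_cast h2
  have cX' : (1 : ℝ) ≤ X'.card := by exact_mod_cast hX'ne.card_pos
  have h2h : (1 : ℝ) ≤ 2 ^ h := one_le_pow₀ (by norm_num)
  have hX'V : (X'.card : ℝ) ≤ V := by nlinarith
  have hpdu : ∀ s ⊆ P, pd s = pd (s ∩ P') * pd (s \ P') := by
    intro s _
    unfold pd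
    rw [← Finset.prod_union]
    · congr 1
      ext z
      simp only [Finset.mem_union, Finset.mem_inter, Finset.mem_sdiff]
      tauto
    · rw [Finset.disjoint_left]
      intro z h1 h2
      exact (Finset.mem_sdiff.1 h2).2 (Finset.mem_inter.1 h1).2
  set VV := P'.powerset.biUnion fun s => X'.image fun x => ((pd s : ℕ) : ℤ) * x with hVV
  have hSVV : S ⊆ VV := by
    intro z hz
    obtain ⟨x, hx, s, hs, rfl⟩ := hSV z hz
    refine Finset.mem_biUnion.2 ⟨s ∩ P', Finset.mem_powerset.2 Finset.inter_subset_right, ?_⟩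
    refine Finset.mem_image.2 ⟨(pd (s \ P') : ℤ) * x, ?_, ?_⟩
    · exact Finset.mem_image.2 ⟨(x, s \ P'), Finset.mem_product.2 ⟨hx, Finset.mem_powerset.2
        (Finset.sdiff_subset_sdiff hs subset_rfl)⟩, rfl⟩
    · rw [hpdu s hs]
      push_cast
      ring
  have hAd' := hP.mono hP'P
  have hcond : θE * Real.log (X'.card * B.card) ≤ P'.card := by
    rw [hP'c]
    have h1 : Real.log (X'.card * B.card) ≤ (1 + t) * v := by
      rw [Real.log_mul (by linarith) cB.ne']
      have h2 := Real.log_le_log (by linarith) hX'V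
      rw [← hv] at h2
      linarith
    have h2 : (1 + t) * v ≤ (1 + t) * ((T + 1) * P.card) := by
      refine mul_le_mul_of_nonneg_left (hvP.trans ?_) (by linarith)
      refine mul_le_mul_of_nonneg_left ?_ (by linarith)
      have := mul_le_mul_of_nonneg_left hl2.le (Nat.cast_nonneg (α := ℝ) P.card)
      linarith
    calc θE * Real.log (X'.card * B.card) ≤ θE * ((1 + t) * ((T + 1) * P.card)) :=
          mul_le_mul_of_nonneg_left (h1.trans h2) hθE0.le
      _ = γ * P.card / 2 := by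
          rw [hθE]
          have h3 : 1 + t ≠ 0 := by linarith
          have h4 : T + 1 ≠ 0 := by linarith
          field_simp
      _ ≤ _ := hhge
  have hen1 := hen P' hAd' X' B hX'ne hB hcond
  rw [card_mul hAd', hP'c] at hen1
  have h4 := NE_sum_le hα0.le (t := 1) (W := VV ×ˢ B) P'.powerset
    (fun s => (X'.image fun x => ((pd s : ℕ) : ℤ) * x) ×ˢ B) (by
      intro y hy
      obtain ⟨h5, h6⟩ := Finset.mem_product.1 hy
      obtain ⟨s, hs, h7⟩ := Finset.mem_biUnion.1 h5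
      exact ⟨s, hs, Finset.mem_product.2 ⟨h7, h6⟩⟩) (by
      intro s hs
      refine Finset.product_subset_product ?_ subset_rfl
      intro z hz
      exact Finset.mem_biUnion.2 ⟨s, hs, hz⟩)
  have h5 : ∑ s ∈ P'.powerset, NE α 1 ((X'.image fun x => ((pd s : ℕ) : ℤ) * x) ×ˢ B) =
      TS α (mul P') X' B := by
    unfold TS
    rw [sum_mul_eq hAd' fun t => NE α (t : ℤ) (X' ×ˢ B)]
    refine Finset.sum_congr rfl fun s hs => ?_
    rw [← NE_mul, one_mul]
    have := pd_pos hAd' (Finset.mem_powerset.1 hs)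
    exact_mod_cast this.ne'
  rw [h5, Finset.card_powerset, hP'c] at h4
  have e1 : (((2 ^ h : ℕ) : ℝ)) ^ α = (2 : ℝ) ^ (α * h) := by
    push_cast
    rw [← Real.rpow_natCast, ← Real.rpow_mul (by norm_num), mul_comm]
  rw [e1] at h4
  have h6 : NE α 1 (S ×ˢ B) ≤ (2 : ℝ) ^ (α * h) * (C * (V * B.card) ^ (1 + α * δ)) := by
    refine (NE_mono hα0.le (Finset.product_subset_product hSVV subset_rfl)).trans (h4.trans ?_)
    refine mul_le_mul_of_nonneg_left (hen1.trans ?_) (by positivity)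
    rw [mul_assoc]
    refine mul_le_mul_of_nonneg_left ?_ (by linarith)
    have hαδ : 0 ≤ α * δ := by positivity
    calc ((2 ^ h : ℕ) : ℝ) * ((X'.card : ℝ) * B.card) ^ (1 + α * δ) ≤
        ((2 : ℝ) ^ h) ^ (1 + α * δ) * ((X'.card : ℝ) * B.card) ^ (1 + α * δ) := by
          refine mul_le_mul_of_nonneg_right ?_ (by positivity)
          push_cast
          calc (2 : ℝ) ^ h = ((2 : ℝ) ^ h) ^ (1 : ℝ) := (Real.rpow_one _).symm
            _ ≤ _ := Real.rpow_le_rpow_of_exponent_le h2h (by linarith)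
      _ = ((2 : ℝ) ^ h * ((X'.card : ℝ) * B.card)) ^ (1 + α * δ) :=
          (Real.mul_rpow (by positivity) (by positivity)).symm
      _ ≤ _ := by
          refine Real.rpow_le_rpow (by positivity) ?_ (by linarith)
          calc (2 : ℝ) ^ h * ((X'.card : ℝ) * B.card) = (X'.card : ℝ) * 2 ^ h * B.card := by ring
            _ ≤ _ := mul_le_mul_of_nonneg_right hX'c (by positivity)
  have h7 := NE_holder hα0.le 1 (S ×ˢ B)
  have h8 : (S ×ˢ B).image (ph 1) = S + B := by
    ext z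
    rw [Finset.mem_image, Finset.mem_add]
    constructor
    · rintro ⟨y, hy, rfl⟩
      obtain ⟨h4, h5⟩ := Finset.mem_product.1 hy
      exact ⟨y.1, h4, y.2, h5, by simp [ph]⟩
    · rintro ⟨a, ha, b, hb, rfl⟩
      exact ⟨(a, b), Finset.mem_product.2 ⟨ha, hb⟩, by simp [ph]⟩
  rw [h8, Finset.card_product] at h7
  push_cast at h7
  have h9 := h7.trans (mul_le_mul_of_nonneg_left h6 (by positivity))
  have hps2 : (1 + α) * (Real.log S.card + Real.log B.card) ≤
      α * Real.log (S + B).card + (α * (h * Real.log 2) + Real.log C +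
        (1 + α * δ) * (v + Real.log B.card)) := by
    have h1 := Real.log_le_log (Real.rpow_pos_of_pos (mul_pos cS cB) _) h9
    have p1 : (0 : ℝ) < ((S + B).card : ℝ) ^ α := Real.rpow_pos_of_pos hsum0 _
    have p2 : (0 : ℝ) < (2 : ℝ) ^ (α * h) := Real.rpow_pos_of_pos (by norm_num) _
    have p3 : (0 : ℝ) < (V * B.card) ^ (1 + α * δ) := Real.rpow_pos_of_pos (mul_pos hV0 cB) _
    have p4 : (0 : ℝ) < C := by linarith
    rw [Real.log_rpow (mul_pos cS cB), Real.log_mul cS.ne' cB.ne',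
      Real.log_mul p1.ne' (mul_pos p2 (mul_pos p4 p3)).ne', Real.log_rpow hsum0,
      Real.log_mul p2.ne' (mul_pos p4 p3).ne', Real.log_mul p4.ne' p3.ne',
      Real.log_rpow (by norm_num), Real.log_rpow (mul_pos hV0 cB), Real.log_mul hV0.ne' cB.ne',
      ← hv] at h1
    linarith
  have hM : (h : ℝ) * Real.log 2 ≤ ε / 8 * v := by
    calc (h : ℝ) * Real.log 2 ≤ γ * P.card * Real.log 2 := mul_le_mul_of_nonneg_right hhle hl20.le
      _ = γ * (P.card * Real.log 2) := by ring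
      _ ≤ γ * v := mul_le_mul_of_nonneg_left hPv hγ0.le
      _ = _ := by rw [hγ]
  have hfin := final_log2 hα0 hε hδε hδθ hv0 hlB0 hM hps2
  have hKge : Real.log C / α ≤ K := by
    rw [hK]
    have : 0 ≤ (T + 1) * (2 / γ) := by positivity
    linarith
  linarith

end Pool.Agent.Run7.h386.DL
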