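import Pool.Agent.Run7.h386.DL.LeafMain
import Pool.Agent.Run7.h386.GL.Decomp

/-!
The isoperimetric inequality for the dense subsets of the finite sets closed under gcd and lcm:
exposing the coordinates one by one.
-/

set_option autoImplicit false

namespace Pool.Agent.Run7.h386.DL

open Finset Pool.Agent.TH83.SQ Pool.Agent.N811.IS
open Pool.Agent.Run7.h386.GL
open scoped Pointwise Classical

theorem decompD {θ ε η c l ρ₀ : ℝ} {L₀ : ℕ} (hθ : 1 / 2 ≤ θ) (hθ1 : θ < 1) (hε : 0 < ε)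
    (hη0 : 0 ≤ η) (hη1 : η < 1) (hc : c = 2 ^ (1 - θ) - 1) (hc0 : 0 < c)
    (hl0 : 0 < l) (hl : l ^ ε ≤ η * c) (hL₀ : 1 / l ≤ L₀) (hL₀1 : 1 ≤ L₀) (hρ₀ : 0 ≤ ρ₀)
    {W : ℕ} {pos : ℕ → ℕ → ℕ} {α : ℝ} (hα : 0 ≤ α) {A : Finset ℕ} (hco : Coord A W pos)
    (leaf : ∀ A' ⊆ A, Lat A' → A'.Nonempty → (∀ i < W, (A'.image (pos i)).card ≤ L₀) →
      ∀ D ⊆ A', α * ((D.card : ℝ) - ρ₀ * A'.card) ≤ rho θ (ic D) * (A'.card : ℝ) ^ ε) :
    ∀ j ≤ W, ∀ A' ⊆ A, Lat A' →
      (∀ i, j ≤ i → i < W → (A'.image (pos i)).card ≤ L₀) →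
      ∀ D ⊆ A', (1 - η) ^ j * α * ((D.card : ℝ) - ρ₀ * A'.card) ≤
        rho θ (ic D) * (A'.card : ℝ) ^ ε := by
  intro j
  have hη' : 0 < 1 - η := by linarith
  induction j with
  | zero =>
    intro _ A' hA' hL h D hD
    rw [pow_zero, one_mul]
    rcases A'.eq_empty_or_nonempty with h0 | hne
    · subst h0
      have hD0 := Finset.subset_empty.1 hD
      subst hD0
      simp only [Finset.card_empty, Nat.cast_zero, mul_zero, sub_zero]
      exact mul_nonneg (rho_nonneg _ _) (Real.rpow_nonneg le_rfl _)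
    · exact leaf A' hA' hL hne (fun i hi => h i (Nat.zero_le _) hi) D hD
  | succ j ih =>
    intro hj A' hA' hL h D hD
    have hjW : j < W := by omega
    have ih' := ih (by omega)
    have hco' := hco.mono hA'
    obtain ⟨N, hN⟩ : ∃ N : ℝ, N = (A'.card : ℝ) := ⟨_, rfl⟩
    have hN0 : 0 ≤ N := by rw [hN]; exact Nat.cast_nonneg _
    obtain ⟨q, hq⟩ : ∃ q : ℝ, q = (1 - η) ^ j * α := ⟨_, rfl⟩
    have hq0 : 0 ≤ q := by rw [hq]; exact mul_nonneg (pow_nonneg hη'.le _) hα
    obtain ⟨e, he⟩ : ∃ e : ℝ, e = N ^ ε := ⟨_, rfl⟩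
    have he0 : 0 ≤ e := by rw [he]; exact Real.rpow_nonneg hN0 _
    have hsub : ∀ V : Finset ℕ, ∀ i, ((A'.filter fun a => pos j a ∈ V).image (pos i)).card ≤
        (A'.image (pos i)).card := fun V i =>
      Finset.card_le_card (Finset.image_subset_image (Finset.filter_subset _ _))
    set V := (A'.image (pos j)).filter fun v =>
      l * N < ((A'.filter fun a => pos j a = v).card : ℝ) with hV
    set V' := (D.image (pos j)).filter fun v =>
      ¬ l * N < ((A'.filter fun a => pos j a = v).card : ℝ) with hV'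
    have hfib : ∀ (E : Finset ℕ) (v : ℕ), (E.filter fun a => pos j a = v) =
        E.filter fun a => pos j a ∈ ({v} : Finset ℕ) := by
      intro E v; ext a; simp
    -- the popular values
    have hVc : V.card ≤ L₀ := by
      rcases V.eq_empty_or_nonempty with h0 | hVne
      · rw [h0]; exact Nat.zero_le _
      have h1 : ∑ _v ∈ V, l * N < ∑ v ∈ V, ((A'.filter fun a => pos j a = v).card : ℝ) :=
        Finset.sum_lt_sum_of_nonempty hVne fun v hv => (Finset.mem_filter.1 hv).2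
      have h2 : ∑ v ∈ V, ((A'.filter fun a => pos j a = v).card : ℝ) ≤ N := by
        have h3 := card_filter_eq_sum A' (pos j) V (Finset.filter_subset _ _)
        have h4 : (A'.filter fun a => pos j a ∈ V).card ≤ A'.card :=
          Finset.card_le_card (Finset.filter_subset _ _)
        rw [h3] at h4
        rw [hN]
        exact_mod_cast h4
      rw [Finset.sum_const, nsmul_eq_mul] at h1
      have hNpos : 0 < N := by
        by_contra hcon
        have : N = 0 := le_antisymm (not_lt.1 hcon) hN0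
        rw [this] at h1 h2
        simp only [mul_zero] at h1
        linarith
      have h5 : (V.card : ℝ) * l ≤ 1 := by
        have h6 : (V.card : ℝ) * l * N ≤ 1 * N := by linarith
        exact le_of_mul_le_mul_right h6 hNpos
      have h7 : (V.card : ℝ) ≤ 1 / l := by rwa [le_div_iff₀ hl0]
      exact_mod_cast h7.trans hL₀
    have hpop : q * (((D.filter fun a => pos j a ∈ V).card : ℝ) -
        ρ₀ * (A'.filter fun a => pos j a ∈ V).card) ≤ rho θ (ic D) * e := by
      have h1 := ih' (A'.filter fun a => pos j a ∈ V) ((Finset.filter_subset _ _).trans hA')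
        (hL.filter_pos hco' hjW V) (by
          intro i hji hi
          rcases Nat.eq_or_lt_of_le hji with h3 | h3
          · subst h3
            have h4 : (A'.filter fun a => pos j a ∈ V).image (pos j) ⊆ V := by
              intro u hu
              obtain ⟨b, hb, rfl⟩ := Finset.mem_image.1 hu
              exact (Finset.mem_filter.1 hb).2
            exact (Finset.card_le_card h4).trans hVc
          · exact (hsub V i).trans (h i h3 hi)) (D.filter fun a => pos j a ∈ V)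
        (Finset.filter_subset_filter _ hD)
      rw [← hq] at h1
      refine h1.trans ?_
      refine mul_le_mul (rho_mono θ (ic_mono (Finset.filter_subset _ _))) ?_
        (Real.rpow_nonneg (Nat.cast_nonneg _) _) (rho_nonneg _ _)
      rw [he, hN]
      refine Real.rpow_le_rpow (Nat.cast_nonneg _) ?_ hε.le
      exact_mod_cast Finset.card_le_card (Finset.filter_subset _ _)
    -- the other values
    have hoth : ∀ v ∈ V', q * (((D.filter fun a => pos j a = v).card : ℝ) -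
        ρ₀ * (A'.filter fun a => pos j a = v).card) ≤
        rho θ (ic (D.filter fun a => pos j a = v)) * (η * c * e) := by
      intro v hv
      have h1 := ih' (A'.filter fun a => pos j a = v) ((Finset.filter_subset _ _).trans hA')
        (by rw [hfib]; exact hL.filter_pos hco' hjW {v}) (by
          intro i hji hi
          rcases Nat.eq_or_lt_of_le hji with h3 | h3
          · subst h3
            have h4 : (A'.filter fun a => pos j a = v).image (pos j) ⊆ {v} := by
              intro u hu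
              obtain ⟨b, hb, rfl⟩ := Finset.mem_image.1 hu
              exact Finset.mem_singleton.2 (Finset.mem_filter.1 hb).2
            exact (Finset.card_le_card h4).trans (by rw [Finset.card_singleton]; exact hL₀1)
          · rw [hfib]
            exact (hsub {v} i).trans (h i h3 hi)) (D.filter fun a => pos j a = v)
        (Finset.filter_subset_filter _ hD)
      rw [← hq] at h1
      refine h1.trans (mul_le_mul_of_nonneg_left ?_ (rho_nonneg _ _))
      have h2 := (Finset.mem_filter.1 hv).2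
      push Not at h2
      calc ((A'.filter fun a => pos j a = v).card : ℝ) ^ ε ≤ (l * N) ^ ε :=
            Real.rpow_le_rpow (Nat.cast_nonneg _) h2 hε.le
        _ = l ^ ε * e := by rw [Real.mul_rpow hl0.le hN0, he]
        _ ≤ η * c * e := mul_le_mul_of_nonneg_right hl he0
    have hchain : c * ∑ v ∈ V', rho θ (ic (D.filter fun a => pos j a = v)) ≤ rho θ (ic D) := by
      have h1 := rho_chain hθ hθ1 (pos j) _ D rfl ((hco'.mono hD).div j hjW)
      rw [← hc] at h1
      refine le_trans (mul_le_mul_of_nonneg_left ?_ hc0.le) h1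
      exact Finset.sum_le_sum_of_subset_of_nonneg (Finset.filter_subset _ _)
        fun _ _ _ => rho_nonneg _ _
    -- the cardinalities
    have hDc : (D.card : ℝ) = ((D.filter fun a => pos j a ∈ V).card : ℝ) +
        ∑ v ∈ V', ((D.filter fun a => pos j a = v).card : ℝ) := by
      have h1 := Finset.card_filter_add_card_filter_not (s := D) fun a => pos j a ∈ V
      have h2 : (D.filter fun a => ¬ pos j a ∈ V) = D.filter fun a => pos j a ∈ V' := by
        ext a
        simp only [Finset.mem_filter, hV, hV']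
        constructor
        · rintro ⟨h1, h2⟩
          exact ⟨h1, Finset.mem_image_of_mem _ h1, fun h3 =>
            h2 ⟨Finset.mem_image_of_mem _ (hD h1), h3⟩⟩
        · rintro ⟨h1, h2, h3⟩
          exact ⟨h1, fun h4 => h3 h4.2⟩
      rw [h2, card_filter_eq_sum D (pos j) V' (Finset.filter_subset _ _)] at h1
      exact_mod_cast h1.symm
    have hAc : ((A'.filter fun a => pos j a ∈ V).card : ℝ) +
        ∑ v ∈ V', ((A'.filter fun a => pos j a = v).card : ℝ) ≤ N := by
      have h1 := Finset.card_filter_add_card_filter_not (s := A') fun a => pos j a ∈ V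
      have h2 : (A'.filter fun a => pos j a ∈ V') ⊆ A'.filter fun a => ¬ pos j a ∈ V := by
        intro a ha
        obtain ⟨h3, h4⟩ := Finset.mem_filter.1 ha
        refine Finset.mem_filter.2 ⟨h3, fun h5 => ?_⟩
        exact (Finset.mem_filter.1 h4).2 (Finset.mem_filter.1 h5).2
      have h3 : V' ⊆ A'.image (pos j) :=
        (Finset.filter_subset _ _).trans (Finset.image_subset_image hD)
      have h4 := Finset.card_le_card h2
      rw [card_filter_eq_sum A' (pos j) V' h3] at h4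
      have h5 : (A'.filter fun a => pos j a ∈ V).card +
        ∑ v ∈ V', (A'.filter fun a => pos j a = v).card ≤ A'.card := by omega
      rw [hN]
      exact_mod_cast h5
    have hsum : q * (∑ v ∈ V', ((D.filter fun a => pos j a = v).card : ℝ) -
        ρ₀ * ∑ v ∈ V', ((A'.filter fun a => pos j a = v).card : ℝ)) ≤ η * e * rho θ (ic D) := by
      have h1 := Finset.sum_le_sum hoth
      rw [← Finset.mul_sum, Finset.sum_sub_distrib, ← Finset.mul_sum, ← Finset.sum_mul] at h1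
      refine h1.trans ?_
      calc (∑ v ∈ V', rho θ (ic (D.filter fun a => pos j a = v))) * (η * c * e) =
          η * e * (c * ∑ v ∈ V', rho θ (ic (D.filter fun a => pos j a = v))) := by ring
        _ ≤ _ := mul_le_mul_of_nonneg_left hchain (mul_nonneg hη0 he0)
    rw [← hN, ← he]
    have hr0 := rho_nonneg θ (ic D)
    have hre : 0 ≤ rho θ (ic D) * e := mul_nonneg hr0 he0
    obtain ⟨d₁, hd₁⟩ : ∃ d₁ : ℝ, d₁ = ((D.filter fun a => pos j a ∈ V).card : ℝ) := ⟨_, rfl⟩
    obtain ⟨d₂, hd₂⟩ : ∃ d₂ : ℝ, d₂ = ∑ v ∈ V', ((D.filter fun a => pos j a = v).card : ℝ) :=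
      ⟨_, rfl⟩
    obtain ⟨n₁, hn₁⟩ : ∃ n₁ : ℝ, n₁ = ((A'.filter fun a => pos j a ∈ V).card : ℝ) := ⟨_, rfl⟩
    obtain ⟨n₂, hn₂⟩ : ∃ n₂ : ℝ, n₂ = ∑ v ∈ V', ((A'.filter fun a => pos j a = v).card : ℝ) :=
      ⟨_, rfl⟩
    rw [← hd₁, ← hd₂] at hDc
    rw [← hn₁, ← hn₂] at hAc
    rw [← hd₁, ← hn₁] at hpop
    rw [← hd₂, ← hn₂] at hsum
    rw [hDc]
    have e1 : (1 - η) ^ (j + 1) * α = (1 - η) * q := by rw [hq, pow_succ]; ring
    rw [e1]
    have h1 : q * (d₁ + d₂ - ρ₀ * N) ≤ q * (d₁ - ρ₀ * n₁) + q * (d₂ - ρ₀ * n₂) := by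
      have h2 : ρ₀ * (n₁ + n₂) ≤ ρ₀ * N := mul_le_mul_of_nonneg_left hAc hρ₀
      rw [← mul_add]
      refine mul_le_mul_of_nonneg_left ?_ hq0
      linarith
    have h2 : q * (d₁ + d₂ - ρ₀ * N) ≤ (1 + η) * (rho θ (ic D) * e) := by
      have h3 : η * e * rho θ (ic D) = η * (rho θ (ic D) * e) := by ring
      linarith
    calc (1 - η) * q * (d₁ + d₂ - ρ₀ * N) = (1 - η) * (q * (d₁ + d₂ - ρ₀ * N)) := by ring
      _ ≤ (1 - η) * ((1 + η) * (rho θ (ic D) * e)) := mul_le_mul_of_nonneg_left h2 hη'.le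
      _ = (1 - η ^ 2) * (rho θ (ic D) * e) := by ring
      _ ≤ 1 * (rho θ (ic D) * e) := by
          refine mul_le_mul_of_nonneg_right ?_ hre
          have := sq_nonneg η
          linarith
      _ = _ := one_mul _

/-- the isoperimetric inequality for the dense subsets -/
theorem isoD (θ ε : ℝ) (hθ : 1 / 2 ≤ θ) (hθ1 : θ < 1) (hε : 0 < ε) (hε1 : ε ≤ 1) :
    ∃ η c : ℝ, 0 < η ∧ 0 < c ∧ ∀ A : Finset ℕ, Lat A → A.Nonempty → ∀ As ⊆ A,
      (A.card : ℝ) ^ (1 - η) ≤ As.card → c * (A.card : ℝ) ^ (1 - ε) ≤ rho θ (ic As) := by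
  have hl2 : 0 < Real.log 2 := Real.log_pos (by norm_num)
  obtain ⟨ε', hε'⟩ : ∃ ε' : ℝ, ε' = ε / 5 := ⟨_, rfl⟩
  have hε'0 : 0 < ε' := by rw [hε']; positivity
  obtain ⟨κ, hκe⟩ : ∃ κ : ℝ, κ = 1 - ε' := ⟨_, rfl⟩
  have hκ0 : 0 ≤ κ := by linarith
  have hκ : κ < 1 := by linarith
  obtain ⟨c₁, hc₁⟩ : ∃ c₁ : ℝ, c₁ = 2 ^ (1 - θ) - 1 := ⟨_, rfl⟩
  have hc₁0 : 0 < c₁ := by
    have : (1 : ℝ) < 2 ^ (1 - θ) := Real.one_lt_rpow (by norm_num) (by linarith)
    linarith
  obtain ⟨η, hηe⟩ : ∃ η : ℝ, 1 - η = 2 ^ (-ε') := ⟨1 - 2 ^ (-ε'), by ring⟩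
  have h2pos : (0 : ℝ) < 2 ^ (-ε') := Real.rpow_pos_of_pos (by norm_num) _
  have h2lt : (2 : ℝ) ^ (-ε') < 1 :=
    Real.rpow_lt_one_of_one_lt_of_neg (by norm_num) (by linarith)
  have hη0 : 0 < η := by linarith
  have hη1 : η < 1 := by linarith
  have hcη : 0 < η * c₁ := mul_pos hη0 hc₁0
  obtain ⟨l, hl⟩ : ∃ l : ℝ, l = (η * c₁) ^ (1 / ε') := ⟨_, rfl⟩
  have hl0 : 0 < l := by rw [hl]; exact Real.rpow_pos_of_pos hcη _
  have hlk : l ^ ε' ≤ η * c₁ := by
    rw [hl, ← Real.rpow_mul hcη.le]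
    have : 1 / ε' * ε' = 1 := by field_simp
    rw [this, Real.rpow_one]
  obtain ⟨L₀, hL₀, hL₀1⟩ : ∃ L₀ : ℕ, 1 / l ≤ L₀ ∧ 1 ≤ L₀ := by
    obtain ⟨m, hm⟩ := exists_nat_ge (1 / l)
    refine ⟨max m 1, hm.trans ?_, le_max_right _ _⟩
    exact_mod_cast le_max_left _ _
  obtain ⟨η₁, c₂, hη₁0, hη₁1, hc₂0, hc₂1, hleaf⟩ := leaf θ κ (L₀ / (ε' * Real.log 2)) hθ1 hκ0 hκ
  obtain ⟨η₂, hη₂⟩ : ∃ η₂ : ℝ, η₂ = η₁ * ε' := ⟨_, rfl⟩
  have hη₂0 : 0 < η₂ := by rw [hη₂]; positivity
  have hη₂ε : η₂ ≤ ε' := by rw [hη₂]; nlinarith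
  refine ⟨η₂ / 2, min (c₂ / 2) ((2 : ℝ) ^ (2 / η₂))⁻¹, by positivity,
    lt_min (by positivity) (by positivity), ?_⟩
  intro A hA hne As hAs hden
  obtain ⟨W, pos, hW, hco⟩ := hA.exists_coord hne
  obtain ⟨N, hN⟩ : ∃ N : ℝ, N = (A.card : ℝ) := ⟨_, rfl⟩
  have hN1 : 1 ≤ N := by rw [hN]; exact_mod_cast hne.card_pos
  have hN0 : 0 < N := by linarith
  rw [← hN] at hden
  have hAs0 : (0 : ℝ) < As.card := lt_of_lt_of_le (Real.rpow_pos_of_pos hN0 _) hden
  have hAsne : As.Nonempty := Finset.card_pos.1 (by exact_mod_cast hAs0)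
  rw [← hN]
  have hN1ε : N ^ (1 - ε) ≤ N := by
    calc N ^ (1 - ε) ≤ N ^ (1 : ℝ) := Real.rpow_le_rpow_of_exponent_le hN1 (by linarith)
      _ = N := Real.rpow_one N
  by_cases hbig : N ^ (η₂ / 2) < 2
  · -- small sets
    refine le_trans ?_ (one_le_rho hθ1.le (ic_nonempty hAsne))
    have h1 : N ≤ 2 ^ (2 / η₂) := by
      calc N = (N ^ (η₂ / 2)) ^ (2 / η₂) := by
            rw [← Real.rpow_mul hN0.le]
            have : η₂ / 2 * (2 / η₂) = 1 := by field_simp
            rw [this, Real.rpow_one]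
        _ ≤ _ := Real.rpow_le_rpow (Real.rpow_nonneg hN0.le _) hbig.le (by positivity)
    have h2 : (0 : ℝ) < 2 ^ (2 / η₂) := Real.rpow_pos_of_pos (by norm_num) _
    calc min (c₂ / 2) ((2 : ℝ) ^ (2 / η₂))⁻¹ * N ^ (1 - ε) ≤ ((2 : ℝ) ^ (2 / η₂))⁻¹ * 2 ^ (2 / η₂) :=
          mul_le_mul (min_le_right _ _) (hN1ε.trans h1) (Real.rpow_nonneg hN0.le _)
            (inv_nonneg.2 h2.le)
      _ = 1 := inv_mul_cancel₀ h2.ne'
  push Not at hbig
  have hWN : (2 : ℝ) ^ W ≤ N := by rw [hN]; exact_mod_cast hW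
  have hWlog : (W : ℝ) * Real.log 2 ≤ Real.log N := by
    have := Real.log_le_log (by positivity) hWN
    rwa [Real.log_pow] at this
  have hNneg : 0 < N ^ (-ε') := Real.rpow_pos_of_pos hN0 _
  have hNneg1 : N ^ (-ε') ≤ 1 := Real.rpow_le_one_of_one_le_of_nonpos hN1 (by linarith)
  have hdec := decompD (α := c₂ * N ^ (-ε')) (ρ₀ := N ^ (-η₂)) hθ hθ1 hε'0 hη0.le hη1 hc₁ hc₁0 hl0
    hlk hL₀ hL₀1 (Real.rpow_nonneg hN0.le _) (mul_nonneg hc₂0.le hNneg.le) hco (by
      intro A' hA' hL hne' hsm D hD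
      obtain ⟨N', hN'⟩ : ∃ N' : ℝ, N' = (A'.card : ℝ) := ⟨_, rfl⟩
      obtain ⟨d, hd⟩ : ∃ d : ℝ, d = (D.card : ℝ) := ⟨_, rfl⟩
      rw [← hN', ← hd]
      have hN'1 : 1 ≤ N' := by rw [hN']; exact_mod_cast hne'.card_pos
      have hN'0 : 0 < N' := by linarith
      have hdN : d ≤ N' := by
        rw [hd, hN']
        exact_mod_cast Finset.card_le_card hD
      have hρ0 : 0 ≤ N ^ (-η₂) := Real.rpow_nonneg hN0.le _
      have hr0 := rho_nonneg θ (ic D)
      have hN'ε : 0 ≤ N' ^ ε' := Real.rpow_nonneg hN'0.le _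
      have hα0 : 0 ≤ c₂ * N ^ (-ε') := mul_nonneg hc₂0.le hNneg.le
      by_cases hDd : d < N ^ (-η₂) * N'
      · refine le_trans ?_ (mul_nonneg hr0 hN'ε)
        exact mul_nonpos_of_nonneg_of_nonpos hα0 (by linarith)
      push Not at hDd
      have hd0 : 0 < d := lt_of_lt_of_le (mul_pos (Real.rpow_pos_of_pos hN0 _) hN'0) hDd
      have hDne : D.Nonempty := Finset.card_pos.1 (by rw [hd] at hd0; exact_mod_cast hd0)
      have h0 : c₂ * N ^ (-ε') * (d - N ^ (-η₂) * N') ≤ c₂ * N ^ (-ε') * N' := by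
        refine mul_le_mul_of_nonneg_left ?_ hα0
        have : 0 ≤ N ^ (-η₂) * N' := mul_nonneg hρ0 hN'0.le
        linarith
      refine h0.trans ?_
      by_cases hcase : N ^ ε' ≤ N'
      · -- the leaf estimate
        have hDD : ((DD A').card : ℝ) ≤ L₀ / (ε' * Real.log 2) * Real.log A'.card := by
          have h1 := (hco.mono hA').card_DD hL
          have h2 : (DD A').card ≤ W * L₀ := by
            refine h1.trans ((Finset.sum_le_sum fun i hi => hsm i (Finset.mem_range.1 hi)).trans ?_)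
            rw [Finset.sum_const, Finset.card_range, smul_eq_mul]
          have h3 : ((DD A').card : ℝ) ≤ W * L₀ := by exact_mod_cast h2
          rw [← hN']
          have h4 : ε' * Real.log N ≤ Real.log N' := by
            rw [← Real.log_rpow hN0]
            exact Real.log_le_log (Real.rpow_pos_of_pos hN0 _) hcase
          have h5 : ε' * (W * Real.log 2) ≤ Real.log N' :=
            (mul_le_mul_of_nonneg_left hWlog (by linarith)).trans h4
          have hL₀' : (0 : ℝ) ≤ L₀ := Nat.cast_nonneg _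
          calc ((DD A').card : ℝ) ≤ W * L₀ := h3
            _ = L₀ / (ε' * Real.log 2) * (ε' * (W * Real.log 2)) := by field_simp
            _ ≤ _ := mul_le_mul_of_nonneg_left h5 (by positivity)
        have h1 := hleaf A' hL hne' hDD D hD (by
          rw [← hN', ← hd]
          refine le_trans ?_ hDd
          rw [sub_eq_add_neg, Real.rpow_add hN'0, Real.rpow_one, mul_comm]
          refine mul_le_mul_of_nonneg_right ?_ hN'0.le
          calc N' ^ (-η₁) ≤ (N ^ ε') ^ (-η₁) :=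
                Real.rpow_le_rpow_of_nonpos (Real.rpow_pos_of_pos hN0 _) hcase (by linarith)
            _ = N ^ (-η₂) := by
                rw [← Real.rpow_mul hN0.le, hη₂]
                congr 1
                ring)
        rw [← hN'] at h1
        calc c₂ * N ^ (-ε') * N' ≤ c₂ * 1 * N' :=
              mul_le_mul_of_nonneg_right (mul_le_mul_of_nonneg_left hNneg1 hc₂0.le) hN'0.le
          _ = c₂ * N' ^ κ * N' ^ ε' := by
              rw [mul_one, mul_assoc, ← Real.rpow_add hN'0, hκe]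
              simp
          _ ≤ _ := mul_le_mul_of_nonneg_right h1 hN'ε
      · push Not at hcase
        have h1 := one_le_rho hθ1.le (ic_nonempty hDne)
        calc c₂ * N ^ (-ε') * N' ≤ 1 * N ^ (-ε') * N ^ ε' :=
              mul_le_mul (mul_le_mul_of_nonneg_right hc₂1 hNneg.le) hcase.le hN'0.le
                (by rw [one_mul]; exact hNneg.le)
          _ = 1 := by rw [one_mul, ← Real.rpow_add hN0]; simp
          _ ≤ rho θ (ic D) * N' ^ ε' :=
              one_le_mul_of_one_le_of_one_le h1 (Real.one_le_rpow hN'1 hε'0.le))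
    W le_rfl A subset_rfl hA (fun i h1 h2 => by omega) As hAs
  rw [← hN] at hdec
  have h1 : N ^ (-ε') ≤ (1 - η) ^ W := by
    rw [hηe, ← Real.rpow_natCast, ← Real.rpow_mul (by norm_num), mul_comm,
      Real.rpow_mul (by norm_num), Real.rpow_natCast]
    exact Real.rpow_le_rpow_of_nonpos (by positivity) hWN (by linarith)
  have h2 : N ^ (-η₂) * N ≤ N ^ (1 - η₂ / 2) / 2 := by
    rw [le_div_iff₀ (by norm_num)]
    have e1 : N ^ (-η₂) * N = N ^ (1 - η₂) := by
      rw [sub_eq_add_neg, Real.rpow_add hN0, Real.rpow_one, mul_comm]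
    have e2 : N ^ (1 - η₂ / 2) = N ^ (1 - η₂) * N ^ (η₂ / 2) := by
      rw [← Real.rpow_add hN0]
      congr 1
      ring
    rw [e1, e2]
    exact mul_le_mul_of_nonneg_left hbig (Real.rpow_nonneg hN0.le _)
  have h3 : N ^ (1 - η₂ / 2) / 2 ≤ As.card - N ^ (-η₂) * N := by linarith
  have h4 : N ^ (1 - ε) * N ^ ε' ≤ N ^ (-ε') * N ^ (-ε') * N ^ (1 - η₂ / 2) := by
    rw [← Real.rpow_add hN0, ← Real.rpow_add hN0, ← Real.rpow_add hN0]
    refine Real.rpow_le_rpow_of_exponent_le hN1 ?_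
    linarith
  have hNε : 0 < N ^ ε' := Real.rpow_pos_of_pos hN0 _
  refine le_of_mul_le_mul_right ?_ hNε
  refine le_trans ?_ hdec
  have h5 : 0 ≤ N ^ (1 - η₂ / 2) / 2 := by positivity
  calc min (c₂ / 2) ((2 : ℝ) ^ (2 / η₂))⁻¹ * N ^ (1 - ε) * N ^ ε' ≤
      c₂ / 2 * N ^ (1 - ε) * N ^ ε' := by
        refine mul_le_mul_of_nonneg_right (mul_le_mul_of_nonneg_right (min_le_left _ _) ?_) hNε.le
        exact Real.rpow_nonneg hN0.le _
    _ = c₂ / 2 * (N ^ (1 - ε) * N ^ ε') := by ring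
    _ ≤ c₂ / 2 * (N ^ (-ε') * N ^ (-ε') * N ^ (1 - η₂ / 2)) :=
        mul_le_mul_of_nonneg_left h4 (by positivity)
    _ = N ^ (-ε') * (c₂ * N ^ (-ε')) * (N ^ (1 - η₂ / 2) / 2) := by ring
    _ ≤ (1 - η) ^ W * (c₂ * N ^ (-ε')) * (N ^ (1 - η₂ / 2) / 2) := by
        refine mul_le_mul_of_nonneg_right ?_ h5
        exact mul_le_mul_of_nonneg_right h1 (mul_nonneg hc₂0.le hNneg.le)
    _ ≤ _ := by
        refine mul_le_mul_of_nonneg_left h3 ?_
        exact mul_nonneg (pow_nonneg (by linarith) _) (mul_nonneg hc₂0.le hNneg.le)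

end Pool.Agent.Run7.h386.DL
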