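import Pool.Agent.Run7.h386.DE.Divs

/-!
Weighted subsets of a set of pairwise coprime integers: if no subset has an exponentially large
weight, there is a prime power modulo which the products of the subsets are spread.
-/

set_option autoImplicit false

namespace Pool.Agent.Run7.h386.DL

open Finset
open scoped Classical

/-- pairwise coprime integers `≥ 2` -/
structure Ad (P : Finset ℕ) : Prop where
  two : ∀ m ∈ P, 2 ≤ m
  cop : ∀ m ∈ P, ∀ m' ∈ P, m ≠ m' → Nat.Coprime m m'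

lemma Ad.mono {P P' : Finset ℕ} (h : Ad P) (hs : P' ⊆ P) : Ad P' :=
  ⟨fun m hm => h.two m (hs hm), fun m hm m' hm' => h.cop m (hs hm) m' (hs hm')⟩

/-- the abstract main inequality -/
theorem core_abs {ι κ₁ κ₂ : Type*} (Idx : Finset ι) (la : ι → ℝ) (hla : ∀ i ∈ Idx, 0 < la i)
    (hne : Idx.Nonempty) (T : Finset κ₁) (V : Finset κ₂) (hT : 0 < T.card) (hV : 0 < V.card)
    (w : κ₁ → κ₂ → ℝ) (hw : ∀ j u, 0 ≤ w j u) (c : ι → κ₁ → κ₂ → ℝ)
    (hc0 : ∀ i j u, 0 ≤ c i j u) (hc1 : ∀ i j u, c i j u ≤ 1) {β D B₀ W : ℝ} (hβ : 0 < β)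
    (hD : 0 ≤ D) (hB₀ : 0 ≤ B₀) (hWe : W = ∑ u ∈ V, ∑ j ∈ T, w j u) (hW : 0 < W)
    (hmax : ∀ j ∈ T, ∀ u ∈ V, w j u * (T.card * V.card) ≤ D * W)
    (hpair : ∀ u ∈ V, ∀ j ∈ T, ∀ j' ∈ T, j ≠ j' → ∑ i ∈ Idx, la i * (c i j u * c i j' u) ≤ B₀)
    (hr : ∀ i ∈ Idx, β * W < ∑ u ∈ V, ∑ j ∈ T, w j u * c i j u) :
    β ^ 2 / 4 * ∑ i ∈ Idx, la i ≤ 2 / β * D / T.card * ∑ i ∈ Idx, la i + B₀ := by
  set lam : ℝ := ∑ i ∈ Idx, la i with hlam
  have hlam0 : 0 < lam := Finset.sum_pos hla hne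
  have hV0' : (0 : ℝ) < V.card := by exact_mod_cast hV
  have hT0 : (0 : ℝ) < T.card := by exact_mod_cast hT
  -- the class sums
  set Wu : κ₂ → ℝ := fun u => ∑ j ∈ T, w j u with hWu
  set a : κ₂ → ι → ℝ := fun u i => ∑ j ∈ T, w j u * c i j u with ha
  set F : κ₂ → ℝ := fun u => ∑ i ∈ Idx, la i * a u i with hF
  have ha0 : ∀ u i, 0 ≤ a u i := fun u i =>
    Finset.sum_nonneg fun j _ => mul_nonneg (hw _ _) (hc0 _ _ _)
  have haW : ∀ u i, a u i ≤ Wu u := fun u i =>
    Finset.sum_le_sum fun j _ => by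
      have := mul_le_mul_of_nonneg_left (hc1 i j u) (hw j u)
      simpa using this
  have hWu0 : ∀ u, 0 ≤ Wu u := fun u => Finset.sum_nonneg fun j _ => hw _ _
  have hFle : ∀ u, F u ≤ lam * Wu u := by
    intro u
    simp only [hF, hlam, Finset.sum_mul]
    exact Finset.sum_le_sum fun i hi => mul_le_mul_of_nonneg_left (haW u i) (hla i hi).le
  have hFsum : β * lam * W < ∑ u ∈ V, F u := by
    have h1 : ∑ u ∈ V, F u = ∑ i ∈ Idx, la i * ∑ u ∈ V, a u i := by
      simp only [hF]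
      rw [Finset.sum_comm]
      exact Finset.sum_congr rfl fun i _ => (Finset.mul_sum _ _ _).symm
    rw [h1]
    have h2 : β * lam * W = ∑ i ∈ Idx, la i * (β * W) := by
      rw [← Finset.sum_mul, ← hlam]; ring
    rw [h2]
    exact Finset.sum_lt_sum_of_nonempty hne fun i hi => mul_lt_mul_of_pos_left (hr i hi) (hla i hi)
  -- a good class
  obtain ⟨u, hu, hu1, hu2⟩ : ∃ u ∈ V, β / 2 * lam * Wu u ≤ F u ∧ β / 2 * W ≤ V.card * Wu u := by
    by_contra hcon
    push Not at hcon
    have h1 : ∀ u ∈ V, F u ≤ β / 2 * lam * (Wu u + W / V.card) := by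
      intro u hu
      have hWV : 0 ≤ W / V.card := div_nonneg hW.le hV0'.le
      by_cases h : β / 2 * lam * Wu u ≤ F u
      · have h2 := hcon u hu h
        have h3 : Wu u ≤ β / 2 * (W / V.card) := by
          rw [← mul_div_assoc, le_div_iff₀ hV0', mul_comm]
          exact h2.le
        calc F u ≤ lam * Wu u := hFle u
          _ ≤ lam * (β / 2 * (W / V.card)) := mul_le_mul_of_nonneg_left h3 hlam0.le
          _ = β / 2 * lam * (W / V.card) := by ring
          _ ≤ _ := mul_le_mul_of_nonneg_left (by linarith [hWu0 u]) (by positivity)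
      · push Not at h
        refine h.le.trans (mul_le_mul_of_nonneg_left (by linarith) (by positivity))
    have h2 := Finset.sum_le_sum h1
    rw [← Finset.mul_sum, Finset.sum_add_distrib, Finset.sum_const, nsmul_eq_mul,
      mul_div_cancel₀ _ hV0'.ne'] at h2
    have h3 : ∑ u ∈ V, Wu u = W := hWe.symm
    rw [h3] at h2
    linarith
  have hWu1 : 0 < Wu u := by
    by_contra h
    push Not at h
    have h1 : (V.card : ℝ) * Wu u ≤ 0 := mul_nonpos_of_nonneg_of_nonpos hV0'.le h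
    have h2 : 0 < β / 2 * W := by positivity
    linarith
  -- Cauchy-Schwarz
  have hCS : (F u) ^ 2 ≤ lam * ∑ i ∈ Idx, la i * (a u i) ^ 2 := by
    refine Finset.sum_sq_le_sum_mul_sum_of_sq_le_mul Idx (fun i hi => (hla i hi).le)
      (fun i hi => mul_nonneg (hla i hi).le (sq_nonneg _)) fun i _ => le_of_eq ?_
    ring
  have hexp : ∑ i ∈ Idx, la i * (a u i) ^ 2 = ∑ j ∈ T, ∑ j' ∈ T, w j u * w j' u *
      ∑ i ∈ Idx, la i * (c i j u * c i j' u) := by
    have h1 : ∀ i ∈ Idx, la i * (a u i) ^ 2 = ∑ j ∈ T, ∑ j' ∈ T, w j u * w j' u *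
        (la i * (c i j u * c i j' u)) := by
      intro i _
      rw [sq, ha, Finset.sum_mul_sum, Finset.mul_sum]
      refine Finset.sum_congr rfl fun j _ => ?_
      rw [Finset.mul_sum]
      refine Finset.sum_congr rfl fun j' _ => ?_
      ring
    rw [Finset.sum_congr rfl h1, Finset.sum_comm]
    refine Finset.sum_congr rfl fun j _ => ?_
    rw [Finset.sum_comm]
    refine Finset.sum_congr rfl fun j' _ => ?_
    rw [Finset.mul_sum]
  have hbound : ∑ j ∈ T, ∑ j' ∈ T, w j u * w j' u *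
      ∑ i ∈ Idx, la i * (c i j u * c i j' u) ≤
      lam * ∑ j ∈ T, w j u * w j u + B₀ * (Wu u) ^ 2 := by
    have h1 : ∀ j ∈ T, ∑ j' ∈ T, w j u * w j' u *
        ∑ i ∈ Idx, la i * (c i j u * c i j' u) ≤
        lam * (w j u * w j u) + B₀ * (w j u * Wu u) := by
      intro j hj
      rw [← Finset.add_sum_erase T _ hj]
      refine add_le_add ?_ ?_
      · rw [mul_comm lam]
        refine mul_le_mul_of_nonneg_left ?_ (mul_nonneg (hw _ _) (hw _ _))
        rw [hlam]
        refine Finset.sum_le_sum fun i hi => ?_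
        have h2 : c i j u * c i j u ≤ 1 :=
          mul_le_one₀ (hc1 _ _ _) (hc0 _ _ _) (hc1 _ _ _)
        have := mul_le_mul_of_nonneg_left h2 (hla i hi).le
        linarith
      · calc ∑ j' ∈ T.erase j, w j u * w j' u *
            ∑ i ∈ Idx, la i * (c i j u * c i j' u) ≤
            ∑ j' ∈ T.erase j, w j u * w j' u * B₀ := by
              refine Finset.sum_le_sum fun j' hj' => ?_
              refine mul_le_mul_of_nonneg_left ?_ (mul_nonneg (hw _ _) (hw _ _))
              exact hpair u hu j hj j' (Finset.mem_of_mem_erase hj')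
                (Finset.ne_of_mem_erase hj').symm
          _ ≤ ∑ j' ∈ T, w j u * w j' u * B₀ :=
              Finset.sum_le_sum_of_subset_of_nonneg (Finset.erase_subset _ _) fun j' _ _ =>
                mul_nonneg (mul_nonneg (hw _ _) (hw _ _)) hB₀
          _ = _ := by
              rw [← Finset.sum_mul, ← Finset.mul_sum]; ring
    refine (Finset.sum_le_sum h1).trans (le_of_eq ?_)
    rw [Finset.sum_add_distrib, ← Finset.mul_sum, ← Finset.mul_sum, ← Finset.sum_mul, sq]
  have hwle : ∀ j ∈ T, w j u ≤ 2 / β * D / T.card * Wu u := by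
    intro j hj
    have h2 := hmax j hj u hu
    have h3 : W ≤ 2 / β * (V.card * Wu u) := by
      have : 2 / β * (β / 2 * W) = W := by field_simp
      rw [← this]
      exact mul_le_mul_of_nonneg_left hu2 (by positivity)
    have h4 : w j u * (T.card * V.card) ≤ D * (2 / β * (V.card * Wu u)) :=
      h2.trans (mul_le_mul_of_nonneg_left h3 hD)
    have h5 : w j u * T.card ≤ 2 / β * D * Wu u := by
      have h6 : (w j u * T.card) * V.card ≤ (2 / β * D * Wu u) * V.card := by linarith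
      exact le_of_mul_le_mul_right h6 hV0'
    have h8 : w j u ≤ 2 / β * D * Wu u / T.card := by
      rw [le_div_iff₀ hT0]; exact h5
    refine h8.trans (le_of_eq ?_)
    ring
  have hdiag : ∑ j ∈ T, w j u * w j u ≤ 2 / β * D / T.card * (Wu u) ^ 2 := by
    calc ∑ j ∈ T, w j u * w j u ≤ ∑ j ∈ T, (2 / β * D / T.card * Wu u) * w j u :=
          Finset.sum_le_sum fun j hj => mul_le_mul_of_nonneg_right (hwle j hj) (hw _ _)
      _ = _ := by rw [← Finset.mul_sum, sq]; ring
  have hlow : (β / 2 * lam * Wu u) ^ 2 ≤ (F u) ^ 2 :=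
    pow_le_pow_left₀ (by positivity) hu1 2
  have h1 : (β / 2 * lam * Wu u) ^ 2 ≤ lam * (lam * (2 / β * D / T.card * (Wu u) ^ 2) +
      B₀ * (Wu u) ^ 2) := by
    refine hlow.trans (hCS.trans (mul_le_mul_of_nonneg_left ?_ hlam0.le))
    rw [hexp]
    refine hbound.trans (add_le_add ?_ le_rfl)
    exact mul_le_mul_of_nonneg_left hdiag hlam0.le
  have h2 : (β ^ 2 / 4 * lam) * (lam * (Wu u) ^ 2) ≤
      (2 / β * D / T.card * lam + B₀) * (lam * (Wu u) ^ 2) := by
    calc (β ^ 2 / 4 * lam) * (lam * (Wu u) ^ 2) = (β / 2 * lam * Wu u) ^ 2 := by ring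
      _ ≤ _ := h1
      _ = _ := by ring
  exact le_of_mul_le_mul_right h2 (by positivity)

/-- the product of a set -/
def pd (s : Finset ℕ) : ℕ := ∏ x ∈ s, x

lemma pd_pos {P s : Finset ℕ} (hP : Ad P) (hs : s ⊆ P) : 0 < pd s :=
  Finset.prod_pos fun x hx => by have := hP.two x (hs hx); omega

lemma pd_dvd {s P : Finset ℕ} (hs : s ⊆ P) : pd s ∣ pd P := Finset.prod_dvd_prod_of_subset _ _ _ hs

lemma pd_inj {P s s' : Finset ℕ} (hP : Ad P) (hs : s ⊆ P) (hs' : s' ⊆ P) (h : pd s = pd s') :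
    s = s' := by
  have key : ∀ s s' : Finset ℕ, s ⊆ P → s' ⊆ P → pd s = pd s' → s ⊆ s' := by
    intro s s' hs hs' h x hx
    by_contra hx'
    have h1 : x ∣ pd s' := by rw [← h]; exact Finset.dvd_prod_of_mem _ hx
    have h2 : Nat.Coprime x (pd s') := by
      unfold pd
      refine Nat.Coprime.prod_right fun y hy => hP.cop x (hs hx) y (hs' hy) ?_
      rintro rfl
      exact hx' hy
    have h3 := Nat.Coprime.eq_one_of_dvd h2 h1
    have := hP.two x (hs hx)
    omega
  exact subset_antisymm (key s s' hs hs' h) (key s' s hs' hs h.symm)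

/-- the condition at a prime power factor -/
noncomputable def ca (r : ℕ → (N : ℕ) → ZMod N) (m q : ℕ) (s : Finset ℕ) : ℝ :=
  if m ∉ s ∧ ((pd s : ℕ) : ZMod (q ^ m.factorization q)) = r m (q ^ m.factorization q) then 1 else 0

lemma pair_leA {P J U : Finset ℕ} (hP : Ad P) (hJ : J ⊆ P) (hU : U ⊆ P) (hd : Disjoint J U)
    (r : ℕ → (N : ℕ) → ZMod N) {u j j' : Finset ℕ} (hu : u ⊆ U) (hj : j ⊆ J) (hj' : j' ⊆ J)
    (hne : j ≠ j') :
    ∑ i ∈ U.sigma (fun m => m.primeFactors), (i.1.factorization i.2 * Real.log i.2) *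
      (ca r i.1 i.2 (j ∪ u) * ca r i.1 i.2 (j' ∪ u)) ≤ Real.log (pd J) := by
  set T := (U.sigma (fun m => m.primeFactors)).filter fun i =>
    (i.1 ∉ j ∪ u ∧ ((pd (j ∪ u) : ℕ) : ZMod (i.2 ^ i.1.factorization i.2)) =
      r i.1 (i.2 ^ i.1.factorization i.2)) ∧
    (i.1 ∉ j' ∪ u ∧ ((pd (j' ∪ u) : ℕ) : ZMod (i.2 ^ i.1.factorization i.2)) =
      r i.1 (i.2 ^ i.1.factorization i.2)) with hT
  have h1 : ∑ i ∈ U.sigma (fun m => m.primeFactors), (i.1.factorization i.2 * Real.log i.2) *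
      (ca r i.1 i.2 (j ∪ u) * ca r i.1 i.2 (j' ∪ u)) =
      ∑ i ∈ T, (i.1.factorization i.2 * Real.log i.2) := by
    rw [hT, Finset.sum_filter]
    refine Finset.sum_congr rfl fun i _ => ?_
    unfold ca
    by_cases a : i.1 ∉ j ∪ u ∧ ((pd (j ∪ u) : ℕ) : ZMod (i.2 ^ i.1.factorization i.2)) =
      r i.1 (i.2 ^ i.1.factorization i.2)
    · by_cases b : i.1 ∉ j' ∪ u ∧ ((pd (j' ∪ u) : ℕ) : ZMod (i.2 ^ i.1.factorization i.2)) =
        r i.1 (i.2 ^ i.1.factorization i.2)
      · rw [if_pos a, if_pos b, if_pos ⟨a, b⟩, one_mul, mul_one]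
      · rw [if_neg b, mul_zero, mul_zero, if_neg (fun h => b h.2)]
    · rw [if_neg a, zero_mul, mul_zero, if_neg (fun h => a h.1)]
  have hTm : ∀ i ∈ T, i.1 ∈ U ∧ i.2.Prime ∧ i.2 ∣ i.1 := by
    intro i hi
    have h2 := (Finset.mem_filter.1 hi).1
    rw [Finset.mem_sigma] at h2
    exact ⟨h2.1, Nat.prime_of_mem_primeFactors h2.2, Nat.dvd_of_mem_primeFactors h2.2⟩
  have hdisj : ∀ v : Finset ℕ, v ⊆ J → Disjoint v u := fun v hv =>
    Finset.disjoint_of_subset_left hv (Finset.disjoint_of_subset_right hu hd)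
  have hpdu : ∀ v : Finset ℕ, v ⊆ J → pd (v ∪ u) = pd v * pd u := fun v hv =>
    Finset.prod_union (hdisj v hv)
  rw [h1]
  have h2 : ∑ i ∈ T, ((i.1.factorization i.2 : ℝ) * Real.log i.2) =
      Real.log ((∏ i ∈ T, i.2 ^ i.1.factorization i.2 : ℕ) : ℝ) := by
    push_cast
    rw [Real.log_prod (fun i hi => by
      have := (hTm i hi).2.1.pos
      positivity)]
    exact Finset.sum_congr rfl fun i _ => (Real.log_pow _ _).symm
  rw [h2]
  have hj0 : 0 < pd j := pd_pos hP (hj.trans hJ)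
  have hj0' : 0 < pd j' := pd_pos hP (hj'.trans hJ)
  have hJ0 : 0 < pd J := pd_pos hP hJ
  have hjle : pd j ≤ pd J := Nat.le_of_dvd hJ0 (pd_dvd hj)
  have hjle' : pd j' ≤ pd J := Nat.le_of_dvd hJ0 (pd_dvd hj')
  have hdvd : (∏ i ∈ T, i.2 ^ i.1.factorization i.2) ∣ ((pd j : ℤ) - pd j').natAbs := by
    refine Finset.prod_dvd_of_isRelPrime ?_ fun i hi => ?_
    · intro i hi i' hi' hii
      simp only [Function.onFun]
      rw [← Nat.coprime_iff_isRelPrime]
      refine Nat.Coprime.pow _ _ ?_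
      obtain ⟨h3, h4, h5⟩ := hTm i hi
      obtain ⟨h3', h4', h5'⟩ := hTm i' hi'
      rw [Nat.coprime_primes h4 h4']
      intro h6
      by_cases h7 : i.1 = i'.1
      · apply hii
        rcases i with ⟨a, b⟩
        rcases i' with ⟨a', b'⟩
        simp only at h6 h7
        subst h6 h7
        rfl
      · have h8 := hP.cop _ (hU h3) _ (hU h3') h7
        have h9 := Nat.eq_one_of_dvd_coprimes h8 h5 (h6 ▸ h5')
        exact h4.one_lt.ne' h9
    · obtain ⟨_, ⟨h3, h4⟩, ⟨_, h5⟩⟩ := Finset.mem_filter.1 hi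
      obtain ⟨h6, h7, h8⟩ := hTm i hi
      set N := i.2 ^ i.1.factorization i.2 with hN
      have hcop : Nat.Coprime N (pd u) := by
        rw [hN]
        refine Nat.Coprime.pow_left _ ?_
        unfold pd
        refine Nat.Coprime.prod_right fun y hy => ?_
        have h9 := hP.cop i.1 (hU h6) y (hU (hu hy)) (by
          rintro h10
          exact h3 (Finset.mem_union_right _ (h10 ▸ hy)))
        exact Nat.Coprime.coprime_dvd_left h8 h9
      have h9 : ((N : ℤ)) ∣ ((pd j : ℤ) - pd j') * pd u := by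
        rw [← ZMod.intCast_zmod_eq_zero_iff_dvd]
        have h10 : ((pd (j ∪ u) : ℕ) : ZMod N) = ((pd (j' ∪ u) : ℕ) : ZMod N) := h4.trans h5.symm
        rw [hpdu j hj, hpdu j' hj'] at h10
        push_cast at h10 ⊢
        rw [sub_mul, h10, sub_self]
      have h10 : IsCoprime (N : ℤ) (pd u : ℤ) := Nat.isCoprime_iff_coprime.2 hcop
      have h11 := h10.dvd_of_dvd_mul_right h9
      exact Int.natCast_dvd.1 h11
  have hpos : 0 < ((pd j : ℤ) - pd j').natAbs := by
    rw [Int.natAbs_pos]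
    intro h
    apply hne
    refine pd_inj hP (hj.trans hJ) (hj'.trans hJ) ?_
    have : (pd j : ℤ) = pd j' := by linarith
    exact_mod_cast this
  have h3 := Nat.le_of_dvd hpos hdvd
  have h4 : ((pd j : ℤ) - pd j').natAbs ≤ pd J := by omega
  have h5 : 0 < ∏ i ∈ T, i.2 ^ i.1.factorization i.2 :=
    Finset.prod_pos fun i hi => pow_pos (hTm i hi).2.1.pos _
  refine Real.log_le_log (by exact_mod_cast h5) ?_
  exact_mod_cast h3.trans h4

lemma sum_union {J U : Finset ℕ} (hd : Disjoint J U) (f : Finset ℕ → ℝ) :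
    ∑ s ∈ (J ∪ U).powerset, f s = ∑ u ∈ U.powerset, ∑ j ∈ J.powerset, f (j ∪ u) := by
  rw [← Finset.sum_product']
  symm
  refine Finset.sum_nbij' (fun x => x.2 ∪ x.1) (fun s => (s ∩ U, s ∩ J)) ?_ ?_ ?_ ?_ ?_
  · intro x hx
    obtain ⟨h1, h2⟩ := Finset.mem_product.1 hx
    rw [Finset.mem_powerset] at h1 h2 ⊢
    exact Finset.union_subset_union h2 h1
  · intro s _
    simp only [Finset.mem_product, Finset.mem_powerset]
    exact ⟨Finset.inter_subset_right, Finset.inter_subset_right⟩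
  · intro x hx
    obtain ⟨h1, h2⟩ := Finset.mem_product.1 hx
    rw [Finset.mem_powerset] at h1 h2
    have hd' := Finset.disjoint_left.1 hd
    refine Prod.ext ?_ ?_
    · ext a
      simp only [Finset.mem_inter, Finset.mem_union]
      constructor
      · rintro ⟨h3 | h3, h4⟩
        · exact absurd h4 (hd' (h2 h3))
        · exact h3
      · intro h3
        exact ⟨Or.inr h3, h1 h3⟩
    · ext a
      simp only [Finset.mem_inter, Finset.mem_union]
      constructor
      · rintro ⟨h3 | h3, h4⟩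
        · exact h3
        · exact absurd (h1 h3) (hd' h4)
      · intro h3
        exact ⟨Or.inl h3, h2 h3⟩
  · intro s hs
    have hs' := Finset.mem_powerset.1 hs
    ext a
    simp only [Finset.mem_inter, Finset.mem_union]
    constructor
    · rintro (⟨h, _⟩ | ⟨h, _⟩) <;> exact h
    · intro h
      rcases Finset.mem_union.1 (hs' h) with h1 | h1
      · exact Or.inl ⟨h, h1⟩
      · exact Or.inr ⟨h, h1⟩
  · intro x _
    rfl

/-- the genericity theorem -/
theorem genericA (β : ℝ) (hβ : 0 < β) (hβ1 : β ≤ 1) :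
    ∃ ε₀ : ℝ, 0 < ε₀ ∧ ∃ N₀ : ℕ, ∀ P : Finset ℕ, Ad P → N₀ ≤ P.card →
      ∀ w : Finset ℕ → ℝ, (∀ t, 0 ≤ w t) → 0 < ∑ s ∈ P.powerset, w s →
      (∀ s ∈ P.powerset, w s * 2 ^ P.card ≤ Real.exp (ε₀ * P.card) * ∑ s ∈ P.powerset, w s) →
      ∃ m ∈ P, ∃ q : ℕ, q.Prime ∧ q ∣ m ∧ ∀ r : ℕ → (N : ℕ) → ZMod N,
        ∑ s ∈ P.powerset, w s * ca r m q s ≤ β * ∑ s ∈ P.powerset, w s := by
  have hl2 : 0 < Real.log 2 := Real.log_pos (by norm_num)
  obtain ⟨γ, hγ⟩ : ∃ γ : ℝ, γ = β ^ 2 / 32 := ⟨_, rfl⟩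
  have hβ2 : β ^ 2 ≤ 1 := pow_le_one₀ hβ.le hβ1
  have hγ0 : 0 < γ := by rw [hγ]; positivity
  have hγ1 : γ ≤ 1 / 32 := by rw [hγ]; linarith
  obtain ⟨N₀, hN₀⟩ := exists_nat_ge (2 / (γ * Real.log 2) * Real.log (64 / β ^ 3) + 2)
  refine ⟨γ * Real.log 2 / 2, by positivity, N₀, ?_⟩
  intro P hP hN w hw hW hmax
  by_contra hcon
  push Not at hcon
  choose! r hr using hcon
  obtain ⟨n, hn⟩ : ∃ n : ℕ, n = P.card := ⟨_, rfl⟩
  have hnN : (N₀ : ℝ) ≤ n := by rw [hn]; exact_mod_cast hN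
  have hlog64 : 0 ≤ Real.log (64 / β ^ 3) := by
    apply Real.log_nonneg
    rw [le_div_iff₀ (by positivity)]
    have : β ^ 3 ≤ 1 := pow_le_one₀ hβ.le hβ1
    linarith
  have hn2 : (2 : ℝ) ≤ n := by
    have : 0 ≤ 2 / (γ * Real.log 2) * Real.log (64 / β ^ 3) := by positivity
    linarith
  have hn0 : (0 : ℝ) < n := by linarith
  obtain ⟨h, hh⟩ : ∃ h : ℕ, h = ⌊γ * n⌋₊ := ⟨_, rfl⟩
  have hle : (h : ℝ) ≤ γ * n := by rw [hh]; exact Nat.floor_le (by positivity)
  have hge : γ * n - 1 < h := by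
    have := Nat.lt_floor_add_one (γ * n)
    rw [← hh] at this
    linarith
  have hhalf : (h : ℝ) ≤ n / 2 := by nlinarith
  have hhn : h ≤ n := by
    have : (h : ℝ) ≤ n := by linarith
    exact_mod_cast this
  obtain ⟨J, hJP, hJc, hJs⟩ := Pool.Agent.Run7.h386.DE.exists_small (fun p => Real.log p) n P
    hn.symm h hhn
  set U := P \ J with hU
  have hUP : U ⊆ P := Finset.sdiff_subset
  have hd : Disjoint J U := Finset.disjoint_sdiff
  have hJU : J ∪ U = P := Finset.union_sdiff_of_subset hJP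
  have hUc : U.card = n - h := by
    rw [hU, Finset.card_sdiff_of_subset hJP, hJc, hn]
  have hUn : U.Nonempty := by
    rw [← Finset.card_pos, hUc]
    have : (h : ℝ) < n := by linarith
    have : h < n := by exact_mod_cast this
    omega
  have hsum : ∑ p ∈ J, Real.log (p : ℝ) + ∑ p ∈ U, Real.log (p : ℝ) =
      ∑ p ∈ P, Real.log (p : ℝ) := by
    rw [← Finset.sum_union hd, hJU]
  have hlogpos : ∀ i ∈ U.sigma (fun m => m.primeFactors),
      (0 : ℝ) < i.1.factorization i.2 * Real.log i.2 := by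
    intro i hi
    obtain ⟨h1, h2⟩ := Finset.mem_sigma.1 hi
    have hq := Nat.prime_of_mem_primeFactors h2
    have h3 : 0 < i.1.factorization i.2 :=
      hq.factorization_pos_of_dvd (Nat.mem_primeFactors.1 h2).2.2 (Nat.dvd_of_mem_primeFactors h2)
    have h4 : 0 < Real.log i.2 := Real.log_pos (by exact_mod_cast hq.one_lt)
    have h5 : (0 : ℝ) < i.1.factorization i.2 := by exact_mod_cast h3
    positivity
  have hLam : ∑ i ∈ U.sigma (fun m => m.primeFactors),
      ((i.1.factorization i.2 : ℝ) * Real.log i.2) = ∑ p ∈ U, Real.log (p : ℝ) := by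
    rw [Finset.sum_sigma]
    refine Finset.sum_congr rfl fun m _ => ?_
    rw [Real.log_nat_eq_sum_factorization]
    rfl
  have hIne : (U.sigma (fun m => m.primeFactors)).Nonempty := by
    obtain ⟨m, hm⟩ := hUn
    have h1 : m ≠ 1 := by have := hP.two m (hUP hm); omega
    obtain ⟨q, hq, hqm⟩ := Nat.exists_prime_and_dvd h1
    refine ⟨⟨m, q⟩, Finset.mem_sigma.2 ⟨hm, Nat.mem_primeFactors.2 ⟨hq, hqm, ?_⟩⟩⟩
    have := hP.two m (hUP hm)
    simp only
    omega
  have hcard : (2 : ℝ) ^ P.card = (J.powerset.card : ℝ) * U.powerset.card := by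
    rw [Finset.card_powerset, Finset.card_powerset, ← hJU, Finset.card_union_of_disjoint hd]
    push_cast
    rw [pow_add]
  have hWe := sum_union hd w
  rw [hJU] at hWe
  have key := core_abs (U.sigma (fun m => m.primeFactors))
    (fun i => (i.1.factorization i.2 : ℝ) * Real.log i.2) hlogpos hIne J.powerset U.powerset
    (Finset.card_pos.2 ⟨∅, by simp⟩) (Finset.card_pos.2 ⟨∅, by simp⟩) (fun j u => w (j ∪ u))
    (fun j u => hw _) (fun i j u => ca (fun m N => r m i.2 m N) i.1 i.2 (j ∪ u))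
    (fun i j u => by unfold ca; split_ifs <;> norm_num)
    (fun i j u => by unfold ca; split_ifs <;> norm_num)
    (D := Real.exp (γ * Real.log 2 / 2 * P.card)) (B₀ := Real.log (pd J)) hβ (Real.exp_pos _).le
    (Real.log_natCast_nonneg _) hWe hW
    (by
      intro j hj u hu
      rw [Finset.mem_powerset] at hj hu
      have h1 := hmax (j ∪ u) (Finset.mem_powerset.2 (by
        rw [← hJU]; exact Finset.union_subset_union hj hu))
      rwa [hcard] at h1)
    (by
      intro u hu j hj j' hj' hne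
      rw [Finset.mem_powerset] at hu hj hj'
      -- unify the residues
      have h1 := pair_leA hP hJP hUP hd (fun m N => if hx : ∃ q, q.Prime ∧ q ∣ m ∧
        N = q ^ m.factorization q then r m hx.choose m N else 0) hu hj hj' hne
      refine le_trans (le_of_eq ?_) h1
      refine Finset.sum_congr rfl fun i hi => ?_
      have h2 := Finset.mem_sigma.1 hi
      have hq := Nat.prime_of_mem_primeFactors h2.2
      have hqd := Nat.dvd_of_mem_primeFactors h2.2
      have hx : ∃ q, q.Prime ∧ q ∣ i.1 ∧ i.2 ^ i.1.factorization i.2 = q ^ i.1.factorization q :=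
        ⟨i.2, hq, hqd, rfl⟩
      have hxq : hx.choose = i.2 := by
        obtain ⟨h3, h4, h5⟩ := hx.choose_spec
        have h6 : 0 < i.1.factorization i.2 :=
          hq.factorization_pos_of_dvd (Nat.mem_primeFactors.1 h2.2).2.2 hqd
        have h7 : i.2 ∣ hx.choose ^ i.1.factorization hx.choose := by
          rw [← h5]; exact dvd_pow_self _ (by omega)
        exact ((Nat.prime_dvd_prime_iff_eq hq h3).1 (hq.dvd_of_dvd_pow h7)).symm
      have h8 : ∀ s : Finset ℕ, ca (fun m N => r m i.2 m N) i.1 i.2 s =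
          ca (fun m N => if hx : ∃ q, q.Prime ∧ q ∣ m ∧
            N = q ^ m.factorization q then r m hx.choose m N else 0) i.1 i.2 s := by
        intro s
        unfold ca
        simp only [dif_pos hx, hxq]
      rw [h8, h8])
    (by
      intro i hi
      obtain ⟨h1, h2⟩ := Finset.mem_sigma.1 hi
      have hq := Nat.prime_of_mem_primeFactors h2
      have h3 := hr i.1 (hUP h1) i.2 hq (Nat.dvd_of_mem_primeFactors h2)
      have h4 := sum_union hd fun s => w s * ca (r i.1 i.2) i.1 i.2 s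
      rw [hJU] at h4
      rw [h4] at h3
      exact h3)
  rw [hLam, Finset.card_powerset, hJc] at key
  have hlJ : Real.log (pd J) = ∑ p ∈ J, Real.log (p : ℝ) := by
    unfold pd
    push_cast
    rw [Real.log_prod (fun p hp => by
      have := hP.two p (hJP hp)
      positivity)]
  obtain ⟨a, ha⟩ : ∃ a : ℝ, a = ∑ p ∈ J, Real.log (p : ℝ) := ⟨_, rfl⟩
  obtain ⟨b, hb⟩ : ∃ b : ℝ, b = ∑ p ∈ U, Real.log (p : ℝ) := ⟨_, rfl⟩
  rw [hlJ, ← ha, ← hb] at key
  rw [← ha, ← hsum, ← ha, ← hb] at hJs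
  have hb0 : 0 < b := by
    rw [hb]
    refine Finset.sum_pos (fun p hp => Real.log_pos ?_) hUn
    exact_mod_cast (by have := hP.two p (hUP hp); omega : 1 < p)
  have ha0 : 0 ≤ a := by
    rw [ha]; exact Finset.sum_nonneg fun p _ => Real.log_natCast_nonneg p
  have hab : a ≤ 2 * γ * b := by
    have h1 : (n : ℝ) * a ≤ γ * n * (a + b) :=
      hJs.trans (mul_le_mul_of_nonneg_right hle (by linarith))
    have h2 : a ≤ γ * (a + b) := by
      have : (n : ℝ) * a ≤ n * (γ * (a + b)) := by linarith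
      exact le_of_mul_le_mul_left this hn0
    nlinarith
  have h3 : a ≤ β ^ 2 / 16 * b := by
    refine hab.trans (le_of_eq ?_)
    rw [hγ]
    ring
  -- the diagonal term
  have h4 : 2 / β * Real.exp (γ * Real.log 2 / 2 * P.card) / ((2 ^ h : ℕ) : ℝ) ≤ β ^ 2 / 16 := by
    rw [← hn]
    push_cast
    have e2 : (2 : ℝ) ^ h = Real.exp (h * Real.log 2) := by
      rw [mul_comm, Real.exp_mul, Real.exp_log (by norm_num)]
      norm_num
    rw [e2, mul_div_assoc, ← Real.exp_sub]
    have h5 : γ * Real.log 2 / 2 * n - h * Real.log 2 ≤ Real.log 2 - γ * n * Real.log 2 / 2 := by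
      have := mul_le_mul_of_nonneg_right hge.le hl2.le
      nlinarith
    have h6 : Real.log (64 / β ^ 3) ≤ γ * n * Real.log 2 / 2 := by
      have h7 : 2 / (γ * Real.log 2) * Real.log (64 / β ^ 3) ≤ n := by linarith
      rw [div_mul_eq_mul_div, div_le_iff₀ (by positivity)] at h7
      linarith
    have h8 : Real.exp (γ * Real.log 2 / 2 * n - h * Real.log 2) ≤ 2 * (β ^ 3 / 64) := by
      calc _ ≤ Real.exp (Real.log 2 - Real.log (64 / β ^ 3)) := Real.exp_le_exp.2 (by linarith)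
        _ = 2 * (β ^ 3 / 64) := by
            rw [Real.exp_sub, Real.exp_log (by norm_num), Real.exp_log (by positivity)]
            field_simp
    calc 2 / β * Real.exp (γ * Real.log 2 / 2 * n - h * Real.log 2) ≤ 2 / β * (2 * (β ^ 3 / 64)) :=
          mul_le_mul_of_nonneg_left h8 (by positivity)
      _ = β ^ 2 / 16 := by field_simp; ring
  have h5 := mul_le_mul_of_nonneg_right h4 hb0.le
  have h6 : 0 < β ^ 2 * b := by positivity
  linarith

end Pool.Agent.Run7.h386.DL
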