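import Pool.Agent.Run7.h386.DL.Poset

/-!
The exceptional down-closed sets are few; the choice of the set `T`.
-/

set_option autoImplicit false

namespace Pool.Agent.Run7.h386.DL

open Finset
open scoped Classical

variable {β : Type*} [PartialOrder β] [DecidableEq β]

/-- the elements below a set -/
noncomputable def Nc (B K : Finset β) : Finset β := B.filter fun t => ∃ u ∈ K, t < u

lemma mem_Nc {B K : Finset β} {t : β} : t ∈ Nc B K ↔ t ∈ B ∧ ∃ u ∈ K, t < u := by
  simp only [Nc, Finset.mem_filter]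

theorem greedy {J I : Finset β} {x r w Γ : ℝ} (hx0 : 0 ≤ x) (hx : x ≤ 1 / 2)
    (hΓ : 0 < Γ) (hB : w / 4 ≤ (Bd x r J I).card) (hr : 0 ≤ r)
    (hΓx : Γ * (J.card * x) < w / 8 * r) :
    ∃ K ⊆ J, w / 8 ≤ (Nc (Bd x r J I) K).card ∧
      Γ * ∑ u ∈ K, ((1 + (ob J I u).card : ℕ) : ℝ) ≤ (Nc (Bd x r J I) K).card := by
  set B := Bd x r J I with hBdef
  obtain ⟨K, hK, hmax⟩ := Finset.exists_max_image
    (J.powerset.filter fun K => Γ * ∑ u ∈ K, ((1 + (ob J I u).card : ℕ) : ℝ) ≤ (Nc B K).card)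
    (fun K => (Nc B K).card) ⟨∅, by
      rw [Finset.mem_filter]
      refine ⟨Finset.empty_mem_powerset _, ?_⟩
      rw [Finset.sum_empty, mul_zero]
      positivity⟩
  rw [Finset.mem_filter, Finset.mem_powerset] at hK
  refine ⟨K, hK.1, ?_, hK.2⟩
  by_contra hcon
  push Not at hcon
  set B' := B.filter fun t => ¬ ∃ u ∈ K, t < u with hB'
  have hB'c : w / 8 ≤ (B'.card : ℝ) := by
    have h1 := Finset.card_filter_add_card_filter_not (s := B) fun t => ∃ u ∈ K, t < u
    have h2 : ((Nc B K).card : ℝ) + B'.card = B.card := by exact_mod_cast h1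
    linarith
  have hd : ∀ u ∈ J, ((B'.filter fun t => t < u).card : ℝ) ≤ Γ * ((1 + (ob J I u).card : ℕ) : ℝ) := by
    intro u hu
    by_contra hlt
    push Not at hlt
    have hpos : 0 < (B'.filter fun t => t < u).card := by
      have : (0 : ℝ) < (B'.filter fun t => t < u).card := lt_of_le_of_lt (by positivity) hlt
      exact_mod_cast this
    have huK : u ∉ K := by
      intro huK
      obtain ⟨t, ht⟩ := Finset.card_pos.1 hpos
      obtain ⟨h1, h2⟩ := Finset.mem_filter.1 ht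
      exact (Finset.mem_filter.1 h1).2 ⟨u, huK, h2⟩
    have hN : (Nc B (insert u K)).card = (Nc B K).card + (B'.filter fun t => t < u).card := by
      rw [← Finset.card_union_of_disjoint]
      · congr 1
        ext t
        rw [mem_Nc, Finset.mem_union, mem_Nc, Finset.mem_filter, Finset.mem_filter]
        constructor
        · rintro ⟨h1, v, hv, h2⟩
          rcases Finset.mem_insert.1 hv with rfl | hv
          · by_cases h3 : ∃ u ∈ K, t < u
            · exact Or.inl ⟨h1, h3⟩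
            · exact Or.inr ⟨⟨h1, h3⟩, h2⟩
          · exact Or.inl ⟨h1, v, hv, h2⟩
        · rintro (⟨h1, v, hv, h2⟩ | ⟨⟨h1, _⟩, h2⟩)
          · exact ⟨h1, v, Finset.mem_insert_of_mem hv, h2⟩
          · exact ⟨h1, u, Finset.mem_insert_self _ _, h2⟩
      · rw [Finset.disjoint_left]
        intro t h1 h2
        exact (Finset.mem_filter.1 (Finset.mem_filter.1 h2).1).2 (mem_Nc.1 h1).2
    have h3 : insert u K ∈ J.powerset.filter fun K =>
        Γ * ∑ u ∈ K, ((1 + (ob J I u).card : ℕ) : ℝ) ≤ (Nc B K).card := by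
      rw [Finset.mem_filter, Finset.mem_powerset]
      refine ⟨Finset.insert_subset hu hK.1, ?_⟩
      rw [Finset.sum_insert huK, mul_add, hN]
      push_cast at hlt ⊢
      have := hK.2
      push_cast at this
      linarith
    have h4 := hmax _ h3
    omega
  have h1 : w / 8 * r ≤ ∑ t ∈ B', st x J I t := by
    calc w / 8 * r ≤ B'.card * r := mul_le_mul_of_nonneg_right hB'c hr
      _ = ∑ _t ∈ B', r := by rw [Finset.sum_const, nsmul_eq_mul]
      _ ≤ _ := Finset.sum_le_sum fun t ht => by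
          have h2 := (Finset.mem_filter.1 ht).1
          rw [hBdef, Bd, Finset.mem_filter] at h2
          exact h2.2
  have h2 : ∑ t ∈ B', st x J I t ≤ Γ * (J.card * x) := by
    unfold st
    calc ∑ t ∈ B', ∑ u ∈ J.filter (fun u => t < u), x ^ (1 + (ob J I u).card) =
        ∑ t ∈ B', ∑ u ∈ J, if t < u then x ^ (1 + (ob J I u).card) else 0 :=
          Finset.sum_congr rfl fun t _ => Finset.sum_filter _ _
      _ = ∑ u ∈ J, ∑ t ∈ B', if t < u then x ^ (1 + (ob J I u).card) else 0 := Finset.sum_comm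
      _ ≤ ∑ u ∈ J, Γ * x := by
          refine Finset.sum_le_sum fun u hu => ?_
          rw [← Finset.sum_filter, Finset.sum_const, nsmul_eq_mul]
          calc ((B'.filter fun t => t < u).card : ℝ) * x ^ (1 + (ob J I u).card) ≤
              Γ * ((1 + (ob J I u).card : ℕ) : ℝ) * x ^ (1 + (ob J I u).card) :=
                mul_le_mul_of_nonneg_right (hd u hu) (by positivity)
            _ = Γ * (((1 + (ob J I u).card : ℕ) : ℝ) * x ^ (1 + (ob J I u).card)) := by ring
            _ ≤ Γ * x := mul_le_mul_of_nonneg_left (kx hx0 hx _) hΓ.le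
      _ = _ := by rw [Finset.sum_const, nsmul_eq_mul]; ring
  linarith

/-- the number of the exceptional sets -/
theorem exceptional {J : Finset β} {𝓘 : Finset (Finset β)} (h𝓘 : ∀ I ∈ 𝓘, Idl J I)
    (hrem : ∀ I ∈ 𝓘, ∀ R ⊆ mx I, I \ R ∈ 𝓘) {x r w Γ : ℝ} (hx0 : 0 ≤ x) (hx : x ≤ 1 / 2)
    (hΓ : 0 < Γ) (hr : 0 ≤ r) (hΓx : Γ * (J.card * x) < w / 8 * r) {m : ℕ}
    (hm : (J.card : ℝ) ≤ Γ * m) :
    ((𝓘.filter fun I => w / 4 ≤ (Bd x r J I).card).card : ℝ) * 2 ^ (w / 8) ≤
      𝓘.card * ((J.powerset.filter fun S => S.card ≤ m).card : ℝ) ^ 2 := by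
  set 𝓔 := 𝓘.filter fun I => w / 4 ≤ ((Bd x r J I).card : ℝ) with h𝓔
  set Sm := J.powerset.filter fun S => S.card ≤ m with hSm
  have hex : ∀ I ∈ 𝓔, ∃ K ⊆ J, w / 8 ≤ (Nc (Bd x r J I) K).card ∧
      Γ * ∑ u ∈ K, ((1 + (ob J I u).card : ℕ) : ℝ) ≤ (Nc (Bd x r J I) K).card := fun I hI =>
    greedy hx0 hx hΓ (Finset.mem_filter.1 hI).2 hr hΓx
  choose! K hKJ hK1 hK2 using hex
  set N : Finset β → Finset β := fun I => Nc (Bd x r J I) (K I) with hN
  set Z : Finset β → Finset β := fun I => (K I).biUnion fun u => ob J I u with hZ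
  have hNmx : ∀ I, N I ⊆ mx I := fun I t ht =>
    (Finset.mem_filter.1 (mem_Nc.1 ht).1).1
  have hsum : ∀ I ∈ 𝓔, ∑ u ∈ K I, (1 + (ob J I u).card) ≤ m := by
    intro I hI
    have h1 := hK2 I hI
    have h2 : ((Nc (Bd x r J I) (K I)).card : ℝ) ≤ J.card := by
      have h3 : Nc (Bd x r J I) (K I) ⊆ J := fun t ht =>
        (h𝓘 I (Finset.mem_filter.1 hI).1).1 (mem_mx.1 (hNmx I ht)).1
      exact_mod_cast Finset.card_le_card h3
    have h3 : Γ * ∑ u ∈ K I, ((1 + (ob J I u).card : ℕ) : ℝ) ≤ Γ * m := h1.trans (h2.trans hm)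
    have h4 := le_of_mul_le_mul_left h3 hΓ
    exact_mod_cast h4
  have hinj : ((𝓔.sigma fun I => (N I).powerset).card) ≤ (𝓘 ×ˢ (Sm ×ˢ Sm)).card := by
    refine Finset.card_le_card_of_injOn (fun p => (p.1 \ p.2, (K p.1, Z p.1))) ?_ ?_
    · rintro ⟨I, R⟩ hp
      rw [Finset.mem_coe, Finset.mem_sigma, Finset.mem_powerset] at hp
      obtain ⟨hI, hR⟩ := hp
      simp only at hI hR
      have hs := hsum I hI
      rw [Finset.mem_coe, Finset.mem_product, Finset.mem_product]
      refine ⟨hrem I (Finset.mem_filter.1 hI).1 R (hR.trans (hNmx I)), ?_, ?_⟩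
      · rw [hSm, Finset.mem_filter, Finset.mem_powerset]
        refine ⟨hKJ I hI, le_trans ?_ hs⟩
        calc (K I).card = ∑ _u ∈ K I, 1 := by simp
          _ ≤ _ := Finset.sum_le_sum fun u _ => by omega
      · rw [hSm, Finset.mem_filter, Finset.mem_powerset]
        refine ⟨?_, le_trans ?_ hs⟩
        · intro z hz
          obtain ⟨u, _, hz⟩ := Finset.mem_biUnion.1 hz
          exact (mem_ob.1 hz).1
        · exact (Finset.card_biUnion_le (s := K I) (t := fun u => ob J I u)).trans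
            (Finset.sum_le_sum fun u _ => by omega)
    · -- the inverse
      have key : ∀ I ∈ 𝓔, ∀ R ⊆ N I,
          I = (I \ R) ∪ ((J.filter fun z => ∃ u ∈ K I, z < u) \ Z I) := by
        intro I hI R hR
        have hIJ := (h𝓘 I (Finset.mem_filter.1 hI).1).1
        ext z
        rw [Finset.mem_union, Finset.mem_sdiff, Finset.mem_sdiff, Finset.mem_filter]
        constructor
        · intro hz
          by_cases hzR : z ∈ R
          · right
            refine ⟨⟨hIJ hz, (mem_Nc.1 (hR hzR)).2⟩, ?_⟩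
            intro h1
            obtain ⟨u, _, h2⟩ := Finset.mem_biUnion.1 h1
            exact (mem_ob.1 h2).2.2 hz
          · exact Or.inl ⟨hz, hzR⟩
        · rintro (⟨h1, _⟩ | ⟨⟨h1, u, hu, h2⟩, h3⟩)
          · exact h1
          · by_contra h4
            exact h3 (Finset.mem_biUnion.2 ⟨u, hu, mem_ob.2 ⟨h1, h2, h4⟩⟩)
      rintro ⟨I, R⟩ hp ⟨I', R'⟩ hp' h
      rw [Finset.mem_coe, Finset.mem_sigma, Finset.mem_powerset] at hp hp'
      obtain ⟨hI, hR⟩ := hp
      obtain ⟨hI', hR'⟩ := hp'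
      simp only at hI hR hI' hR'
      simp only [Prod.mk.injEq] at h
      obtain ⟨h1, h2, h3⟩ := h
      have e : I = I' := by
        rw [key I hI R hR, key I' hI' R' hR', h1, h2, h3]
      subst e
      have hRI : R ⊆ I := fun t ht => (mem_mx.1 (hNmx I (hR ht))).1
      have hRI' : R' ⊆ I := fun t ht => (mem_mx.1 (hNmx I (hR' ht))).1
      have e2 : R = R' := by
        have h4 : I \ (I \ R) = I \ (I \ R') := by rw [h1]
        rwa [Finset.sdiff_sdiff_eq_self hRI, Finset.sdiff_sdiff_eq_self hRI'] at h4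
      subst e2
      rfl
  rw [Finset.card_sigma, Finset.card_product, Finset.card_product] at hinj
  have h1 : (𝓔.card : ℝ) * 2 ^ (w / 8) ≤ ((∑ I ∈ 𝓔, ((N I).powerset).card : ℕ) : ℝ) := by
    push_cast
    rw [← nsmul_eq_mul, ← Finset.sum_const]
    refine Finset.sum_le_sum fun I hI => ?_
    rw [Finset.card_powerset]
    push_cast
    rw [← Real.rpow_natCast]
    exact Real.rpow_le_rpow_of_exponent_le (by norm_num) (hK1 I hI)
  refine h1.trans ?_
  calc ((∑ I ∈ 𝓔, ((N I).powerset).card : ℕ) : ℝ) ≤ ((𝓘.card * (Sm.card * Sm.card) : ℕ) : ℝ) := by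
        exact_mod_cast hinj
    _ = _ := by push_cast; ring

/-- the choice of `T` -/
theorem exists_T {α : Type*} (A' : Finset α) (U : α → Finset β) {J : Finset β}
    (hU : ∀ a ∈ A', Idl J (U a)) {h : ℕ} (hh : h ≤ J.card) (h1 : 1 ≤ h)
    {x : ℝ} (hx : x = (h : ℝ) / J.card) (hx2 : x ≤ 1 / 2) {r w : ℝ} (hr : r ≤ 1 / 4)
    (hw : ∀ a ∈ A', w ≤ (mx (U a)).card) (hB : ∀ a ∈ A', ((Bd x r J (U a)).card : ℝ) ≤ w / 4)
    (hxw : J.card * x ≤ w / 4) (hw0 : 0 ≤ w) :
    ∃ T ⊆ J, T.card = h ∧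
      x * w / 8 * A'.card ≤ h * ((A'.filter fun a => x * w / 8 ≤ (KT J T (U a)).card).card : ℝ) := by
  have hne : (J.powersetCard h).Nonempty := Finset.powersetCard_nonempty.2 hh
  obtain ⟨T, hT, hTs⟩ : ∃ T ∈ J.powersetCard h,
      x * w / 4 * A'.card ≤ ∑ a ∈ A', ((KT J T (U a)).card : ℝ) := by
    by_contra hcon
    push Not at hcon
    have h2 := Finset.sum_lt_sum_of_nonempty hne hcon
    rw [Finset.sum_comm, Finset.sum_const, nsmul_eq_mul, Finset.card_powersetCard] at h2
    have h3 : ∑ a ∈ A', x * w / 4 * (J.card.choose h : ℝ) ≤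
        ∑ a ∈ A', ∑ T ∈ J.powersetCard h, ((KT J T (U a)).card : ℝ) :=
      Finset.sum_le_sum fun a ha => mean_KT (hU a ha) hh h1 hx hx2 hr (hw a ha) (hB a ha) hxw hw0
    rw [Finset.sum_const, nsmul_eq_mul] at h3
    linarith
  obtain ⟨hTJ, hTc⟩ := Finset.mem_powersetCard.1 hT
  refine ⟨T, hTJ, hTc, ?_⟩
  set Gd := A'.filter fun a => x * w / 8 ≤ ((KT J T (U a)).card : ℝ) with hGd
  have h2 : ∑ a ∈ A', ((KT J T (U a)).card : ℝ) ≤ h * Gd.card + x * w / 8 * A'.card := by
    have h3 : ∀ a ∈ A', ((KT J T (U a)).card : ℝ) ≤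
        (if x * w / 8 ≤ ((KT J T (U a)).card : ℝ) then (h : ℝ) else 0) + x * w / 8 := by
      intro a _
      have hx0 : 0 ≤ x := by rw [hx]; positivity
      have h4 : 0 ≤ x * w / 8 := by positivity
      split_ifs with h5
      · have h6 : (KT J T (U a)).card ≤ h := by rw [← hTc]; exact Finset.card_le_card KT_sub
        have h7 : ((KT J T (U a)).card : ℝ) ≤ h := by exact_mod_cast h6
        linarith
      · push Not at h5
        linarith
    refine (Finset.sum_le_sum h3).trans (le_of_eq ?_)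
    rw [Finset.sum_add_distrib, ← Finset.sum_filter, Finset.sum_const, Finset.sum_const,
      nsmul_eq_mul, nsmul_eq_mul]
    ring
  linarith

end Pool.Agent.Run7.h386.DL
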