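import Pool.Agent.Run7.h386.DL.Pieces

/-!
Dense subsets of a finite set closed under gcd and lcm with few prime filters contain a dense
subset of a large piece.
-/

set_option autoImplicit false

namespace Pool.Agent.Run7.h386.DL

open Finset Pool.Agent.Run7.h386.GL Pool.Agent.Run7.h386.DE
open scoped Classical Pointwise

/-- the number of the small subsets -/
theorem sm_count (ε : ℝ) (hε : 0 < ε) : ∃ τ : ℝ, 0 < τ ∧ ∀ (S : Finset (Finset ℕ)) (w : ℕ),
    (w : ℝ) ≤ τ * S.card →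
      ((S.powerset.filter fun s => s.card ≤ w).card : ℝ) ≤ Real.exp (ε * S.card) := by
  obtain ⟨x, hx⟩ : ∃ x : ℝ, x = min (ε / 2) (1 / 2) := ⟨_, rfl⟩
  have hx0 : 0 < x := by rw [hx]; exact lt_min (by positivity) (by norm_num)
  have hx1 : x ≤ 1 / 2 := by rw [hx]; exact min_le_right _ _
  have hxε : x ≤ ε / 2 := by rw [hx]; exact min_le_left _ _
  have hlx : 0 < Real.log (1 / x) := by
    apply Real.log_pos
    rw [lt_div_iff₀ hx0]
    linarith
  refine ⟨ε / (2 * Real.log (1 / x)), by positivity, fun S w hw => ?_⟩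
  refine (small_subsets S w hx0 (by linarith)).trans (Real.exp_le_exp.2 ?_)
  have h1 : (w : ℝ) * Real.log (1 / x) ≤ ε / (2 * Real.log (1 / x)) * S.card * Real.log (1 / x) :=
    mul_le_mul_of_nonneg_right hw hlx.le
  have h2 : ε / (2 * Real.log (1 / x)) * S.card * Real.log (1 / x) = ε / 2 * S.card := by
    field_simp
  have h3 : x * S.card ≤ ε / 2 * S.card := mul_le_mul_of_nonneg_right hxε (Nat.cast_nonneg _)
  linarith

variable {A : Finset ℕ}

lemma UU_remove (hA : Lat A) {a : ℕ} (ha : a ∈ A) : ∀ R ⊆ mx (UU A a),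
    ∃ v ∈ A, UU A v = UU A a \ R := by
  intro R
  induction R using Finset.induction_on with
  | empty => intro _; exact ⟨a, ha, by rw [Finset.sdiff_empty]⟩
  | insert D R hDR ih =>
    intro hR
    obtain ⟨v, hv, hvU⟩ := ih fun x hx => hR (Finset.mem_insert_of_mem hx)
    have hD := hR (Finset.mem_insert_self D R)
    obtain ⟨h1, h2⟩ := mem_mx.1 hD
    have hDv : D ∈ ub A v := by
      rw [← mx_UU, mem_mx, hvU]
      exact ⟨Finset.mem_sdiff.2 ⟨h1, hDR⟩, fun z hz => h2 z (Finset.mem_sdiff.1 hz).1⟩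
    refine ⟨v * rt v D, hA.mul_rt_mem hv (mem_ub.1 hDv).1, ?_⟩
    rw [UU_mul_rt hA hv hDv, hvU]
    ext z
    simp only [Finset.mem_erase, Finset.mem_sdiff, Finset.mem_insert, not_or]
    tauto

lemma few_ub (hA : Lat A) {w : ℝ} {k : ℕ} (hk : w ≤ k + 1) :
    (A.filter fun a => ¬ w ≤ ((mx (UU A a)).card : ℝ)).card ≤
      ((DD A).powerset.filter fun s => s.card ≤ k).card := by
  refine Finset.card_le_card_of_injOn (fun a => ub A a) ?_ ?_
  · intro a ha
    rw [Finset.mem_coe, Finset.mem_filter, mx_UU] at ha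
    change ub A a ∈ _
    rw [Finset.mem_coe, Finset.mem_filter, Finset.mem_powerset]
    refine ⟨Finset.filter_subset _ _, ?_⟩
    have h1 : ((ub A a).card : ℝ) < k + 1 := lt_of_lt_of_le (not_le.1 ha.2) hk
    have h2 : (ub A a).card < k + 1 := by exact_mod_cast h1
    omega
  · intro a ha b hb h
    rw [Finset.mem_coe, Finset.mem_filter] at ha hb
    exact hA.ub_inj ha.1 hb.1 h

lemma few_exc (hA : Lat A) {x r w Γ : ℝ} (hx0 : 0 ≤ x) (hx : x ≤ 1 / 2)
    (hΓ : 0 < Γ) (hr : 0 ≤ r) (hΓx : Γ * ((DD A).card * x) < w / 8 * r) {m : ℕ}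
    (hm : ((DD A).card : ℝ) ≤ Γ * m) :
    ((A.filter fun a => w / 4 ≤ ((Bd x r (DD A) (UU A a)).card : ℝ)).card : ℝ) * 2 ^ (w / 8) ≤
      A.card * (((DD A).powerset.filter fun S => S.card ≤ m).card : ℝ) ^ 2 := by
  have hinj : Set.InjOn (UU A) (A : Set ℕ) := fun a ha b hb h => UU_inj hA ha hb h
  have h1 := exceptional (J := DD A) (𝓘 := A.image (UU A)) (by
    intro I hI
    obtain ⟨a, _, rfl⟩ := Finset.mem_image.1 hI
    exact UU_idl A a) (by
    intro I hI R hR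
    obtain ⟨a, ha, rfl⟩ := Finset.mem_image.1 hI
    obtain ⟨v, hv, hvU⟩ := UU_remove hA ha R hR
    exact Finset.mem_image.2 ⟨v, hv, hvU⟩) hx0 hx hΓ hr hΓx hm
  rw [Finset.card_image_of_injOn hinj] at h1
  refine le_trans (mul_le_mul_of_nonneg_right ?_ (by positivity)) h1
  have h2 : (A.filter fun a => w / 4 ≤ ((Bd x r (DD A) (UU A a)).card : ℝ)).card ≤
      ((A.image (UU A)).filter fun I => w / 4 ≤ ((Bd x r (DD A) I).card : ℝ)).card := by
    refine Finset.card_le_card_of_injOn (UU A) ?_ ?_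
    · intro a ha
      rw [Finset.mem_coe, Finset.mem_filter] at ha
      rw [Finset.mem_coe, Finset.mem_filter]
      exact ⟨Finset.mem_image_of_mem _ ha.1, ha.2⟩
    · intro a ha b hb h
      rw [Finset.mem_coe, Finset.mem_filter] at ha hb
      exact hinj ha.1 hb.1 h
  exact_mod_cast h2

/-- the pigeonhole principle with density -/
lemma pigeon {T : Finset (Finset ℕ)} (hne : A.Nonempty) (Gd : Finset ℕ) :
    ∃ M ⊆ T, (Gd.card : ℝ) / (2 * 2 ^ T.card) + (Gd.card : ℝ) / (2 * A.card) * (Vp A T M).card ≤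
      ((Gd.filter fun a => KT (DD A) T (UU A a) = M).card : ℝ) := by
  have cA : (0 : ℝ) < A.card := by exact_mod_cast hne.card_pos
  have h1 : (Gd.card : ℝ) = ∑ M ∈ T.powerset,
      ((Gd.filter fun a => KT (DD A) T (UU A a) = M).card : ℝ) := by
    rw [Finset.card_eq_sum_card_fiberwise (f := fun a => KT (DD A) T (UU A a)) (t := T.powerset)
      (fun a _ => Finset.mem_powerset.2 KT_sub)]
    push_cast
    rfl
  have h2 : (A.card : ℝ) = ∑ M ∈ T.powerset, ((Vp A T M).card : ℝ) := by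
    rw [Finset.card_eq_sum_card_fiberwise (f := fun a => KT (DD A) T (UU A a)) (t := T.powerset)
      (fun a _ => Finset.mem_powerset.2 KT_sub)]
    push_cast
    rfl
  obtain ⟨M, hM, h3⟩ := Finset.exists_le_of_sum_le (s := T.powerset)
    (f := fun M => (Gd.card : ℝ) / (2 * 2 ^ T.card) +
      (Gd.card : ℝ) / (2 * A.card) * (Vp A T M).card)
    (g := fun M => ((Gd.filter fun a => KT (DD A) T (UU A a) = M).card : ℝ))
    ⟨∅, Finset.empty_mem_powerset _⟩ (by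
      rw [← h1, Finset.sum_add_distrib, Finset.sum_const, ← Finset.mul_sum, ← h2,
        Finset.card_powerset, nsmul_eq_mul]
      push_cast
      have : (2 : ℝ) ^ T.card ≠ 0 := by positivity
      field_simp
      linarith)
  exact ⟨M, Finset.mem_powerset.1 hM, h3⟩

lemma four_le_exp : (4 : ℝ) ≤ Real.exp 2 := by
  have h1 := Real.exp_one_gt_d9
  have h2 : Real.exp 2 = Real.exp 1 * Real.exp 1 := by rw [← Real.exp_add]; norm_num
  rw [h2]
  nlinarith

/-- the piece -/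
theorem good_piece (C₁ ε₁ : ℝ) (hC₁ : 1 ≤ C₁) (hε₁ : 0 < ε₁) :
    ∃ τ κ₀ L₀ : ℝ, 0 < τ ∧ τ ≤ 1 ∧ 0 < κ₀ ∧ 0 < L₀ ∧ ∀ η : ℝ, 0 ≤ η → η ≤ τ / 32 → ∀ A : Finset ℕ,
      Lat A → A.Nonempty → ((DD A).card : ℝ) ≤ C₁ * Real.log A.card → L₀ ≤ Real.log A.card →
      ∀ As ⊆ A, (A.card : ℝ) ^ (1 - η) ≤ As.card →
      ∃ T M : Finset (Finset ℕ), ∃ S : Finset ℕ, T ⊆ DD A ∧ S ⊆ As ∧ S ⊆ Vp A T M ∧ S.Nonempty ∧
        (M.card : ℝ) * Real.log 2 ≤ ε₁ * Real.log A.card ∧ κ₀ * Real.log A.card ≤ M.card ∧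
        Real.log (Vp A T M).card - η * Real.log A.card - Real.log (32 / τ) ≤ Real.log S.card ∧
        (1 - η - ε₁) * Real.log A.card - Real.log (32 / τ) ≤ Real.log S.card := by
  have hC₁0 : 0 < C₁ := by linarith
  have hl20 : 0 < Real.log 2 := Real.log_pos (by norm_num)
  have hl2 : Real.log 2 < 1 := by
    have := Real.log_two_lt_d9
    linarith
  obtain ⟨τ₁, hτ₁0, hτ₁⟩ := sm_count (1 / (4 * C₁)) (by positivity)
  obtain ⟨τ, hτe⟩ : ∃ τ : ℝ, τ = min τ₁ 1 := ⟨_, rfl⟩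
  have hτ0 : 0 < τ := by rw [hτe]; exact lt_min hτ₁0 one_pos
  have hτ1 : τ ≤ 1 := by rw [hτe]; exact min_le_right _ _
  have hττ₁ : τ ≤ τ₁ := by rw [hτe]; exact min_le_left _ _
  obtain ⟨ε₃, hε₃⟩ : ∃ ε₃ : ℝ, ε₃ = τ * Real.log 2 / 32 := ⟨_, rfl⟩
  have hε₃0 : 0 < ε₃ := by rw [hε₃]; positivity
  obtain ⟨τ₃, hτ₃0, hτ₃⟩ := sm_count ε₃ hε₃0
  obtain ⟨x₀, hx₀0, hx₀1, hx₀2, hx₀3, hx₀4⟩ : ∃ x₀ : ℝ, 0 < x₀ ∧ x₀ ≤ 1 / 2 ∧
      x₀ ≤ τ₃ * τ ^ 2 / 128 ∧ x₀ ≤ τ / 4 ∧ x₀ ≤ ε₁ / C₁ := by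
    refine ⟨min (min (1 / 2) (τ₃ * τ ^ 2 / 128)) (min (τ / 4) (ε₁ / C₁)), ?_, ?_, ?_, ?_, ?_⟩
    · exact lt_min (lt_min (by norm_num) (by positivity)) (lt_min (by positivity) (by positivity))
    · exact (min_le_left _ _).trans (min_le_left _ _)
    · exact (min_le_left _ _).trans (min_le_right _ _)
    · exact (min_le_right _ _).trans (min_le_left _ _)
    · exact (min_le_right _ _).trans (min_le_right _ _)
  obtain ⟨L₀, hL₀a, hL₀b, hL₀c, hL₀d⟩ : ∃ L₀ : ℝ, 2 / x₀ ≤ L₀ ∧ 2 / τ₃ ≤ L₀ ∧ 64 / τ ≤ L₀ ∧ 4 ≤ L₀ :=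
    ⟨max (max (2 / x₀) (2 / τ₃)) (max (64 / τ) 4), (le_max_left _ _).trans (le_max_left _ _),
      (le_max_right _ _).trans (le_max_left _ _), (le_max_left _ _).trans (le_max_right _ _),
      (le_max_right _ _).trans (le_max_right _ _)⟩
  refine ⟨τ, x₀ * τ / 16, L₀, hτ0, hτ1, by positivity, by linarith, ?_⟩
  intro η hη0 hη A hA hne hDD hL As hAs hden
  obtain ⟨N, hN⟩ : ∃ N : ℝ, N = (A.card : ℝ) := ⟨_, rfl⟩
  obtain ⟨L, hLe⟩ : ∃ L : ℝ, L = Real.log N := ⟨_, rfl⟩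
  obtain ⟨n, hn⟩ : ∃ n : ℝ, n = ((DD A).card : ℝ) := ⟨_, rfl⟩
  rw [← hN] at hDD hL hden ⊢
  rw [← hLe] at hDD hL ⊢
  rw [← hn] at hDD
  have hN1 : 1 ≤ N := by rw [hN]; exact_mod_cast hne.card_pos
  have hN0 : 0 < N := by linarith
  have hNe : N = Real.exp L := by rw [hLe]; exact (Real.exp_log hN0).symm
  have hL4 : 4 ≤ L := hL₀d.trans hL
  have hLn2 : L ≤ n * Real.log 2 := by
    have h1 := hA.card_le
    have h2 : N ≤ 2 ^ (DD A).card := by rw [hN]; exact_mod_cast h1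
    have h3 := Real.log_le_log hN0 h2
    rwa [Real.log_pow, ← hn, ← hLe] at h3
  have hn0 : 0 ≤ n := by rw [hn]; exact Nat.cast_nonneg _
  have hLn : L ≤ n := by
    have := mul_le_mul_of_nonneg_left hl2.le hn0
    linarith
  have hnpos : 0 < n := by linarith
  have hn4 : 2 ≤ x₀ * n := by
    have h1 : 2 / x₀ ≤ n := hL₀a.trans (hL.trans hLn)
    rw [div_le_iff₀ hx₀0] at h1
    linarith
  have hn5 : 2 ≤ τ₃ * n := by
    have h1 : 2 / τ₃ ≤ n := hL₀b.trans (hL.trans hLn)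
    rw [div_le_iff₀ hτ₃0] at h1
    linarith
  have hLτ : 2 ≤ τ / 32 * L := by
    have h1 : 64 / τ ≤ L := hL₀c.trans hL
    rw [div_le_iff₀ hτ0] at h1
    linarith
  -- the parameters
  obtain ⟨h, hh⟩ : ∃ h : ℕ, h = ⌊x₀ * n⌋₊ := ⟨_, rfl⟩
  have hhle : (h : ℝ) ≤ x₀ * n := by rw [hh]; exact Nat.floor_le (by linarith)
  have hhge : x₀ * n / 2 ≤ h := by
    have := Nat.lt_floor_add_one (x₀ * n)
    rw [← hh] at this
    linarith
  have hh0 : (0 : ℝ) < h := by linarith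
  have hh1 : 1 ≤ h := by exact_mod_cast hh0
  have hhn : h ≤ (DD A).card := by
    have h0 := mul_le_mul_of_nonneg_right hx₀1 hn0
    have h1 : (h : ℝ) ≤ n := by linarith
    rw [hn] at h1
    exact_mod_cast h1
  obtain ⟨x, hx⟩ : ∃ x : ℝ, x = (h : ℝ) / (DD A).card := ⟨_, rfl⟩
  have hxn : x * n = h := by rw [hx, ← hn]; field_simp
  have hx0 : 0 < x := by rw [hx, ← hn]; positivity
  have hxx₀ : x ≤ x₀ := by
    have h1 : x * n ≤ x₀ * n := by rw [hxn]; exact hhle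
    exact le_of_mul_le_mul_right h1 hnpos
  have hx2 : x ≤ 1 / 2 := hxx₀.trans hx₀1
  obtain ⟨w, hw⟩ : ∃ w : ℝ, w = τ * n := ⟨_, rfl⟩
  have hw0 : 0 ≤ w := by rw [hw]; positivity
  obtain ⟨Γ, hΓ⟩ : ∃ Γ : ℝ, Γ = τ ^ 2 / (64 * x) := ⟨_, rfl⟩
  have hΓ0 : 0 < Γ := by rw [hΓ]; positivity
  obtain ⟨m, hm⟩ : ∃ m : ℕ, m = ⌈n / Γ⌉₊ := ⟨_, rfl⟩
  have hmge : n ≤ Γ * m := by
    have h1 : n / Γ ≤ m := by rw [hm]; exact Nat.le_ceil _
    rw [div_le_iff₀ hΓ0] at h1
    linarith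
  have hmle : (m : ℝ) ≤ τ₃ * n := by
    have h1 : (m : ℝ) < n / Γ + 1 := by rw [hm]; exact Nat.ceil_lt_add_one (by positivity)
    have h2 : n / Γ ≤ τ₃ * n / 2 := by
      have e : n / Γ = 64 * x / τ ^ 2 * n := by rw [hΓ]; field_simp
      rw [e]
      have h3 : 64 * x / τ ^ 2 ≤ τ₃ / 2 := by
        rw [div_le_iff₀ (by positivity)]
        linarith [hxx₀.trans hx₀2]
      calc 64 * x / τ ^ 2 * n ≤ τ₃ / 2 * n := mul_le_mul_of_nonneg_right h3 hn0
        _ = _ := by ring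
    linarith
  -- density
  have hden' : Real.exp ((1 - η) * L) ≤ As.card := by
    refine le_trans (le_of_eq ?_) hden
    rw [Real.rpow_def_of_pos hN0, ← hLe, mul_comm]
  have h4e := four_le_exp
  -- few elements with few maximal prime filters
  have hfew1 : ((A.filter fun a => ¬ w ≤ ((mx (UU A a)).card : ℝ)).card : ℝ) ≤ As.card / 4 := by
    have h1 := few_ub hA (w := w) (k := ⌊w⌋₊) (Nat.lt_floor_add_one w).le
    have h2 := hτ₁ (DD A) ⌊w⌋₊ (by
      refine (Nat.floor_le hw0).trans ?_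
      rw [hw, ← hn]
      exact mul_le_mul_of_nonneg_right hττ₁ hn0)
    have h3 : ((A.filter fun a => ¬ w ≤ ((mx (UU A a)).card : ℝ)).card : ℝ) ≤
        Real.exp (1 / (4 * C₁) * n) := by
      rw [hn]
      refine le_trans ?_ h2
      exact_mod_cast h1
    refine h3.trans ?_
    rw [le_div_iff₀ (by norm_num)]
    refine le_trans ?_ hden'
    have h4 : 1 / (4 * C₁) * n ≤ L / 4 := by
      rw [div_mul_eq_mul_div, one_mul, div_le_iff₀ (by positivity)]
      linarith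
    calc Real.exp (1 / (4 * C₁) * n) * 4 ≤ Real.exp (L / 4) * Real.exp 2 :=
          mul_le_mul (Real.exp_le_exp.2 h4) h4e (by norm_num) (Real.exp_pos _).le
      _ = Real.exp (L / 4 + 2) := (Real.exp_add _ _).symm
      _ ≤ _ := Real.exp_le_exp.2 (by
          have h5 : η * L ≤ 1 / 32 * L := mul_le_mul_of_nonneg_right (by linarith) (by linarith)
          linarith)
  -- few exceptional elements
  have hfew2 : ((A.filter fun a => w / 4 ≤ ((Bd x (τ / 4) (DD A) (UU A a)).card : ℝ)).card : ℝ) ≤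
      As.card / 4 := by
    have h1 := few_exc hA (x := x) (r := τ / 4) (w := w) (Γ := Γ) hx0.le hx2 hΓ0 (by positivity)
      (by
        rw [← hn, hw, hΓ]
        have e1 : τ ^ 2 / (64 * x) * (n * x) = τ ^ 2 * n / 64 := by field_simp
        have e2 : τ * n / 8 * (τ / 4) = τ ^ 2 * n / 32 := by ring
        rw [e1, e2]
        have : 0 < τ ^ 2 * n := by positivity
        linarith) (m := m) (by rw [← hn]; exact hmge)
    have h2 := hτ₃ (DD A) m (by rw [← hn]; exact hmle)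
    rw [← hn] at h2
    have h3 : ((((DD A).powerset.filter fun S => S.card ≤ m).card : ℝ)) ^ 2 ≤ 2 ^ (w / 16) := by
      calc _ ≤ (Real.exp (ε₃ * n)) ^ 2 := pow_le_pow_left₀ (Nat.cast_nonneg _) h2 2
        _ = Real.exp (Real.log 2 * (w / 16)) := by
            rw [← Real.exp_nat_mul, hε₃, hw]
            congr 1
            push_cast
            ring
        _ = 2 ^ (w / 16) := (Real.rpow_def_of_pos (by norm_num) _).symm
    obtain ⟨E, hE⟩ : ∃ E : ℝ,
        E = ((A.filter fun a => w / 4 ≤ ((Bd x (τ / 4) (DD A) (UU A a)).card : ℝ)).card : ℝ) :=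
      ⟨_, rfl⟩
    rw [← hE, ← hN] at h1
    rw [← hE]
    have h4 : E * 2 ^ (w / 16) ≤ N := by
      have h5 : E * 2 ^ (w / 8) ≤ N * 2 ^ (w / 16) :=
        h1.trans (mul_le_mul_of_nonneg_left h3 hN0.le)
      have h6 : (2 : ℝ) ^ (w / 8) = 2 ^ (w / 16) * 2 ^ (w / 16) := by
        rw [← Real.rpow_add (by norm_num)]
        congr 1
        ring
      rw [h6, ← mul_assoc] at h5
      exact le_of_mul_le_mul_right h5 (by positivity)
    have h5 : Real.exp (τ * L / 16) ≤ (2 : ℝ) ^ (w / 16) := by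
      rw [Real.rpow_def_of_pos (by norm_num)]
      refine Real.exp_le_exp.2 ?_
      rw [hw]
      have := mul_le_mul_of_nonneg_left hLn2 hτ0.le
      linarith
    have hE0 : 0 ≤ E := by rw [hE]; exact Nat.cast_nonneg _
    have h6 : E ≤ Real.exp (L - τ * L / 16) := by
      have h7 : E * Real.exp (τ * L / 16) ≤ N :=
        (mul_le_mul_of_nonneg_left h5 hE0).trans h4
      rw [Real.exp_sub, ← hNe, le_div_iff₀ (Real.exp_pos _)]
      exact h7
    refine h6.trans ?_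
    rw [le_div_iff₀ (by norm_num)]
    refine le_trans ?_ hden'
    calc Real.exp (L - τ * L / 16) * 4 ≤ Real.exp (L - τ * L / 16) * Real.exp 2 :=
          mul_le_mul_of_nonneg_left h4e (Real.exp_pos _).le
      _ = Real.exp (L - τ * L / 16 + 2) := (Real.exp_add _ _).symm
      _ ≤ _ := Real.exp_le_exp.2 (by
          have : η * L ≤ τ / 32 * L := mul_le_mul_of_nonneg_right hη (by linarith)
          linarith)
  -- the good elements
  set A' := As.filter fun a => w ≤ ((mx (UU A a)).card : ℝ) ∧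
    ¬ w / 4 ≤ ((Bd x (τ / 4) (DD A) (UU A a)).card : ℝ) with hA'
  have hA'c : (As.card : ℝ) / 2 ≤ A'.card := by
    have h1 : As ⊆ A' ∪ ((A.filter fun a => ¬ w ≤ ((mx (UU A a)).card : ℝ)) ∪
        (A.filter fun a => w / 4 ≤ ((Bd x (τ / 4) (DD A) (UU A a)).card : ℝ))) := by
      intro a ha
      rw [Finset.mem_union, Finset.mem_union, Finset.mem_filter, Finset.mem_filter,
        Finset.mem_filter]
      by_cases h1 : w ≤ ((mx (UU A a)).card : ℝ)
      · by_cases h2 : w / 4 ≤ ((Bd x (τ / 4) (DD A) (UU A a)).card : ℝ)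
        · exact Or.inr (Or.inr ⟨hAs ha, h2⟩)
        · exact Or.inl ⟨ha, h1, h2⟩
      · exact Or.inr (Or.inl ⟨hAs ha, h1⟩)
    have h2 := (Finset.card_le_card h1).trans (Finset.card_union_le _ _)
    have h3 := Finset.card_union_le (A.filter fun a => ¬ w ≤ ((mx (UU A a)).card : ℝ))
      (A.filter fun a => w / 4 ≤ ((Bd x (τ / 4) (DD A) (UU A a)).card : ℝ))
    have h4 : (As.card : ℝ) ≤ A'.card +
        (((A.filter fun a => ¬ w ≤ ((mx (UU A a)).card : ℝ)).card : ℝ) +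
        ((A.filter fun a => w / 4 ≤ ((Bd x (τ / 4) (DD A) (UU A a)).card : ℝ)).card : ℝ)) := by
      exact_mod_cast h2.trans (Nat.add_le_add_left h3 _)
    linarith
  obtain ⟨T, hTJ, hTc, hTs⟩ := exists_T A' (UU A) (J := DD A) (fun a _ => UU_idl A a) hhn hh1 hx hx2
    (r := τ / 4) (w := w) (by linarith) (fun a ha => (Finset.mem_filter.1 ha).2.1)
    (fun a ha => (not_le.1 (Finset.mem_filter.1 ha).2.2).le) (by
      rw [← hn, hw]
      have h1 : x * n ≤ x₀ * n := mul_le_mul_of_nonneg_right hxx₀ hn0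
      have h2 : x₀ * n ≤ τ / 4 * n := mul_le_mul_of_nonneg_right hx₀3 hn0
      linarith) hw0
  have hxw : x * w / 8 = h * (τ / 8) := by
    rw [hw, ← hxn]; ring
  rw [hxw] at hTs
  set Gd := A'.filter fun a => h * (τ / 8) ≤ ((KT (DD A) T (UU A a)).card : ℝ) with hGd
  have hGdc : τ / 16 * As.card ≤ (Gd.card : ℝ) := by
    have h1 : h * (τ / 8 * A'.card) ≤ h * (Gd.card : ℝ) := by
      calc h * (τ / 8 * (A'.card : ℝ)) = h * (τ / 8) * A'.card := by ring
        _ ≤ _ := hTs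
    have h2 := le_of_mul_le_mul_left h1 hh0
    have h3 : τ / 8 * (As.card / 2) ≤ τ / 8 * A'.card :=
      mul_le_mul_of_nonneg_left hA'c (by positivity)
    linarith
  have hGdA : Gd ⊆ A := fun a ha =>
    hAs (Finset.mem_filter.1 (Finset.mem_filter.1 ha).1).1
  obtain ⟨M, hMT, hMs⟩ := pigeon (T := T) hne Gd
  set S := Gd.filter fun a => KT (DD A) T (UU A a) = M with hS
  have hAs0 : (0 : ℝ) < As.card := lt_of_lt_of_le (Real.exp_pos _) hden'
  have hGd0 : (0 : ℝ) < Gd.card := lt_of_lt_of_le (mul_pos (by linarith) hAs0) hGdc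
  have hV0 : (0 : ℝ) ≤ (Vp A T M).card := Nat.cast_nonneg _
  obtain ⟨gd, hgd⟩ : ∃ gd : ℝ, gd = (Gd.card : ℝ) := ⟨_, rfl⟩
  obtain ⟨sc, hsc⟩ : ∃ sc : ℝ, sc = (S.card : ℝ) := ⟨_, rfl⟩
  obtain ⟨vc, hvc⟩ : ∃ vc : ℝ, vc = ((Vp A T M).card : ℝ) := ⟨_, rfl⟩
  obtain ⟨ac, hac⟩ : ∃ ac : ℝ, ac = (As.card : ℝ) := ⟨_, rfl⟩
  rw [← hgd, ← hsc, ← hN, ← hvc, hTc] at hMs
  rw [← hgd] at hGd0 hGdc
  rw [← hac] at hAs0 hGdc hden'
  rw [← hvc] at hV0
  have h2h : (0 : ℝ) < 2 ^ h := pow_pos (by norm_num) _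
  have hS1 : gd / (2 * 2 ^ h) ≤ sc := by
    have : 0 ≤ gd / (2 * N) * vc := mul_nonneg (div_nonneg hGd0.le (by linarith)) hV0
    linarith
  have hS2 : gd / (2 * N) * vc ≤ sc := by
    have : 0 ≤ gd / (2 * 2 ^ h) := div_nonneg hGd0.le (by linarith)
    linarith
  have hS0 : 0 < sc := lt_of_lt_of_le (div_pos hGd0 (by linarith)) hS1
  have hSne : S.Nonempty := Finset.card_pos.1 (by rw [hsc] at hS0; exact_mod_cast hS0)
  have hSV : S ⊆ Vp A T M := fun a ha => by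
    obtain ⟨h1, h2⟩ := Finset.mem_filter.1 ha
    exact mem_Vp.2 ⟨hGdA h1, h2⟩
  have hV1 : 0 < vc := by rw [hvc]; exact_mod_cast (hSne.mono hSV).card_pos
  have hhL : (h : ℝ) * Real.log 2 ≤ ε₁ * L := by
    have h1 : (h : ℝ) * Real.log 2 ≤ h * 1 := mul_le_mul_of_nonneg_left hl2.le hh0.le
    have h2 : x₀ * n ≤ x₀ * (C₁ * L) := mul_le_mul_of_nonneg_left hDD hx₀0.le
    have h3 : x₀ * (C₁ * L) ≤ ε₁ / C₁ * (C₁ * L) :=
      mul_le_mul_of_nonneg_right hx₀4 (mul_nonneg hC₁0.le (by linarith))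
    have h4 : ε₁ / C₁ * (C₁ * L) = ε₁ * L := by field_simp
    linarith
  have hτ32 : 0 < τ / 32 := by linarith
  have hlogτ : Real.log (32 / τ) = - Real.log (τ / 32) := by
    rw [← Real.log_inv, inv_div]
  have hgd2 : τ / 16 * Real.exp ((1 - η) * L) ≤ gd :=
    (mul_le_mul_of_nonneg_left hden' (by linarith)).trans hGdc
  refine ⟨T, M, S, hTJ, ?_, hSV, hSne, ?_, ?_, ?_, ?_⟩
  · intro a ha
    exact (Finset.mem_filter.1 (Finset.mem_filter.1 (Finset.mem_filter.1 ha).1).1).1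
  · refine le_trans (mul_le_mul_of_nonneg_right ?_ hl20.le) hhL
    have := Finset.card_le_card hMT
    rw [hTc] at this
    exact_mod_cast this
  · obtain ⟨a, ha⟩ := hSne
    obtain ⟨h1, h2⟩ := Finset.mem_filter.1 ha
    have h3 := (Finset.mem_filter.1 h1).2
    rw [h2] at h3
    refine le_trans ?_ h3
    have h4 : x₀ * n / 2 * (τ / 8) ≤ h * (τ / 8) := mul_le_mul_of_nonneg_right hhge (by linarith)
    have h5 : x₀ * τ / 16 * L ≤ x₀ * τ / 16 * n :=
      mul_le_mul_of_nonneg_left hLn (div_nonneg (mul_nonneg hx₀0.le hτ0.le) (by norm_num))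
    linarith
  · rw [← hvc, ← hsc]
    have h1 : τ / 32 * Real.exp (-(η * L)) * vc ≤ sc := by
      refine le_trans (mul_le_mul_of_nonneg_right ?_ hV0) hS2
      rw [le_div_iff₀ (by linarith)]
      refine le_trans (le_of_eq ?_) hgd2
      have h3 : Real.exp ((1 - η) * L) = Real.exp (-(η * L)) * N := by
        rw [hNe, ← Real.exp_add]
        congr 1
        ring
      rw [h3]
      ring
    have h0 : 0 < τ / 32 * Real.exp (-(η * L)) := mul_pos hτ32 (Real.exp_pos _)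
    have h2 := Real.log_le_log (mul_pos h0 hV1) h1
    rw [Real.log_mul h0.ne' hV1.ne', Real.log_mul hτ32.ne' (Real.exp_pos _).ne',
      Real.log_exp] at h2
    rw [hlogτ]
    linarith
  · rw [← hsc]
    have h1 : τ / 32 * Real.exp ((1 - η) * L) / 2 ^ h ≤ sc := by
      refine le_trans ?_ hS1
      rw [div_le_div_iff₀ h2h (by linarith)]
      calc τ / 32 * Real.exp ((1 - η) * L) * (2 * 2 ^ h) =
          τ / 16 * Real.exp ((1 - η) * L) * 2 ^ h := by ring
        _ ≤ _ := mul_le_mul_of_nonneg_right hgd2 h2h.le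
    have h0 : 0 < τ / 32 * Real.exp ((1 - η) * L) := mul_pos hτ32 (Real.exp_pos _)
    have h2 := Real.log_le_log (div_pos h0 h2h) h1
    rw [Real.log_div h0.ne' h2h.ne', Real.log_mul hτ32.ne'
      (Real.exp_pos _).ne', Real.log_exp, Real.log_pow] at h2
    rw [hlogτ]
    linarith

end Pool.Agent.Run7.h386.DL
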