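import Pool.Agent.Run7.h386.DL.Leaf
import Pool.Agent.Run7.h386.GM.Core2

/-!
The isoperimetric inequality for the dense subsets of the finite sets closed under gcd and lcm which
have few prime filters.
-/

set_option autoImplicit false

namespace Pool.Agent.Run7.h386.DL

open Finset Pool.Agent.TH83.SQ Pool.Agent.N811.IS
open Pool.Agent.Run7.h386.GL Pool.Agent.Run7.h386.DE
open scoped Classical Pointwise

/-- the inequality in logarithmic form -/
lemma final_log {α δ θ ε ε₁ η K C M2 L s v b y κ : ℝ} (hα : 0 < α) (hκ : κ = 1 - ε)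
    (hε : 0 < ε) (hε₁ : ε₁ = ε / 8) (hδ : δ ≤ ε / 8) (hδθ : δ ≤ 1 - θ) (hδ0 : 0 < δ)
    (hη : η ≤ α * ε / 24) (hα1 : α ≤ 1) (hL : 0 ≤ L) (hv : v ≤ L) (hb : 0 ≤ b)
    (h1 : v - η * L - K ≤ s) (h2 : (1 - η - ε₁) * L - K ≤ s) (hM : M2 ≤ ε₁ * L)
    (h : (1 + α) * (s + b) ≤ α * y + (α * M2 + Real.log C + (1 + α * δ) * (v + b))) :
    κ * L - (K + (K + Real.log C) / α) + θ * b ≤ y := by
  have hηε : η ≤ ε / 24 := by
    refine hη.trans ?_
    have : α * ε ≤ 1 * ε := mul_le_mul_of_nonneg_right hα1 hε.le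
    linarith
  have e1 : α * ((K + Real.log C) / α) = K + Real.log C := by field_simp
  have h3 : α * ((1 - η - ε₁) * L - K) ≤ α * s := mul_le_mul_of_nonneg_left h2 hα.le
  have h4 : α * (δ * v) ≤ α * (δ * L) :=
    mul_le_mul_of_nonneg_left (mul_le_mul_of_nonneg_left hv hδ0.le) hα.le
  have h5 : α * M2 ≤ α * (ε₁ * L) := mul_le_mul_of_nonneg_left hM hα.le
  have h6 : η * L ≤ α * ε / 24 * L := mul_le_mul_of_nonneg_right hη hL
  have h7 : α * (δ * L) ≤ α * (ε / 8 * L) :=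
    mul_le_mul_of_nonneg_left (mul_le_mul_of_nonneg_right hδ hL) hα.le
  have h8 : α * (η * L) ≤ α * (ε / 24 * L) :=
    mul_le_mul_of_nonneg_left (mul_le_mul_of_nonneg_right hηε hL) hα.le
  have h9 : α * (δ * b) ≤ α * ((1 - θ) * b) :=
    mul_le_mul_of_nonneg_left (mul_le_mul_of_nonneg_right hδθ hb) hα.le
  have h10 : 0 ≤ α * (ε * L) := mul_nonneg hα.le (mul_nonneg hε.le hL)
  have key : α * (κ * L - (K + (K + Real.log C) / α) + θ * b) ≤ α * y := by
    have e2 : α * (κ * L - (K + (K + Real.log C) / α) + θ * b) =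
        α * (κ * L) - α * K - α * ((K + Real.log C) / α) + α * (θ * b) := by ring
    rw [e2, e1, hκ]
    rw [hε₁] at h3 h5
    linarith
  exact le_of_mul_le_mul_left key hα

theorem leaf (θ κ C₀ : ℝ) (hθ1 : θ < 1) (hκ0 : 0 ≤ κ) (hκ : κ < 1) :
    ∃ η c : ℝ, 0 < η ∧ η ≤ 1 ∧ 0 < c ∧ c ≤ 1 ∧ ∀ A : Finset ℕ, Lat A → A.Nonempty →
      ((DD A).card : ℝ) ≤ C₀ * Real.log A.card → ∀ As ⊆ A, (A.card : ℝ) ^ (1 - η) ≤ As.card →
      c * (A.card : ℝ) ^ κ ≤ rho θ (ic As) := by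
  obtain ⟨C₁, hC₁, hC₀⟩ : ∃ C₁ : ℝ, 1 ≤ C₁ ∧ C₀ ≤ C₁ := ⟨max C₀ 1, le_max_right _ _, le_max_left _ _⟩
  obtain ⟨ε, hε⟩ : ∃ ε : ℝ, ε = 1 - κ := ⟨_, rfl⟩
  have hε0 : 0 < ε := by rw [hε]; linarith
  have hκε : κ = 1 - ε := by linarith
  obtain ⟨ε₁, hε₁⟩ : ∃ ε₁ : ℝ, ε₁ = ε / 8 := ⟨_, rfl⟩
  have hθ0 : 0 < 1 - θ := by linarith
  obtain ⟨δ, hδ0, hδθ, hδε⟩ : ∃ δ : ℝ, 0 < δ ∧ δ ≤ 1 - θ ∧ δ ≤ ε / 8 :=
    ⟨min (1 - θ) (ε / 8), lt_min hθ0 (by linarith), min_le_left _ _, min_le_right _ _⟩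
  obtain ⟨τ, κ₀, L₀, hτ0, hτ1, hκ₀0, hL₀0, hpiece⟩ := good_piece C₁ ε₁ hC₁ (by rw [hε₁]; linarith)
  obtain ⟨t, ht⟩ : ∃ t : ℝ, t = 1 / (1 - θ) := ⟨_, rfl⟩
  have ht0 : 0 < t := by rw [ht]; positivity
  have ht1 : (1 - θ) * t = 1 := by rw [ht]; field_simp
  obtain ⟨θE, hθE⟩ : ∃ θE : ℝ, θE = κ₀ / (1 + t) := ⟨_, rfl⟩
  have hθE0 : 0 < θE := by rw [hθE]; positivity
  obtain ⟨α, hα0, hα1, C, hC1, hen⟩ := energyA δ θE hδ0 hθE0
  obtain ⟨η, hη0, hητ, hηα⟩ : ∃ η : ℝ, 0 < η ∧ η ≤ τ / 32 ∧ η ≤ α * ε / 24 :=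
    ⟨min (τ / 32) (α * ε / 24), lt_min (by positivity) (by positivity), min_le_left _ _,
      min_le_right _ _⟩
  obtain ⟨K, hK⟩ : ∃ K : ℝ, K = Real.log (32 / τ) := ⟨_, rfl⟩
  have hK0 : 0 ≤ K := by
    rw [hK]
    apply Real.log_nonneg
    rw [le_div_iff₀ hτ0]
    linarith
  have hlC : 0 ≤ Real.log C := Real.log_nonneg hC1
  obtain ⟨C', hC'⟩ : ∃ C' : ℝ, C' = K + (K + Real.log C) / α := ⟨_, rfl⟩
  have hC'0 : 0 ≤ C' := by rw [hC']; positivity
  refine ⟨η, min (Real.exp (-C')) (Real.exp (-L₀)), hη0, by linarith,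
    lt_min (Real.exp_pos _) (Real.exp_pos _),
    (min_le_left _ _).trans (Real.exp_le_one_iff.2 (by linarith)), ?_⟩
  intro A hA hne hDD As hAs hden
  have hAsne : As.Nonempty := by
    rw [← Finset.card_pos]
    have : (0 : ℝ) < As.card :=
      lt_of_lt_of_le (Real.rpow_pos_of_pos (by exact_mod_cast hne.card_pos) _) hden
    exact_mod_cast this
  obtain ⟨N, hN⟩ : ∃ N : ℝ, N = (A.card : ℝ) := ⟨_, rfl⟩
  obtain ⟨L, hL⟩ : ∃ L : ℝ, L = Real.log N := ⟨_, rfl⟩
  have hN1 : 1 ≤ N := by rw [hN]; exact_mod_cast hne.card_pos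
  have hN0 : 0 < N := by linarith
  have hLnn : 0 ≤ L := by rw [hL]; exact Real.log_nonneg hN1
  have hNκ : 0 ≤ N ^ κ := Real.rpow_nonneg hN0.le _
  by_cases hsmall : L < L₀
  · -- small sets
    rw [← hN]
    have h1 : (1 : ℝ) ≤ rho θ (ic As) := one_le_rho hθ1.le (ic_nonempty hAsne)
    refine le_trans ?_ h1
    calc min (Real.exp (-C')) (Real.exp (-L₀)) * N ^ κ ≤
        Real.exp (-L₀) * Real.exp L := by
          refine mul_le_mul (min_le_right _ _) ?_ hNκ (Real.exp_pos _).le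
          rw [hL, Real.exp_log hN0]
          calc N ^ κ ≤ N ^ (1 : ℝ) := Real.rpow_le_rpow_of_exponent_le hN1 hκ.le
            _ = N := Real.rpow_one N
      _ ≤ 1 := by
          rw [← Real.exp_add]
          exact Real.exp_le_one_iff.2 (by linarith)
  push Not at hsmall
  have hDD' : ((DD A).card : ℝ) ≤ C₁ * Real.log A.card := by
    refine hDD.trans (mul_le_mul_of_nonneg_right hC₀ ?_)
    rw [← hN, ← hL]
    exact hLnn
  obtain ⟨T, M, S, hT, hSAs, hSV, hSne, hM1, hM2, hS1, hS2⟩ := hpiece η hη0.le hητ A hA hne hDD'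
    (by rw [← hN, ← hL]; exact hsmall) As hAs hden
  rw [← hN, ← hL] at hM1 hM2 hS1 hS2
  rw [← hK] at hS1 hS2
  rw [← hN]
  refine le_trans (mul_le_mul_of_nonneg_right (min_le_left _ _) hNκ) ?_
  refine le_rho fun B hB => ?_
  have cB : (0 : ℝ) < B.card := by exact_mod_cast hB.card_pos
  have cB1 : (1 : ℝ) ≤ B.card := by exact_mod_cast hB.card_pos
  have hlB0 : 0 ≤ Real.log B.card := Real.log_nonneg cB1
  have hsum0 : (0 : ℝ) < (ic As + B).card := by
    exact_mod_cast ((ic_nonempty hAsne).add hB).card_pos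
  -- reduce to logarithms
  suffices hlog : κ * L - C' + θ * Real.log B.card ≤ Real.log (ic As + B).card by
    have h1 := Real.exp_le_exp.2 hlog
    rw [Real.exp_log hsum0] at h1
    refine le_trans (le_of_eq ?_) h1
    have e1 : Real.exp (κ * L) = N ^ κ := by rw [Real.rpow_def_of_pos hN0, mul_comm, hL]
    have e2 : Real.exp (θ * Real.log B.card) = (B.card : ℝ) ^ θ := by
      rw [Real.rpow_def_of_pos cB, mul_comm]
    rw [Real.exp_add, sub_eq_add_neg, Real.exp_add, e1, e2]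
    ring
  by_cases hBbig : t * L < Real.log B.card
  · -- large second summand
    have h1 : Real.log B.card ≤ Real.log (ic As + B).card := by
      refine Real.log_le_log cB ?_
      exact_mod_cast Finset.card_le_card_add_left (ic_nonempty hAsne)
    have h2 : L ≤ (1 - θ) * Real.log B.card := by
      calc L = (1 - θ) * (t * L) := by rw [← mul_assoc, ht1, one_mul]
        _ ≤ _ := mul_le_mul_of_nonneg_left hBbig.le hθ0.le
    have h3 : κ * L ≤ 1 * L := mul_le_mul_of_nonneg_right hκ.le hLnn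
    linarith
  push Not at hBbig
  have hVne : (Vp A T M).Nonempty := hSne.mono hSV
  have cV : (0 : ℝ) < (Vp A T M).card := by exact_mod_cast hVne.card_pos
  have cS : (0 : ℝ) < S.card := by exact_mod_cast hSne.card_pos
  have hvL : Real.log (Vp A T M).card ≤ L := by
    rw [hL, hN]
    refine Real.log_le_log cV ?_
    exact_mod_cast Finset.card_le_card (Finset.filter_subset _ _)
  have hcond : θE * Real.log ((Vp A T M).card * B.card) ≤ M.card := by
    rw [Real.log_mul cV.ne' cB.ne']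
    have h1 : Real.log (Vp A T M).card + Real.log B.card ≤ (1 + t) * L := by linarith
    calc θE * (Real.log (Vp A T M).card + Real.log B.card) ≤ θE * ((1 + t) * L) :=
          mul_le_mul_of_nonneg_left h1 hθE0.le
      _ = κ₀ * L := by
          rw [hθE]
          have : 1 + t ≠ 0 := by linarith
          field_simp
      _ ≤ _ := hM2
  have hps := piece_sum hα0 hδ0 hθE0.le (by linarith) hen hA hT hVne hB hcond hSV
  have hy : Real.log (ic S + B).card ≤ Real.log (ic As + B).card := by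
    refine Real.log_le_log ?_ ?_
    · exact_mod_cast ((ic_nonempty hSne).add hB).card_pos
    · exact_mod_cast Finset.card_le_card (Finset.add_subset_add_right (ic_mono hSAs))
  have cSB : (0 : ℝ) < (ic S + B).card := by
    exact_mod_cast ((ic_nonempty hSne).add hB).card_pos
  have hps2 : (1 + α) * (Real.log S.card + Real.log B.card) ≤
      α * Real.log (ic S + B).card + (α * (M.card * Real.log 2) + Real.log C +
        (1 + α * δ) * (Real.log (Vp A T M).card + Real.log B.card)) := by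
    have h1 := Real.log_le_log (Real.rpow_pos_of_pos (mul_pos cS cB) _) hps
    have p1 : (0 : ℝ) < ((ic S + B).card : ℝ) ^ α := Real.rpow_pos_of_pos cSB _
    have p2 : (0 : ℝ) < (2 : ℝ) ^ (α * M.card) := Real.rpow_pos_of_pos (by norm_num) _
    have p3 : (0 : ℝ) < (((Vp A T M).card : ℝ) * B.card) ^ (1 + α * δ) :=
      Real.rpow_pos_of_pos (mul_pos cV cB) _
    have p4 : (0 : ℝ) < C := by linarith
    rw [Real.log_rpow (mul_pos cS cB), Real.log_mul cS.ne' cB.ne',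
      Real.log_mul p1.ne' (mul_pos (mul_pos p2 p4) p3).ne', Real.log_rpow cSB,
      Real.log_mul (mul_pos p2 p4).ne' p3.ne', Real.log_mul p2.ne' p4.ne',
      Real.log_rpow (by norm_num), Real.log_rpow (mul_pos cV cB), Real.log_mul cV.ne' cB.ne'] at h1
    linarith
  have hfin := final_log hα0 hκε hε0 hε₁ hδε hδθ hδ0 hηα hα1 hLnn hvL hlB0 hS1 hS2 hM1 hps2
  rw [← hC'] at hfin
  exact hfin.trans hy

end Pool.Agent.Run7.h386.DL
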