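import Pool.Agent.Run7.h386.DL.CubeIso
import Pool.Agent.Run7.h386.GL.Main

/-!
Sums of subsets of finite sets closed under gcd and lcm, and of subsets of the sets of the products
`x ∏ s`: the main theorem.
-/

set_option autoImplicit false

namespace Pool.Agent.Run7.h386.DL

open Finset Pool.Agent.TH83.SQ Pool.Agent.N811.IS
open Pool.Agent.Run7.h386.GL
open scoped Classical Pointwise

/-- the isoperimetric inequality with polynomial dependence on the density -/
theorem isoD2 (θ ε : ℝ) (hθ : 1 / 2 ≤ θ) (hθ1 : θ < 1) (hε : 0 < ε) (hε1 : ε ≤ 1) :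
    ∃ C c : ℝ, 0 < C ∧ 0 < c ∧ ∀ A : Finset ℕ, Lat A → ∀ As ⊆ A, As.Nonempty →
      c * (A.card : ℝ) ^ (1 - ε) * (As.card / (A.card : ℝ)) ^ C ≤ rho θ (ic As) := by
  obtain ⟨η, c, hη, hc, h⟩ := isoD θ ε hθ hθ1 hε hε1
  refine ⟨1 / η, min c 1, by positivity, lt_min hc one_pos, ?_⟩
  intro A hA As hAs hne
  have hAne : A.Nonempty := hne.mono hAs
  obtain ⟨N, hN⟩ : ∃ N : ℝ, N = (A.card : ℝ) := ⟨_, rfl⟩
  obtain ⟨s, hs⟩ : ∃ s : ℝ, s = (As.card : ℝ) := ⟨_, rfl⟩
  have hN1 : 1 ≤ N := by rw [hN]; exact_mod_cast hAne.card_pos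
  have hN0 : 0 < N := by linarith
  have hs0 : 0 < s := by rw [hs]; exact_mod_cast hne.card_pos
  have hsN : s ≤ N := by rw [hs, hN]; exact_mod_cast Finset.card_le_card hAs
  have hr0 : 0 ≤ s / N := by positivity
  have hr1 : s / N ≤ 1 := by rw [div_le_one hN0]; exact hsN
  rw [← hN, ← hs]
  by_cases hd : N ^ (1 - η) ≤ s
  · have h1 := h A hA hAne As hAs (by rw [← hN, ← hs]; exact hd)
    rw [← hN] at h1
    refine le_trans ?_ h1
    calc min c 1 * N ^ (1 - ε) * (s / N) ^ (1 / η) ≤ c * N ^ (1 - ε) * 1 := by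
          refine mul_le_mul ?_ (Real.rpow_le_one hr0 hr1 (by positivity)) (by positivity)
            (by positivity)
          exact mul_le_mul_of_nonneg_right (min_le_left _ _) (by positivity)
      _ = _ := mul_one _
  · push Not at hd
    refine le_trans ?_ (one_le_rho hθ1.le (ic_nonempty hne))
    have h1 : s / N ≤ N ^ (-η) := by
      rw [div_le_iff₀ hN0]
      refine hd.le.trans (le_of_eq ?_)
      rw [sub_eq_add_neg, Real.rpow_add hN0, Real.rpow_one, mul_comm]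
    have h2 : (s / N) ^ (1 / η) ≤ N ^ (-1 : ℝ) := by
      calc (s / N) ^ (1 / η) ≤ (N ^ (-η)) ^ (1 / η) := Real.rpow_le_rpow hr0 h1 (by positivity)
        _ = N ^ (-1 : ℝ) := by
            rw [← Real.rpow_mul hN0.le]
            congr 1
            field_simp
    calc min c 1 * N ^ (1 - ε) * (s / N) ^ (1 / η) ≤ 1 * N ^ (1 - ε) * N ^ (-1 : ℝ) := by
          refine mul_le_mul ?_ h2 (by positivity) (by positivity)
          exact mul_le_mul_of_nonneg_right (min_le_right _ _) (by positivity)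
      _ = N ^ (-ε) := by
          rw [one_mul, ← Real.rpow_add hN0]
          congr 1
          ring
      _ ≤ 1 := Real.rpow_le_one_of_one_le_of_nonpos hN1 (by linarith)

/-- the sets considered: `S` is a nonempty subset of a set closed under gcd and lcm with `V`
elements, or of the set of the `V` products `x ∏ s` -/
def Ty (T : ℝ) (S : Finset ℤ) (V : ℝ) : Prop :=
  S.Nonempty ∧ ((∃ A As : Finset ℕ, Lat A ∧ As ⊆ A ∧ S = ic As ∧ V = A.card) ∨
    (∃ (X : Finset ℤ) (P : Finset ℕ), X.Nonempty ∧ Ad P ∧ (X.card : ℝ) ≤ 2 ^ (T * P.card) ∧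
      (∀ z ∈ S, ∃ x ∈ X, ∃ s ⊆ P, z = (pd s : ℤ) * x) ∧ V = (X.card : ℝ) * 2 ^ P.card))

lemma Ty.card_le {T : ℝ} {S : Finset ℤ} {V : ℝ} (h : Ty T S V) : (S.card : ℝ) ≤ V := by
  obtain ⟨_, ⟨A, As, _, hAs, rfl, rfl⟩ | ⟨X, P, _, _, _, hSV, rfl⟩⟩ := h
  · rw [ic_card]
    exact_mod_cast Finset.card_le_card hAs
  · have h1 : S ⊆ (X ×ˢ P.powerset).image fun p => (pd p.2 : ℤ) * p.1 := by
      intro z hz
      obtain ⟨x, hx, s, hs, rfl⟩ := hSV z hz
      exact Finset.mem_image.2 ⟨(x, s), Finset.mem_product.2 ⟨hx, Finset.mem_powerset.2 hs⟩, rfl⟩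
    have h2 := (Finset.card_le_card h1).trans Finset.card_image_le
    rw [Finset.card_product, Finset.card_powerset] at h2
    exact_mod_cast h2

lemma Ty.one_le {T : ℝ} {S : Finset ℤ} {V : ℝ} (h : Ty T S V) : 1 ≤ V := by
  have h1 : (1 : ℝ) ≤ S.card := by exact_mod_cast h.1.card_pos
  exact h1.trans h.card_le

/-- both isoperimetric inequalities -/
theorem isoT (T θ ε : ℝ) (hT : 0 ≤ T) (hθ : 1 / 2 ≤ θ) (hθ1 : θ < 1) (hε : 0 < ε) (hε1 : ε ≤ 1) :
    ∃ C c : ℝ, 0 < C ∧ 0 < c ∧ ∀ (S : Finset ℤ) (V : ℝ), Ty T S V →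
      c * V ^ (1 - ε) * (S.card / V) ^ C ≤ rho θ S := by
  obtain ⟨C₁, c₁, hC₁, hc₁, h1⟩ := isoD2 θ ε hθ hθ1 hε hε1
  obtain ⟨C₂, c₂, hC₂, hc₂, h2⟩ := isoC T θ ε hT (by linarith) hθ1 hε hε1
  refine ⟨max C₁ C₂, min c₁ c₂, lt_max_of_lt_left hC₁, lt_min hc₁ hc₂, ?_⟩
  intro S V hS
  have hV1 := hS.one_le
  have hV0 : 0 < V := by linarith
  have cS : (0 : ℝ) < S.card := by exact_mod_cast hS.1.card_pos
  have hr0 : 0 < S.card / V := by positivity
  have hr1 : S.card / V ≤ 1 := by rw [div_le_one hV0]; exact hS.card_le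
  have hVε : 0 < V ^ (1 - ε) := Real.rpow_pos_of_pos hV0 _
  have key : ∀ c C : ℝ, min c₁ c₂ ≤ c → C ≤ max C₁ C₂ → 0 < c →
      min c₁ c₂ * V ^ (1 - ε) * (S.card / V) ^ (max C₁ C₂) ≤
        c * V ^ (1 - ε) * (S.card / V) ^ C := by
    intro c C hc hC hc0
    refine mul_le_mul (mul_le_mul_of_nonneg_right hc hVε.le) ?_ (by positivity) (by positivity)
    exact Real.rpow_le_rpow_of_exponent_ge hr0 hr1 hC
  obtain ⟨hne, ⟨A, As, hA, hAs, hSA, hVA⟩ | ⟨X, P, hX, hP, hXP, hSV, hVX⟩⟩ := hS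
  · refine (key c₁ C₁ (min_le_left _ _) (le_max_left _ _) hc₁).trans ?_
    have hAsne : As.Nonempty := by
      rw [hSA] at hne
      exact Finset.image_nonempty.1 hne
    have h3 := h1 A hA As hAs hAsne
    rw [hSA, hVA, ic_card]
    exact h3
  · refine (key c₂ C₂ (min_le_right _ _) (le_max_right _ _) hc₂).trans ?_
    have h3 := h2 X P hX hP hXP S hne hSV
    rw [hVX]
    exact h3

/-- the set of the sums `∑ l_i a_i` -/
noncomputable def smz (k : ℕ) (A : Fin k → Finset ℤ) (l : Fin k → ℤ) : Finset ℤ :=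
  (Fintype.piFinset A).image fun f => ∑ i, l i * f i

theorem kfoldD (T : ℝ) (hT : 0 ≤ T) : ∀ (k : ℕ) (ε : ℝ), 0 < ε → ε ≤ 1 → ∃ C c : ℝ, 0 < C ∧ 0 < c ∧
    ∀ (A : Fin k → Finset ℤ) (V : Fin k → ℝ) (l : Fin k → ℤ), (∀ i, Ty T (A i) (V i)) →
      (∀ i, l i ≠ 0) → ∀ B : Finset ℤ, B.Nonempty →
        c * (∏ i, (V i) ^ (1 - ε) * ((A i).card / V i) ^ C) * (B.card : ℝ) ^ (1 - ε) ≤
          ((smz k A l + B).card : ℝ) := by
  intro k
  induction k with
  | zero =>
    intro ε hε _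
    refine ⟨1, 1, one_pos, one_pos, ?_⟩
    intro A V l _ _ B hB
    have h1 : smz 0 A l = {0} := by
      ext z
      simp [smz]
    have cB : (1 : ℝ) ≤ B.card := by exact_mod_cast hB.card_pos
    rw [h1]
    simp only [Finset.univ_eq_empty, Finset.prod_empty, mul_one, one_mul,
      Finset.singleton_add, zero_vadd]
    calc (B.card : ℝ) ^ (1 - ε) ≤ (B.card : ℝ) ^ (1 : ℝ) :=
          Real.rpow_le_rpow_of_exponent_le cB (by linarith)
      _ = _ := Real.rpow_one _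
  | succ k ih =>
    intro ε hε hε1
    obtain ⟨C, c, hC, hc, hk⟩ := ih (ε / 2) (by linarith) (by linarith)
    obtain ⟨C', c', hC', hc', hiso⟩ :=
      isoT T (1 - ε / 2) ε hT (by linarith) (by linarith) hε hε1
    refine ⟨max C C', c' * c ^ (1 - ε / 2), lt_max_of_lt_left hC,
      mul_pos hc' (Real.rpow_pos_of_pos hc _), ?_⟩
    intro A V l hA hl B hB
    have h1 := hk (fun i => A i.succ) (fun i => V i.succ) (fun i => l i.succ) (fun i => hA _)
      (fun i => hl _) B hB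
    have h2 := hiso (A 0) (V 0) (hA 0)
    set S := smz k (fun i => A i.succ) (fun i => l i.succ) + B with hS
    have hSne : S.Nonempty := by
      refine Finset.Nonempty.add ?_ hB
      refine Finset.Nonempty.image ?_ _
      exact Fintype.piFinset_nonempty.2 fun i => (hA _).1
    have h3 := rho_mul_le (1 - ε / 2) (dil (l 0) (A 0)) hSne
    have h4 : rho (1 - ε / 2) (A 0) ≤ rho (1 - ε / 2) (dil (l 0) (A 0)) :=
      rho_dil (by linarith) (hl 0) _
    have h5 : dil (l 0) (A 0) + S ⊆ smz (k + 1) A l + B := by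
      rw [hS, ← add_assoc]
      refine Finset.add_subset_add_right ?_
      intro z hz
      obtain ⟨y, hy, w, hw, rfl⟩ := Finset.mem_add.1 hz
      obtain ⟨a, ha, rfl⟩ := Finset.mem_image.1 hy
      obtain ⟨f, hf, rfl⟩ := Finset.mem_image.1 hw
      refine Finset.mem_image.2 ⟨Fin.cons a f, ?_, ?_⟩
      · rw [Fintype.mem_piFinset] at hf ⊢
        intro i
        refine Fin.cases ?_ ?_ i
        · simpa using ha
        · intro i
          simpa using hf i
      · simp [Fin.sum_univ_succ]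
    have h6 : ((dil (l 0) (A 0) + S).card : ℝ) ≤ ((smz (k + 1) A l + B).card : ℝ) := by
      exact_mod_cast Finset.card_le_card h5
    refine le_trans ?_ (h3.trans h6)
    have hV1 : ∀ i, 1 ≤ V i := fun i => (hA i).one_le
    have hV0 : ∀ i, 0 < V i := fun i => by linarith [hV1 i]
    have cA : ∀ i, (0 : ℝ) < (A i).card := fun i => by exact_mod_cast (hA i).1.card_pos
    have hr0 : ∀ i, 0 < (A i).card / V i := fun i => div_pos (cA i) (hV0 i)
    have hr1 : ∀ i, (A i).card / V i ≤ 1 := fun i => by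
      rw [div_le_one (hV0 i)]; exact (hA i).card_le
    obtain ⟨Q, hQ⟩ : ∃ Q : ℝ, Q = ∏ i : Fin k, (V i.succ) ^ (1 - ε / 2) *
        ((A i.succ).card / V i.succ) ^ C := ⟨_, rfl⟩
    obtain ⟨Q', hQ'⟩ : ∃ Q' : ℝ, Q' = ∏ i : Fin k, (V i.succ) ^ (1 - ε) *
        ((A i.succ).card / V i.succ) ^ (max C C') := ⟨_, rfl⟩
    obtain ⟨b, hb⟩ : ∃ b : ℝ, b = (B.card : ℝ) := ⟨_, rfl⟩
    obtain ⟨s, hs⟩ : ∃ s : ℝ, s = (S.card : ℝ) := ⟨_, rfl⟩
    rw [Fin.prod_univ_succ, ← hQ', ← hb, ← hs]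
    rw [← hQ, ← hb, ← hs] at h1
    have hQ0 : 0 < Q := by
      rw [hQ]
      exact Finset.prod_pos fun i _ => mul_pos (Real.rpow_pos_of_pos (hV0 _) _)
        (Real.rpow_pos_of_pos (hr0 _) _)
    have hQ'0 : 0 < Q' := by
      rw [hQ']
      exact Finset.prod_pos fun i _ => mul_pos (Real.rpow_pos_of_pos (hV0 _) _)
        (Real.rpow_pos_of_pos (hr0 _) _)
    have hb1 : 1 ≤ b := by rw [hb]; exact_mod_cast hB.card_pos
    have hb0 : 0 < b := by linarith
    have h8 : 1 - ε ≤ (1 - ε / 2) * (1 - ε / 2) := by nlinarith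
    have hQQ : Q' ≤ Q ^ (1 - ε / 2) := by
      rw [hQ, hQ', ← Real.finset_prod_rpow _ _ (fun i _ => by
        have := hV0 (Fin.succ i)
        have := hr0 (Fin.succ i)
        positivity)]
      refine Finset.prod_le_prod (fun i _ => by
        have := hV0 (Fin.succ i)
        have := hr0 (Fin.succ i)
        positivity) fun i _ => ?_
      rw [Real.mul_rpow (Real.rpow_nonneg (hV0 _).le _) (Real.rpow_nonneg (hr0 _).le _),
        ← Real.rpow_mul (hV0 _).le, ← Real.rpow_mul (hr0 _).le]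
      refine mul_le_mul (Real.rpow_le_rpow_of_exponent_le (hV1 _) h8) ?_
        (Real.rpow_nonneg (hr0 _).le _) (Real.rpow_nonneg (hV0 _).le _)
      refine Real.rpow_le_rpow_of_exponent_ge (hr0 _) (hr1 _) ?_
      have h9 : C * (1 - ε / 2) ≤ C * 1 := mul_le_mul_of_nonneg_left (by linarith) hC.le
      have h10 := le_max_left C C'
      linarith
    have e1 : c ^ (1 - ε / 2) * Q' * b ^ (1 - ε) ≤ s ^ (1 - ε / 2) := by
      have h7 : (c * Q * b ^ (1 - ε / 2)) ^ (1 - ε / 2) ≤ s ^ (1 - ε / 2) :=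
        Real.rpow_le_rpow (by positivity) h1 (by linarith)
      refine le_trans ?_ h7
      rw [Real.mul_rpow (by positivity) (by positivity), Real.mul_rpow hc.le (by positivity),
        ← Real.rpow_mul hb0.le]
      have h10 : b ^ (1 - ε) ≤ b ^ ((1 - ε / 2) * (1 - ε / 2)) :=
        Real.rpow_le_rpow_of_exponent_le hb1 h8
      exact mul_le_mul (mul_le_mul_of_nonneg_left hQQ (by positivity)) h10 (by positivity)
        (by positivity)
    have hrho0 := rho_nonneg (1 - ε / 2) (A 0)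
    have e2 : c' * ((V 0) ^ (1 - ε) * ((A 0).card / V 0) ^ (max C C')) ≤
        rho (1 - ε / 2) (dil (l 0) (A 0)) := by
      refine le_trans ?_ (h2.trans h4)
      rw [mul_assoc]
      refine mul_le_mul_of_nonneg_left ?_ hc'.le
      refine mul_le_mul_of_nonneg_left ?_ (Real.rpow_nonneg (hV0 0).le _)
      exact Real.rpow_le_rpow_of_exponent_ge (hr0 0) (hr1 0) (le_max_right _ _)
    calc c' * c ^ (1 - ε / 2) * ((V 0) ^ (1 - ε) * ((A 0).card / V 0) ^ (max C C') * Q') *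
          b ^ (1 - ε) =
        (c' * ((V 0) ^ (1 - ε) * ((A 0).card / V 0) ^ (max C C'))) *
          (c ^ (1 - ε / 2) * Q' * b ^ (1 - ε)) := by ring
      _ ≤ rho (1 - ε / 2) (dil (l 0) (A 0)) * s ^ (1 - ε / 2) :=
          mul_le_mul e2 e1 (by positivity) (hrho0.trans h4)

end Pool.Agent.Run7.h386.DL
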