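import Pool.Agent.Run7.h386.DL.Exc
import Pool.Agent.Run7.h386.DL.EnergyA
import Pool.Agent.Run7.h386.GL.Core

/-!
A finite set of integers closed under gcd and lcm is the disjoint union of products of a set and a
cube, and the energies of these pieces.
-/

set_option autoImplicit false

namespace Pool.Agent.Run7.h386.DL

open Finset Pool.Agent.Run7.h386.GL Pool.Agent.Run7.h386.DE
open scoped Classical Pointwise

/-- the prime filters which do not contain `a` -/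
noncomputable def UU (A : Finset ℕ) (a : ℕ) : Finset (Finset ℕ) := (DD A).filter fun D => a ∉ D

variable {A : Finset ℕ}

lemma mem_UU {a : ℕ} {D : Finset ℕ} : D ∈ UU A a ↔ D ∈ DD A ∧ a ∉ D := Finset.mem_filter

lemma UU_idl (A : Finset ℕ) (a : ℕ) : Idl (DD A) (UU A a) :=
  ⟨Finset.filter_subset _ _, fun z hz u hu hzu =>
    mem_UU.2 ⟨hz, fun h => (mem_UU.1 hu).2 ((le_of_lt hzu : z ⊆ u) h)⟩⟩

lemma mx_UU (A : Finset ℕ) (a : ℕ) : mx (UU A a) = ub A a := by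
  ext D
  rw [mem_mx, mem_ub, mem_UU]
  constructor
  · rintro ⟨⟨h1, h2⟩, h3⟩
    refine ⟨h1, h2, fun D' hD' ha' hsub => ?_⟩
    by_contra hne
    exact h3 D' (mem_UU.2 ⟨hD', ha'⟩) (lt_of_le_of_ne hsub fun h => hne h.symm)
  · rintro ⟨h1, h2, h3⟩
    refine ⟨⟨h1, h2⟩, fun z hz hDz => ?_⟩
    have := h3 z (mem_UU.1 hz).1 (mem_UU.1 hz).2 hDz.le
    exact absurd hDz (this ▸ lt_irrefl _)

lemma UU_inj (hA : Lat A) {a b : ℕ} (ha : a ∈ A) (hb : b ∈ A) (h : UU A a = UU A b) : a = b := by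
  refine hA.sep ha hb fun D hD => ?_
  have h1 : D ∈ UU A a ↔ D ∈ UU A b := by rw [h]
  rw [mem_UU, mem_UU] at h1
  constructor
  · intro h2
    by_contra h3
    exact (h1.2 ⟨hD, h3⟩).2 h2
  · intro h2
    by_contra h3
    exact (h1.1 ⟨hD, h3⟩).2 h2

lemma UU_mul_rt (hA : Lat A) {a : ℕ} (ha : a ∈ A) {D : Finset ℕ} (hD : D ∈ ub A a) :
    UU A (a * rt a D) = (UU A a).erase D := by
  obtain ⟨h1, h2, h3⟩ := mem_ub.1 hD
  ext D'
  rw [mem_UU, Finset.mem_erase, mem_UU, mul_rt]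
  constructor
  · rintro ⟨h4, h5⟩
    rw [hA.mem_lcm h4 ha (DD_sub h1 (hA.gcd_mem h1)), hA.gcd_mem_iff h1 h4] at h5
    push Not at h5
    exact ⟨fun h => h5.2 (h ▸ subset_rfl), h4, h5.1⟩
  · rintro ⟨h4, h5, h6⟩
    refine ⟨h5, ?_⟩
    rw [hA.mem_lcm h5 ha (DD_sub h1 (hA.gcd_mem h1)), hA.gcd_mem_iff h1 h5]
    push Not
    exact ⟨h6, fun h => h4 (h3 D' h5 h6 h)⟩

lemma UU_down (hA : Lat A) {v : ℕ} (hv : v ∈ A) {D : Finset ℕ} (hD : D ∈ DD A)
    (hmin : ∀ u ∈ DD A, u < D → u ∈ UU A v) : ∃ a ∈ A, UU A a = insert D (UU A v) := by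
  have hne : A.Nonempty := ⟨v, hv⟩
  set S := A.filter fun b => b ∣ v ∧ b ∉ D with hS
  have hm₀A : A.gcd id ∈ A := gcd_mem_of_closed hne hA.gcd
  have hSne : S.Nonempty := by
    refine ⟨A.gcd id, Finset.mem_filter.2 ⟨hm₀A, Finset.gcd_dvd (f := id) hv, fun h => ?_⟩⟩
    apply (mem_DD hD).2.2
    refine subset_antisymm (DD_sub hD) fun a ha => ?_
    exact mem_of_dvd hD h ha (Finset.gcd_dvd ha)
  have haS : S.lcm id ∈ S := by
    refine lcm_mem_of_closed hSne fun x hx y hy => ?_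
    rw [hS, Finset.mem_filter] at hx hy ⊢
    refine ⟨hA.lcm x hx.1 y hy.1, Nat.lcm_dvd hx.2.1 hy.2.1, ?_⟩
    rw [hA.mem_lcm hD hx.1 hy.1]
    push Not
    exact ⟨hx.2.2, hy.2.2⟩
  obtain ⟨h1, h2, h3⟩ := Finset.mem_filter.1 haS
  refine ⟨S.lcm id, h1, ?_⟩
  ext D'
  rw [mem_UU, Finset.mem_insert, mem_UU]
  constructor
  · rintro ⟨h4, h5⟩
    by_contra hcon
    push Not at hcon
    obtain ⟨h6, h7⟩ := hcon
    have hv' := h7 h4
    have hj' := hA.gcd_mem h4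
    have hjA := DD_sub h4 hj'
    have hjv : D'.gcd id ∣ v := Finset.gcd_dvd (f := id) hv'
    by_cases h8 : D'.gcd id ∈ D
    · have h9 : D' ⊆ D := (hA.gcd_mem_iff h4 hD).1 h8
      exact (mem_UU.1 (hmin D' h4 (lt_of_le_of_ne h9 h6))).2 hv'
    · have h9 : D'.gcd id ∣ S.lcm id :=
        Finset.dvd_lcm (f := id) (Finset.mem_filter.2 ⟨hjA, hjv, h8⟩ : D'.gcd id ∈ S)
      exact h5 (mem_of_dvd h4 hj' h1 h9)
  · rintro (rfl | ⟨h4, h5⟩)
    · exact ⟨hD, h3⟩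
    · exact ⟨h4, fun h6 => h5 (mem_of_dvd h4 h6 hv h2)⟩

/-- the pieces -/
noncomputable def Vp (A : Finset ℕ) (T M : Finset (Finset ℕ)) : Finset ℕ :=
  A.filter fun a => KT (DD A) T (UU A a) = M

/-- their bases -/
noncomputable def Xp (A : Finset ℕ) (T M : Finset (Finset ℕ)) : Finset ℕ :=
  A.filter fun a => KT (DD A) T (UU A a) = M ∧ M ⊆ UU A a

variable {T M : Finset (Finset ℕ)}

lemma mem_Vp {a : ℕ} : a ∈ Vp A T M ↔ a ∈ A ∧ KT (DD A) T (UU A a) = M := Finset.mem_filter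

lemma mem_Xp {a : ℕ} : a ∈ Xp A T M ↔ a ∈ A ∧ KT (DD A) T (UU A a) = M ∧ M ⊆ UU A a :=
  Finset.mem_filter

lemma mem_ub_of {a : ℕ} (h : KT (DD A) T (UU A a) = M) {D : Finset ℕ} (hD : D ∈ M)
    (hDa : D ∈ UU A a) : D ∈ ub A a := by
  rw [← mx_UU]
  exact KT_mx (UU_idl A a) (h ▸ hD) hDa

lemma Xp_ub {a : ℕ} (ha : a ∈ Xp A T M) : M ⊆ ub A a := fun _ hD =>
  mem_ub_of (mem_Xp.1 ha).2.1 hD ((mem_Xp.1 ha).2.2 hD)

lemma step_up (hA : Lat A) {v : ℕ} (hv : v ∈ Vp A T M) {D : Finset ℕ} (hD : D ∈ M)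
    (hDv : D ∈ UU A v) : v * rt v D ∈ Vp A T M ∧ UU A (v * rt v D) = (UU A v).erase D := by
  obtain ⟨h1, h2⟩ := mem_Vp.1 hv
  have h3 := mem_ub_of h2 hD hDv
  have h4 := UU_mul_rt hA h1 h3
  refine ⟨mem_Vp.2 ⟨hA.mul_rt_mem h1 (mem_ub.1 h3).1, ?_⟩, h4⟩
  rw [← h2, h4]
  refine KT_congr fun z _ hzT => ?_
  rw [Finset.mem_erase]
  have hDT : D ∈ T := by
    rw [← h2] at hD
    exact KT_sub hD
  exact ⟨fun h => h.2, fun h => ⟨fun e => hzT (e ▸ hDT), h⟩⟩

lemma up (hA : Lat A) {a : ℕ} (ha : a ∈ Xp A T M) : ∀ s ⊆ M,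
    a * ∏ D ∈ s, rt a D ∈ Vp A T M ∧ UU A (a * ∏ D ∈ s, rt a D) = UU A a \ s := by
  intro s
  obtain ⟨h1, h2, h3⟩ := mem_Xp.1 ha
  induction s using Finset.induction_on with
  | empty =>
    intro _
    rw [Finset.prod_empty, mul_one, Finset.sdiff_empty]
    exact ⟨mem_Vp.2 ⟨h1, h2⟩, rfl⟩
  | insert D s hDs ih =>
    intro hs
    obtain ⟨h4, h5⟩ := ih fun x hx => hs (Finset.mem_insert_of_mem hx)
    have hDM := hs (Finset.mem_insert_self D s)
    have hDv : D ∈ UU A (a * ∏ D ∈ s, rt a D) := by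
      rw [h5]
      exact Finset.mem_sdiff.2 ⟨h3 hDM, hDs⟩
    obtain ⟨h6, h7⟩ := step_up hA h4 hDM hDv
    have h8 : rt (a * ∏ D ∈ s, rt a D) D = rt a D :=
      hA.rt_indep (mem_Vp.1 h4).1 h1 (mem_ub_of (mem_Vp.1 h4).2 hDM hDv) (Xp_ub ha hDM)
    rw [h8] at h6 h7
    have e : a * ∏ D ∈ insert D s, rt a D = a * (∏ D ∈ s, rt a D) * rt a D := by
      rw [Finset.prod_insert hDs]; ring
    rw [e]
    refine ⟨h6, ?_⟩
    rw [h7, h5]
    ext z
    simp only [Finset.mem_erase, Finset.mem_sdiff, Finset.mem_insert, not_or]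
    tauto

lemma down (hA : Lat A) (hT : T ⊆ DD A) : ∀ (n : ℕ) (v : ℕ), v ∈ Vp A T M → (M \ UU A v).card = n →
    ∃ a ∈ Xp A T M, v = a * ∏ D ∈ M \ UU A v, rt a D := by
  intro n
  induction n with
  | zero =>
    intro v hv hc
    have h1 : M \ UU A v = ∅ := Finset.card_eq_zero.1 hc
    refine ⟨v, mem_Xp.2 ⟨(mem_Vp.1 hv).1, (mem_Vp.1 hv).2, Finset.sdiff_eq_empty_iff_subset.1 h1⟩, ?_⟩
    rw [h1, Finset.prod_empty, mul_one]
  | succ n ih =>
    intro v hv hc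
    obtain ⟨hvA, hvK⟩ := mem_Vp.1 hv
    obtain ⟨D, hD⟩ : (M \ UU A v).Nonempty := Finset.card_pos.1 (by omega)
    obtain ⟨hDM, hDv⟩ := Finset.mem_sdiff.1 hD
    have hDK : D ∈ KT (DD A) T (UU A v) := hvK.symm ▸ hDM
    have hDT : D ∈ T := KT_sub hDK
    have hDD : D ∈ DD A := hT hDT
    obtain ⟨v', hv'A, hv'U⟩ := UU_down hA hvA hDD fun u hu huD => KT_lower (UU_idl A v) hDK hDv hu huD
    have hv'K : KT (DD A) T (UU A v') = M := by
      rw [← hvK, hv'U]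
      refine KT_congr fun z _ hzT => ?_
      rw [Finset.mem_insert]
      exact ⟨fun h => h.resolve_left fun e => hzT (e ▸ hDT), fun h => Or.inr h⟩
    have hv'V : v' ∈ Vp A T M := mem_Vp.2 ⟨hv'A, hv'K⟩
    have hMU : M \ UU A v' = (M \ UU A v).erase D := by
      rw [hv'U]
      ext z
      simp only [Finset.mem_erase, Finset.mem_sdiff, Finset.mem_insert, not_or]
      tauto
    obtain ⟨a, ha, hva⟩ := ih v' hv'V (by rw [hMU, Finset.card_erase_of_mem hD, hc]; rfl)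
    refine ⟨a, ha, ?_⟩
    have hDv' : D ∈ UU A v' := by rw [hv'U]; exact Finset.mem_insert_self _ _
    obtain ⟨h1, h2⟩ := step_up hA hv'V hDM hDv'
    have h3 : v = v' * rt v' D := by
      refine UU_inj hA hvA (mem_Vp.1 h1).1 ?_
      rw [h2, hv'U, Finset.erase_insert hDv]
    have h4 : rt v' D = rt a D :=
      hA.rt_indep hv'A (mem_Xp.1 ha).1 (mem_ub_of hv'K hDM hDv') (Xp_ub ha hDM)
    rw [← Finset.mul_prod_erase _ _ hD, ← hMU]
    calc v = v' * rt v' D := h3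
      _ = (a * ∏ D ∈ M \ UU A v', rt a D) * rt a D := by rw [h4, ← hva]
      _ = _ := by ring

/-- the structure of the pieces -/
theorem pieces (hA : Lat A) (hT : T ⊆ DD A) (hne : (Vp A T M).Nonempty) :
    ∃ X P : Finset ℕ, X.Nonempty ∧ Ad P ∧ P.card = M.card ∧
      (∀ v ∈ Vp A T M, ∃ a ∈ X, ∃ s ⊆ P, v = pd s * a) ∧
      (∀ a ∈ X, ∀ s ⊆ P, pd s * a ∈ Vp A T M) ∧ X.card * 2 ^ M.card ≤ (Vp A T M).card := by
  obtain ⟨v₀, hv₀⟩ := hne
  obtain ⟨a₀, ha₀, _⟩ := down hA hT _ v₀ hv₀ rfl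
  have hM0 := Xp_ub ha₀
  have ha₀A := (mem_Xp.1 ha₀).1
  have hinj : Set.InjOn (rt a₀) (M : Set (Finset ℕ)) := by
    intro D hD D' hD' h
    by_contra hne
    have h1 := hA.rt_coprime ha₀A (hM0 hD) (hM0 hD') hne
    rw [h, Nat.coprime_self] at h1
    have h2 := hA.two_le_rt ha₀A (hM0 hD')
    omega
  have hrt : ∀ a ∈ Xp A T M, ∀ D ∈ M, rt a D = rt a₀ D := fun a ha D hD =>
    hA.rt_indep (mem_Xp.1 ha).1 ha₀A (Xp_ub ha hD) (hM0 hD)
  have hpd : ∀ s ⊆ M, pd (s.image (rt a₀)) = ∏ D ∈ s, rt a₀ D := by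
    intro s hs
    unfold pd
    rw [Finset.prod_image]
    intro D hD D' hD' h
    exact hinj (hs hD) (hs hD') h
  refine ⟨Xp A T M, M.image (rt a₀), ⟨a₀, ha₀⟩, ⟨?_, ?_⟩, Finset.card_image_of_injOn hinj, ?_, ?_, ?_⟩
  · intro m hm
    obtain ⟨D, hD, rfl⟩ := Finset.mem_image.1 hm
    exact hA.two_le_rt ha₀A (hM0 hD)
  · intro m hm m' hm' hne
    obtain ⟨D, hD, rfl⟩ := Finset.mem_image.1 hm
    obtain ⟨D', hD', rfl⟩ := Finset.mem_image.1 hm'
    exact hA.rt_coprime ha₀A (hM0 hD) (hM0 hD') fun h => hne (by rw [h])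
  · intro v hv
    obtain ⟨a, ha, hva⟩ := down hA hT _ v hv rfl
    refine ⟨a, ha, (M \ UU A v).image (rt a₀), Finset.image_subset_image Finset.sdiff_subset, ?_⟩
    rw [hpd _ Finset.sdiff_subset, mul_comm]
    rw [Finset.prod_congr rfl fun D hD => hrt a ha D (Finset.mem_sdiff.1 hD).1] at hva
    exact hva
  · intro a ha s hs
    obtain ⟨s', hs', rfl⟩ := Finset.subset_image_iff.1 hs
    have hs'' : s' ⊆ M := fun x hx => hs' hx
    rw [hpd s' hs'', mul_comm, ← Finset.prod_congr rfl fun D hD => hrt a ha D (hs'' hD)]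
    exact (up hA ha s' hs'').1
  · rw [← Finset.card_powerset, ← Finset.card_product]
    refine Finset.card_le_card_of_injOn (fun p => p.1 * ∏ D ∈ p.2, rt p.1 D) ?_ ?_
    · rintro ⟨a, s⟩ hp
      rw [Finset.mem_coe, Finset.mem_product, Finset.mem_powerset] at hp
      exact (up hA hp.1 s hp.2).1
    · rintro ⟨a, s⟩ hp ⟨a', s'⟩ hp' h
      rw [Finset.mem_coe, Finset.mem_product, Finset.mem_powerset] at hp hp'
      simp only at hp hp' h
      have h1 := (up hA hp.1 s hp.2).2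
      have h2 := (up hA hp'.1 s' hp'.2).2
      rw [h, h2] at h1
      have h3 := (mem_Xp.1 hp.1).2.2
      have h4 := (mem_Xp.1 hp'.1).2.2
      have e1 : s = s' := by
        ext D
        have h5 : D ∈ UU A a' \ s' ↔ D ∈ UU A a \ s := by rw [h1]
        rw [Finset.mem_sdiff, Finset.mem_sdiff] at h5
        constructor
        · intro h6
          by_contra h7
          exact (h5.1 ⟨h4 (hp.2 h6), h7⟩).2 h6
        · intro h6
          by_contra h7
          exact (h5.2 ⟨h3 (hp'.2 h6), h7⟩).2 h6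
      have e2 : a = a' := by
        refine UU_inj hA (mem_Xp.1 hp.1).1 (mem_Xp.1 hp'.1).1 ?_
        rw [← Finset.sdiff_union_of_subset (hp.2.trans h3), ← h1, e1,
          Finset.sdiff_union_of_subset (hp'.2.trans h4)]
      rw [e1, e2]

/-- the energy of a piece -/
theorem piece_energy {α δ θ C : ℝ} (hα : 0 < α) (hδ : 0 < δ) (hθ : 0 ≤ θ) (hC : 0 ≤ C)
    (hen : ∀ P : Finset ℕ, Ad P → ∀ X B : Finset ℤ, X.Nonempty → B.Nonempty →
        θ * Real.log (X.card * B.card) ≤ P.card →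
        TS α (mul P) X B ≤ C * (mul P).card * ((X.card : ℝ) * B.card) ^ (1 + α * δ))
    (hA : Lat A) (hT : T ⊆ DD A) (hne : (Vp A T M).Nonempty) {B : Finset ℤ} (hB : B.Nonempty)
    (hlog : θ * Real.log ((Vp A T M).card * B.card) ≤ M.card) :
    NE α 1 (ic (Vp A T M) ×ˢ B) ≤
      (2 : ℝ) ^ (α * M.card) * C * (((Vp A T M).card : ℝ) * B.card) ^ (1 + α * δ) := by
  obtain ⟨X, P, hX, hP, hPc, h1, h2, h3⟩ := pieces hA hT hne
  have cX : (1 : ℝ) ≤ X.card := by exact_mod_cast hX.card_pos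
  have cB : (1 : ℝ) ≤ B.card := by exact_mod_cast hB.card_pos
  have hXV : (X.card : ℝ) * 2 ^ M.card ≤ (Vp A T M).card := by exact_mod_cast h3
  have h2M : (1 : ℝ) ≤ 2 ^ M.card := one_le_pow₀ (by norm_num)
  have hXV' : (X.card : ℝ) ≤ (Vp A T M).card := by nlinarith
  have hen1 := hen P hP (ic X) B (ic_nonempty hX) hB (by
    rw [ic_card, hPc]
    refine le_trans (mul_le_mul_of_nonneg_left ?_ hθ) hlog
    refine Real.log_le_log (by positivity) ?_
    exact mul_le_mul_of_nonneg_right hXV' (by positivity))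
  rw [ic_card, card_mul hP, hPc] at hen1
  have h4 := NE_sum_le hα.le (t := 1) (W := ic (Vp A T M) ×ˢ B) P.powerset
    (fun s => ((ic X).image fun x => ((pd s : ℕ) : ℤ) * x) ×ˢ B) (by
      intro y hy
      obtain ⟨h5, h6⟩ := Finset.mem_product.1 hy
      obtain ⟨v, hv, hvy⟩ := Finset.mem_image.1 h5
      obtain ⟨a, ha, s, hs, hva⟩ := h1 v hv
      refine ⟨s, Finset.mem_powerset.2 hs, Finset.mem_product.2 ⟨?_, h6⟩⟩
      refine Finset.mem_image.2 ⟨(a : ℤ), Finset.mem_image_of_mem _ ha, ?_⟩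
      rw [← hvy, hva]
      push_cast
      rfl) (by
      intro s hs
      refine Finset.product_subset_product ?_ subset_rfl
      intro z hz
      obtain ⟨x, hx, rfl⟩ := Finset.mem_image.1 hz
      obtain ⟨a, ha, rfl⟩ := Finset.mem_image.1 hx
      refine Finset.mem_image.2 ⟨pd s * a, h2 a ha s (Finset.mem_powerset.1 hs), ?_⟩
      push_cast
      rfl)
  have h5 : ∑ s ∈ P.powerset, NE α 1 (((ic X).image fun x => ((pd s : ℕ) : ℤ) * x) ×ˢ B) =
      TS α (mul P) (ic X) B := by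
    unfold TS
    rw [sum_mul_eq hP fun t => NE α (t : ℤ) (ic X ×ˢ B)]
    refine Finset.sum_congr rfl fun s hs => ?_
    rw [← NE_mul, one_mul]
    have := pd_pos hP (Finset.mem_powerset.1 hs)
    exact_mod_cast this.ne'
  rw [h5, Finset.card_powerset, hPc] at h4
  refine h4.trans ?_
  have e1 : (((2 ^ M.card : ℕ) : ℝ)) ^ α = (2 : ℝ) ^ (α * M.card) := by
    push_cast
    rw [← Real.rpow_natCast, ← Real.rpow_mul (by norm_num), mul_comm]
  rw [e1, mul_assoc]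
  refine mul_le_mul_of_nonneg_left ?_ (by positivity)
  refine hen1.trans ?_
  rw [mul_assoc]
  refine mul_le_mul_of_nonneg_left ?_ hC
  have e2 : ((Vp A T M).card : ℝ) * B.card = ((Vp A T M).card : ℝ) * B.card := rfl
  calc ((2 ^ M.card : ℕ) : ℝ) * ((X.card : ℝ) * B.card) ^ (1 + α * δ) ≤
      ((2 : ℝ) ^ M.card) ^ (1 + α * δ) * ((X.card : ℝ) * B.card) ^ (1 + α * δ) := by
        refine mul_le_mul_of_nonneg_right ?_ (by positivity)
        push_cast
        calc (2 : ℝ) ^ M.card = ((2 : ℝ) ^ M.card) ^ (1 : ℝ) := (Real.rpow_one _).symm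
          _ ≤ _ := Real.rpow_le_rpow_of_exponent_le h2M (by
              have : 0 ≤ α * δ := by positivity
              linarith)
    _ = ((2 : ℝ) ^ M.card * ((X.card : ℝ) * B.card)) ^ (1 + α * δ) :=
        (Real.mul_rpow (by positivity) (by positivity)).symm
    _ ≤ _ := by
        refine Real.rpow_le_rpow (by positivity) ?_ (by
          have : 0 ≤ α * δ := by positivity
          linarith)
        calc (2 : ℝ) ^ M.card * ((X.card : ℝ) * B.card) = (X.card : ℝ) * 2 ^ M.card * B.card := by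
              ring
          _ ≤ _ := mul_le_mul_of_nonneg_right hXV (by positivity)

/-- sums with subsets of a piece -/
theorem piece_sum {α δ θ C : ℝ} (hα : 0 < α) (hδ : 0 < δ) (hθ : 0 ≤ θ) (hC : 0 ≤ C)
    (hen : ∀ P : Finset ℕ, Ad P → ∀ X B : Finset ℤ, X.Nonempty → B.Nonempty →
        θ * Real.log (X.card * B.card) ≤ P.card →
        TS α (mul P) X B ≤ C * (mul P).card * ((X.card : ℝ) * B.card) ^ (1 + α * δ))
    (hA : Lat A) (hT : T ⊆ DD A) (hne : (Vp A T M).Nonempty) {B : Finset ℤ} (hB : B.Nonempty)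
    (hlog : θ * Real.log ((Vp A T M).card * B.card) ≤ M.card) {S : Finset ℕ}
    (hS : S ⊆ Vp A T M) :
    ((S.card : ℝ) * B.card) ^ (1 + α) ≤ ((ic S + B).card : ℝ) ^ α *
      ((2 : ℝ) ^ (α * M.card) * C * (((Vp A T M).card : ℝ) * B.card) ^ (1 + α * δ)) := by
  have h1 := piece_energy hα hδ hθ hC hen hA hT hne hB hlog
  have h2 := NE_holder hα.le 1 (ic S ×ˢ B)
  have h3 : (ic S ×ˢ B).image (ph 1) = ic S + B := by
    ext z
    rw [Finset.mem_image, Finset.mem_add]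
    constructor
    · rintro ⟨y, hy, rfl⟩
      obtain ⟨h4, h5⟩ := Finset.mem_product.1 hy
      exact ⟨y.1, h4, y.2, h5, by simp [ph]⟩
    · rintro ⟨a, ha, b, hb, rfl⟩
      exact ⟨(a, b), Finset.mem_product.2 ⟨ha, hb⟩, by simp [ph]⟩
  have h4 : NE α 1 (ic S ×ˢ B) ≤ NE α 1 (ic (Vp A T M) ×ˢ B) :=
    NE_mono hα.le (Finset.product_subset_product (ic_mono hS) subset_rfl)
  rw [h3, Finset.card_product, ic_card] at h2
  push_cast at h2
  refine h2.trans (mul_le_mul_of_nonneg_left (h4.trans h1) (by positivity))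

end Pool.Agent.Run7.h386.DL
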