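import Mathlib

/-!
Down-closed subsets of a finite partially ordered set `J`. Given `T ⊆ J`, the elements of `T` whose
membership in a down-closed set `I` is not decided by the rest of `I` and which are comparable to
no other such element form the set `KT J T I`. It is large for a random `T`, with the exception of
few sets `I`.
-/

set_option autoImplicit false

namespace Pool.Agent.Run7.h386.DL

open Finset
open scoped Classical

variable {β : Type*} [PartialOrder β] [DecidableEq β]

/-- down-closed subsets -/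
def Idl (J I : Finset β) : Prop := I ⊆ J ∧ ∀ z ∈ J, ∀ u ∈ I, z < u → z ∈ I

/-- the maximal elements -/
noncomputable def mx (I : Finset β) : Finset β := I.filter fun t => ∀ z ∈ I, ¬ t < z

/-- the obstructions below -/
noncomputable def ob (J I : Finset β) (u : β) : Finset β := J.filter fun z => z < u ∧ z ∉ I

/-- the obstructions above -/
noncomputable def oa (I : Finset β) (u : β) : Finset β := I.filter fun z => u < z

/-- the elements of `T` which are not decided by the rest -/
noncomputable def FF (J T I : Finset β) : Finset β :=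
  T.filter fun t => (∀ z ∈ J, z < t → z ∉ T → z ∈ I) ∧ (∀ z ∈ J, t < z → z ∉ T → z ∉ I)

/-- the isolated ones -/
noncomputable def KT (J T I : Finset β) : Finset β :=
  (FF J T I).filter fun t => ∀ u ∈ FF J T I, ¬ u < t ∧ ¬ t < u

lemma mem_FF {J T I : Finset β} {t : β} : t ∈ FF J T I ↔ t ∈ T ∧
    (∀ z ∈ J, z < t → z ∉ T → z ∈ I) ∧ (∀ z ∈ J, t < z → z ∉ T → z ∉ I) := by
  simp only [FF, Finset.mem_filter]

lemma mem_KT {J T I : Finset β} {t : β} : t ∈ KT J T I ↔ t ∈ FF J T I ∧
    ∀ u ∈ FF J T I, ¬ u < t ∧ ¬ t < u := by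
  simp only [KT, Finset.mem_filter]

lemma mem_mx {I : Finset β} {t : β} : t ∈ mx I ↔ t ∈ I ∧ ∀ z ∈ I, ¬ t < z := by
  simp only [mx, Finset.mem_filter]

lemma mem_ob {J I : Finset β} {u z : β} : z ∈ ob J I u ↔ z ∈ J ∧ z < u ∧ z ∉ I := by
  simp only [ob, Finset.mem_filter]

lemma mem_oa {I : Finset β} {u z : β} : z ∈ oa I u ↔ z ∈ I ∧ u < z := by
  simp only [oa, Finset.mem_filter]

lemma KT_sub {J T I : Finset β} : KT J T I ⊆ T := fun _ ht => (mem_FF.1 (mem_KT.1 ht).1).1

lemma FF_congr {J T I I' : Finset β} (h : ∀ z ∈ J, z ∉ T → (z ∈ I ↔ z ∈ I')) :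
    FF J T I = FF J T I' := by
  ext t
  rw [mem_FF, mem_FF]
  constructor
  · rintro ⟨h1, h2, h3⟩
    exact ⟨h1, fun z hz h4 h5 => (h z hz h5).1 (h2 z hz h4 h5),
      fun z hz h4 h5 h6 => h3 z hz h4 h5 ((h z hz h5).2 h6)⟩
  · rintro ⟨h1, h2, h3⟩
    exact ⟨h1, fun z hz h4 h5 => (h z hz h5).2 (h2 z hz h4 h5),
      fun z hz h4 h5 h6 => h3 z hz h4 h5 ((h z hz h5).1 h6)⟩

lemma KT_congr {J T I I' : Finset β} (h : ∀ z ∈ J, z ∉ T → (z ∈ I ↔ z ∈ I')) :
    KT J T I = KT J T I' := by
  ext t
  rw [mem_KT, mem_KT, FF_congr h]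

lemma KT_mx {J T I : Finset β} (hI : Idl J I) {t : β} (ht : t ∈ KT J T I)
    (htI : t ∈ I) : t ∈ mx I := by
  obtain ⟨h1, h2⟩ := mem_KT.1 ht
  obtain ⟨h3, h4, h5⟩ := mem_FF.1 h1
  rw [mem_mx]
  refine ⟨htI, fun z hz htz => ?_⟩
  obtain ⟨z', hz1, hz2⟩ := Finset.exists_le_maximal I hz
  have h6 : t < z' := lt_of_lt_of_le htz hz1
  have h7 : z' ∈ I := hz2.1
  have h8 : z' ∈ T := by
    by_contra h
    exact h5 z' (hI.1 h7) h6 h h7
  refine (h2 z' (mem_FF.2 ⟨h8, fun y hy hyz _ => hI.2 y hy z' h7 hyz, ?_⟩)).2 h6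
  intro y _ hzy _ hyI
  exact absurd (hz2.2 hyI hzy.le) (not_le_of_gt hzy)

lemma KT_lower {J T I : Finset β} (hI : Idl J I) {t : β} (ht : t ∈ KT J T I)
    (htI : t ∉ I) {u : β} (hu : u ∈ J) (hut : u < t) : u ∈ I := by
  obtain ⟨h1, h2⟩ := mem_KT.1 ht
  obtain ⟨h3, h4, h5⟩ := mem_FF.1 h1
  by_contra huI
  obtain ⟨z, hz1, hz2⟩ := Finset.exists_le_minimal (J.filter fun y => y ∉ I)
    (Finset.mem_filter.2 ⟨hu, huI⟩)
  have h6 : z < t := lt_of_le_of_lt hz1 hut
  obtain ⟨h7, h8⟩ := Finset.mem_filter.1 hz2.1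
  have h9 : z ∈ T := by
    by_contra h
    exact h8 (h4 z h7 h6 h)
  refine (h2 z (mem_FF.2 ⟨h9, ?_, ?_⟩)).1 h6
  · intro y hy hyz _
    by_contra hyI
    exact absurd (hz2.2 (Finset.mem_filter.2 ⟨hy, hyI⟩) hyz.le) (not_le_of_gt hyz)
  · intro y _ hzy _ hyI
    exact h8 (hI.2 z h7 y hyI hzy)

lemma Idl.erase {J I : Finset β} (hI : Idl J I) {t : β} (ht : t ∈ mx I) : Idl J (I.erase t) := by
  refine ⟨(Finset.erase_subset _ _).trans hI.1, fun z hz u hu hzu => ?_⟩
  rw [Finset.mem_erase] at hu ⊢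
  refine ⟨?_, hI.2 z hz u hu.2 hzu⟩
  rintro rfl
  exact (mem_mx.1 ht).2 u hu.2 hzu

lemma Idl.insert {J I : Finset β} (hI : Idl J I) {t : β} (ht : t ∈ J)
    (h : ∀ u ∈ J, u < t → u ∈ I) : Idl J (insert t I) := by
  refine ⟨Finset.insert_subset ht hI.1, fun z hz u hu hzu => ?_⟩
  rw [Finset.mem_insert] at hu ⊢
  rcases hu with rfl | hu
  · exact Or.inr (h z hz hzu)
  · exact Or.inr (hI.2 z hz u hu hzu)

lemma crit {J T I : Finset β} (hI : Idl J I) {t : β} (ht : t ∈ mx I) (htT : t ∈ T)
    (h1 : ∀ u ∈ J, t < u → ¬ insert u (ob J I u) ⊆ T)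
    (h2 : ∀ u ∈ J, u < t → ¬ insert u (oa I u) ⊆ T) (hTJ : T ⊆ J) : t ∈ KT J T I := by
  obtain ⟨htI, htm⟩ := mem_mx.1 ht
  rw [mem_KT]
  refine ⟨mem_FF.2 ⟨htT, fun z hz hzt _ => hI.2 z hz t htI hzt, fun z _ htz _ hzI => htm z hzI htz⟩,
    fun u hu => ?_⟩
  obtain ⟨h3, h4, h5⟩ := mem_FF.1 hu
  constructor
  · intro hut
    refine h2 u (hTJ h3) hut (Finset.insert_subset h3 fun z hz => ?_)
    rw [mem_oa] at hz
    by_contra hzT
    exact h5 z (hI.1 hz.1) hz.2 hzT hz.1
  · intro htu
    refine h1 u (hTJ h3) htu (Finset.insert_subset h3 fun z hz => ?_)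
    rw [mem_ob] at hz
    by_contra hzT
    exact hz.2.2 (h4 z hz.1 hz.2.1 hzT)

/-- the indicator function -/
noncomputable def ind (S T : Finset β) : ℝ := if S ⊆ T then 1 else 0

omit [PartialOrder β] in
lemma ind_nonneg (S T : Finset β) : 0 ≤ ind S T := by
  unfold ind; split_ifs <;> norm_num

omit [PartialOrder β] in
lemma ind_le_one (S T : Finset β) : ind S T ≤ 1 := by
  unfold ind; split_ifs <;> norm_num

omit [PartialOrder β] in
lemma ind_of {S T : Finset β} (h : S ⊆ T) : ind S T = 1 := by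
  unfold ind; rw [if_pos h]

omit [PartialOrder β] in
lemma ind_of_not {S T : Finset β} (h : ¬ S ⊆ T) : ind S T = 0 := by
  unfold ind; rw [if_neg h]

lemma KT_ge {J T I : Finset β} (hI : Idl J I) (hTJ : T ⊆ J) {G : Finset β} (hG : G ⊆ mx I) :
    ∑ t ∈ G, (ind {t} T - ∑ u ∈ J.filter (fun u => t < u), ind (insert t (insert u (ob J I u))) T -
      ∑ u ∈ J.filter (fun u => u < t), ind (insert u (oa I u)) T) ≤ ((KT J T I).card : ℝ) := by
  have h1 : ((KT J T I).card : ℝ) ≥ ∑ t ∈ G, (if t ∈ KT J T I then (1 : ℝ) else 0) := by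
    rw [← Finset.sum_filter, Finset.sum_const, nsmul_eq_mul, mul_one]
    have : (G.filter fun t => t ∈ KT J T I).card ≤ (KT J T I).card :=
      Finset.card_le_card fun t ht => (Finset.mem_filter.1 ht).2
    exact_mod_cast this
  refine le_trans (Finset.sum_le_sum fun t ht => ?_) h1
  have n1 : 0 ≤ ∑ u ∈ J.filter (fun u => t < u), ind (insert t (insert u (ob J I u))) T :=
    Finset.sum_nonneg fun _ _ => ind_nonneg _ _
  have n2 : 0 ≤ ∑ u ∈ J.filter (fun u => u < t), ind (insert u (oa I u)) T :=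
    Finset.sum_nonneg fun _ _ => ind_nonneg _ _
  have n3 := ind_le_one {t} T
  split_ifs with hK
  · linarith
  · by_cases htT : t ∈ T
    swap
    · have : ind {t} T = 0 := ind_of_not fun h => htT (Finset.singleton_subset_iff.1 h)
      linarith
    by_contra hcon
    push Not at hcon
    apply hK
    refine crit hI (hG ht) htT ?_ ?_ hTJ
    · intro u hu htu hsub
      have h2 : ind (insert t (insert u (ob J I u))) T ≤
          ∑ u ∈ J.filter (fun u => t < u), ind (insert t (insert u (ob J I u))) T :=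
        Finset.single_le_sum (f := fun u => ind (insert t (insert u (ob J I u))) T)
          (fun _ _ => ind_nonneg _ _) (Finset.mem_filter.2 ⟨hu, htu⟩)
      rw [ind_of (Finset.insert_subset htT hsub)] at h2
      linarith
    · intro u hu hut hsub
      have h2 : ind (insert u (oa I u)) T ≤
          ∑ u ∈ J.filter (fun u => u < t), ind (insert u (oa I u)) T :=
        Finset.single_le_sum (f := fun u => ind (insert u (oa I u)) T)
          (fun _ _ => ind_nonneg _ _) (Finset.mem_filter.2 ⟨hu, hut⟩)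
      rw [ind_of hsub] at h2
      linarith

/-- the number of the supersets -/
lemma card_super {J S : Finset β} (hS : S ⊆ J) {h : ℕ} (hh : S.card ≤ h) :
    ((J.powersetCard h).filter fun T => S ⊆ T).card = (J.card - S.card).choose (h - S.card) := by
  rw [← Finset.card_sdiff_of_subset hS, ← Finset.card_powersetCard]
  refine Finset.card_nbij' (fun T => T \ S) (fun T => T ∪ S) ?_ ?_ ?_ ?_
  · intro T hT
    rw [Finset.mem_coe, Finset.mem_filter, Finset.mem_powersetCard] at hT
    rw [Finset.mem_coe, Finset.mem_powersetCard]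
    exact ⟨Finset.sdiff_subset_sdiff hT.1.1 subset_rfl, by
      rw [Finset.card_sdiff_of_subset hT.2, hT.1.2]⟩
  · intro T hT
    rw [Finset.mem_coe, Finset.mem_powersetCard] at hT
    rw [Finset.mem_coe, Finset.mem_filter, Finset.mem_powersetCard]
    have hd : Disjoint T S := Finset.disjoint_left.2 fun z hz hzS =>
      (Finset.mem_sdiff.1 (hT.1 hz)).2 hzS
    refine ⟨⟨Finset.union_subset (hT.1.trans Finset.sdiff_subset) hS, ?_⟩,
      Finset.subset_union_right⟩
    rw [Finset.card_union_of_disjoint hd, hT.2]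
    omega
  · intro T hT
    rw [Finset.mem_coe, Finset.mem_filter] at hT
    exact Finset.sdiff_union_of_subset hT.2
  · intro T hT
    rw [Finset.mem_coe, Finset.mem_powersetCard] at hT
    have hd : Disjoint T S := Finset.disjoint_left.2 fun z hz hzS =>
      (Finset.mem_sdiff.1 (hT.1 hz)).2 hzS
    exact Finset.union_sdiff_cancel_right hd

lemma choose_ratio {n h : ℕ} (hn : h ≤ n) : ∀ s ≤ h,
    (n - s).choose (h - s) * n ^ s ≤ h ^ s * n.choose h := by
  intro s
  induction s with
  | zero => intro _; simp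
  | succ s ih =>
    intro hs
    have h1 := ih (by omega)
    rcases Nat.eq_zero_or_pos (n - s) with h0 | h0
    · omega
    have h2 := Nat.add_one_mul_choose_eq (n - (s + 1)) (h - (s + 1))
    have e1 : n - (s + 1) + 1 = n - s := by omega
    have e2 : h - (s + 1) + 1 = h - s := by omega
    rw [e1, e2] at h2
    have h3 : n * (h - s) ≤ h * (n - s) := by
      zify [show s ≤ h by omega, show s ≤ n by omega]
      have : (h : ℤ) * s ≤ n * s := by
        have : (h : ℤ) ≤ n := by exact_mod_cast hn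
        exact mul_le_mul_of_nonneg_right this (by positivity)
      nlinarith
    have h4 : (n - s) * ((n - (s + 1)).choose (h - (s + 1)) * n ^ (s + 1)) ≤
        (n - s) * (h ^ (s + 1) * n.choose h) := by
      calc (n - s) * ((n - (s + 1)).choose (h - (s + 1)) * n ^ (s + 1)) =
          ((n - s) * (n - (s + 1)).choose (h - (s + 1))) * (n * n ^ s) := by ring
        _ = (n - s).choose (h - s) * n ^ s * (n * (h - s)) := by rw [h2]; ring
        _ ≤ h ^ s * n.choose h * (h * (n - s)) := Nat.mul_le_mul h1 h3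
        _ = _ := by ring
    exact Nat.le_of_mul_le_mul_left h4 h0

omit [PartialOrder β] in
lemma sum_ind {J S : Finset β} (h : ℕ) : ∑ T ∈ J.powersetCard h, ind S T =
    (((J.powersetCard h).filter fun T => S ⊆ T).card : ℝ) := by
  unfold ind
  rw [← Finset.sum_filter, Finset.sum_const, nsmul_eq_mul, mul_one]

lemma sum_ind_le {J S : Finset β} (hS : S ⊆ J) {h : ℕ} (hh : h ≤ J.card) (hJ : 0 < J.card)
    {x : ℝ} (hx : x = (h : ℝ) / J.card) :
    ∑ T ∈ J.powersetCard h, ind S T ≤ x ^ S.card * (J.card.choose h : ℝ) := by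
  rw [sum_ind]
  have hJ0 : (0 : ℝ) < J.card := by exact_mod_cast hJ
  have hx0 : 0 ≤ x := by rw [hx]; positivity
  by_cases hc : S.card ≤ h
  · rw [card_super hS hc, hx, div_pow, div_mul_eq_mul_div, le_div_iff₀ (by positivity)]
    exact_mod_cast choose_ratio hh _ hc
  · have : (J.powersetCard h).filter (fun T => S ⊆ T) = ∅ := by
      rw [Finset.filter_eq_empty_iff]
      intro T hT hST
      have h1 := Finset.card_le_card hST
      rw [(Finset.mem_powersetCard.1 hT).2] at h1
      exact hc h1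
    rw [this, Finset.card_empty, Nat.cast_zero]
    positivity

lemma sum_ind_one {J : Finset β} {t : β} (ht : t ∈ J) {h : ℕ} (hh : h ≤ J.card) (h1 : 1 ≤ h)
    {x : ℝ} (hx : x = (h : ℝ) / J.card) :
    ∑ T ∈ J.powersetCard h, ind {t} T = x * (J.card.choose h : ℝ) := by
  have hJ : 0 < J.card := Finset.card_pos.2 ⟨t, ht⟩
  have hJ0 : (0 : ℝ) < J.card := by exact_mod_cast hJ
  rw [sum_ind, card_super (Finset.singleton_subset_iff.2 ht) (by rw [Finset.card_singleton]; exact h1),
    Finset.card_singleton, hx, div_mul_eq_mul_div, eq_div_iff hJ0.ne']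
  have h2 := Nat.add_one_mul_choose_eq (J.card - 1) (h - 1)
  have e1 : J.card - 1 + 1 = J.card := by omega
  have e2 : h - 1 + 1 = h := by omega
  rw [e1, e2] at h2
  have h3 : ((J.card : ℝ)) * ((J.card - 1).choose (h - 1) : ℝ) = (J.card.choose h : ℝ) * h := by
    exact_mod_cast h2
  linarith

lemma kx {x : ℝ} (hx0 : 0 ≤ x) (hx : x ≤ 1 / 2) (k : ℕ) : (k : ℝ) * x ^ k ≤ x := by
  induction k with
  | zero => simpa using hx0
  | succ k ih =>
    rcases Nat.eq_zero_or_pos k with h | h
    · subst h; simp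
    · have h1 : x ^ k ≤ 1 / 2 := by
        calc x ^ k ≤ x ^ 1 := pow_le_pow_of_le_one hx0 (by linarith) h
          _ ≤ _ := by rw [pow_one]; exact hx
      push_cast
      rw [pow_succ]
      have h2 : ((k : ℝ) + 1) * (x ^ k * x) = x * (k * x ^ k + x ^ k) := by ring
      rw [h2]
      calc x * (k * x ^ k + x ^ k) ≤ x * 1 :=
            mul_le_mul_of_nonneg_left (by linarith) hx0
        _ = x := mul_one x

/-- the expected number of the conflicts from above -/
noncomputable def st (x : ℝ) (J I : Finset β) (t : β) : ℝ :=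
  ∑ u ∈ J.filter (fun u => t < u), x ^ (1 + (ob J I u).card)

/-- the elements with many conflicts -/
noncomputable def Bd (x r : ℝ) (J I : Finset β) : Finset β := (mx I).filter fun t => r ≤ st x J I t

/-- the mean of the number of the isolated elements -/
theorem mean_KT {J I : Finset β} (hI : Idl J I) {h : ℕ} (hh : h ≤ J.card) (h1 : 1 ≤ h)
    {x : ℝ} (hx : x = (h : ℝ) / J.card) (hx2 : x ≤ 1 / 2) {r w : ℝ} (hr : r ≤ 1 / 4)
    (hw : w ≤ (mx I).card) (hB : ((Bd x r J I).card : ℝ) ≤ w / 4)
    (hxw : J.card * x ≤ w / 4) (hw0 : 0 ≤ w) :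
    x * w / 4 * (J.card.choose h : ℝ) ≤ ∑ T ∈ J.powersetCard h, ((KT J T I).card : ℝ) := by
  have hJ : 0 < J.card := by omega
  have hJ0 : (0 : ℝ) < J.card := by exact_mod_cast hJ
  have hx0 : 0 ≤ x := by rw [hx]; positivity
  set G := (mx I).filter fun t => ¬ r ≤ st x J I t with hG
  have hGc : 3 / 4 * w ≤ (G.card : ℝ) := by
    have h2 := Finset.card_filter_add_card_filter_not (s := mx I) fun t => r ≤ st x J I t
    have h3 : ((Bd x r J I).card : ℝ) + G.card = (mx I).card := by exact_mod_cast h2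
    linarith
  have hmxI : mx I ⊆ I := fun t ht => (mem_mx.1 ht).1
  have hGm : G ⊆ mx I := Finset.filter_subset _ _
  obtain ⟨Nt, hNt⟩ : ∃ Nt : ℝ, Nt = (J.card.choose h : ℝ) := ⟨_, rfl⟩
  have hNt0 : 0 ≤ Nt := by rw [hNt]; positivity
  rw [← hNt]
  have key : ∑ T ∈ J.powersetCard h, ∑ t ∈ G, (ind {t} T -
      ∑ u ∈ J.filter (fun u => t < u), ind (insert t (insert u (ob J I u))) T -
      ∑ u ∈ J.filter (fun u => u < t), ind (insert u (oa I u)) T) ≤
      ∑ T ∈ J.powersetCard h, ((KT J T I).card : ℝ) :=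
    Finset.sum_le_sum fun T hT => KT_ge hI (Finset.mem_powersetCard.1 hT).1 hGm
  refine le_trans ?_ key
  rw [Finset.sum_comm]
  -- the terms
  have h3 : ∀ t ∈ G, x * Nt - x * (1 / 4) * Nt -
      ∑ u ∈ J.filter (fun u => u < t), x ^ (1 + (oa I u).card) * Nt ≤
      ∑ T ∈ J.powersetCard h, (ind {t} T -
      ∑ u ∈ J.filter (fun u => t < u), ind (insert t (insert u (ob J I u))) T -
      ∑ u ∈ J.filter (fun u => u < t), ind (insert u (oa I u)) T) := by
    intro t ht
    obtain ⟨htm, hts⟩ := Finset.mem_filter.1 ht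
    push Not at hts
    have htI : t ∈ I := hmxI htm
    have htJ : t ∈ J := hI.1 htI
    rw [Finset.sum_sub_distrib, Finset.sum_sub_distrib, sum_ind_one htJ hh h1 hx, ← hNt]
    have h4 : ∑ T ∈ J.powersetCard h,
        ∑ u ∈ J.filter (fun u => t < u), ind (insert t (insert u (ob J I u))) T ≤
        x * (1 / 4) * Nt := by
      rw [Finset.sum_comm]
      calc ∑ u ∈ J.filter (fun u => t < u), ∑ T ∈ J.powersetCard h,
            ind (insert t (insert u (ob J I u))) T ≤
          ∑ u ∈ J.filter (fun u => t < u), x * x ^ (1 + (ob J I u).card) * Nt := by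
            refine Finset.sum_le_sum fun u hu => ?_
            obtain ⟨huJ, htu⟩ := Finset.mem_filter.1 hu
            have hsub : insert t (insert u (ob J I u)) ⊆ J :=
              Finset.insert_subset htJ (Finset.insert_subset huJ (Finset.filter_subset _ _))
            refine (sum_ind_le hsub hh hJ hx).trans (le_of_eq ?_)
            rw [← hNt, Finset.card_insert_of_notMem, Finset.card_insert_of_notMem]
            · ring
            · intro h5
              exact lt_irrefl u (mem_ob.1 h5).2.1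
            · rw [Finset.mem_insert]
              rintro (h5 | h5)
              · exact absurd htu (h5 ▸ lt_irrefl t)
              · exact (mem_ob.1 h5).2.2 htI
        _ = x * st x J I t * Nt := by
            unfold st
            rw [Finset.mul_sum, Finset.sum_mul]
        _ ≤ _ := by
            refine mul_le_mul_of_nonneg_right ?_ hNt0
            exact mul_le_mul_of_nonneg_left (by linarith) hx0
    have h5 : ∑ T ∈ J.powersetCard h,
        ∑ u ∈ J.filter (fun u => u < t), ind (insert u (oa I u)) T ≤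
        ∑ u ∈ J.filter (fun u => u < t), x ^ (1 + (oa I u).card) * Nt := by
      rw [Finset.sum_comm]
      refine Finset.sum_le_sum fun u hu => ?_
      obtain ⟨huJ, hut⟩ := Finset.mem_filter.1 hu
      have hsub : insert u (oa I u) ⊆ J :=
        Finset.insert_subset huJ ((Finset.filter_subset _ _).trans hI.1)
      refine (sum_ind_le hsub hh hJ hx).trans (le_of_eq ?_)
      rw [← hNt, Finset.card_insert_of_notMem, add_comm]
      intro h5
      exact lt_irrefl u (mem_oa.1 h5).2
    linarith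
  refine le_trans ?_ (Finset.sum_le_sum h3)
  rw [Finset.sum_sub_distrib, Finset.sum_const, nsmul_eq_mul]
  have h6 : ∑ t ∈ G, ∑ u ∈ J.filter (fun u => u < t), x ^ (1 + (oa I u).card) * Nt ≤
      J.card * (x * x) * Nt := by
    calc ∑ t ∈ G, ∑ u ∈ J.filter (fun u => u < t), x ^ (1 + (oa I u).card) * Nt =
        ∑ t ∈ G, ∑ u ∈ J, if u < t then x ^ (1 + (oa I u).card) * Nt else 0 :=
          Finset.sum_congr rfl fun t _ => Finset.sum_filter _ _
      _ = ∑ u ∈ J, ∑ t ∈ G, if u < t then x ^ (1 + (oa I u).card) * Nt else 0 :=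
          Finset.sum_comm
      _ ≤ ∑ u ∈ J, x * x * Nt := by
          refine Finset.sum_le_sum fun u _ => ?_
          rw [← Finset.sum_filter, Finset.sum_const, nsmul_eq_mul]
          have h7 : (G.filter fun t => u < t).card ≤ (oa I u).card := by
            refine Finset.card_le_card fun t ht => ?_
            obtain ⟨h8, h9⟩ := Finset.mem_filter.1 ht
            exact mem_oa.2 ⟨hmxI (hGm h8), h9⟩
          have h8 : ((G.filter fun t => u < t).card : ℝ) ≤ (oa I u).card := by exact_mod_cast h7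
          have h9 := kx hx0 hx2 (oa I u).card
          have h10 : 0 ≤ x ^ (1 + (oa I u).card) * Nt := by positivity
          calc ((G.filter fun t => u < t).card : ℝ) * (x ^ (1 + (oa I u).card) * Nt) ≤
              (oa I u).card * (x ^ (1 + (oa I u).card) * Nt) :=
                mul_le_mul_of_nonneg_right h8 h10
            _ = x * ((oa I u).card * x ^ (oa I u).card) * Nt := by ring
            _ ≤ x * x * Nt := by
                refine mul_le_mul_of_nonneg_right ?_ hNt0
                exact mul_le_mul_of_nonneg_left h9 hx0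
      _ = _ := by rw [Finset.sum_const, nsmul_eq_mul]; ring
  have h7 : J.card * (x * x) * Nt ≤ x * (w / 4) * Nt := by
    refine mul_le_mul_of_nonneg_right ?_ hNt0
    calc J.card * (x * x) = x * (J.card * x) := by ring
      _ ≤ _ := mul_le_mul_of_nonneg_left hxw hx0
  have h8 : 3 / 4 * w * (x * Nt - x * (1 / 4) * Nt) ≤ G.card * (x * Nt - x * (1 / 4) * Nt) := by
    refine mul_le_mul_of_nonneg_right hGc ?_
    have : 0 ≤ x * Nt := mul_nonneg hx0 hNt0
    linarith
  have h9 : 0 ≤ w * (x * Nt) := mul_nonneg hw0 (mul_nonneg hx0 hNt0)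
  nlinarith

end Pool.Agent.Run7.h386.DL
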