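import Pool.Agent.Run7.h386.DE.Const

/-!
The induction step for the products of pairwise coprime integers.
-/

set_option autoImplicit false

namespace Pool.Agent.Run7.h386.DL

open Finset Pool.Agent.Run7.h386.DE
open scoped Classical

lemma pow_dvd_aux {q : ℤ} (hq : Prime q) {a : ℕ} {u : ℤ} : ∀ (I : ℕ) (v : ℤ), q ^ (I + a) ∣ u * v →
    ¬ q ^ (I + 1) ∣ v → q ^ a ∣ u := by
  intro I
  induction I with
  | zero =>
    intro v h1 h2
    rw [zero_add] at h1
    rw [zero_add, pow_one] at h2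
    exact hq.pow_dvd_of_dvd_mul_right a h2 h1
  | succ I ih =>
    intro v h1 h2
    by_cases h3 : q ∣ v
    · obtain ⟨v', rfl⟩ := h3
      refine ih v' ?_ ?_
      · have e1 : u * (q * v') = q * (u * v') := by ring
        have e2 : q ^ (I + 1 + a) = q * q ^ (I + a) := by ring
        rw [e1, e2] at h1
        exact (mul_dvd_mul_iff_left hq.ne_zero).1 h1
      · intro h4
        apply h2
        rw [pow_succ' q (I + 1)]
        exact mul_dvd_mul_left q h4
    · have h4 := hq.pow_dvd_of_dvd_mul_right _ h3 h1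
      exact (pow_dvd_pow q (by omega)).trans h4

/-- the bad multipliers -/
lemma bad_leA {α β W : ℝ} {q I a : ℕ} (hq : q.Prime) (ha : 1 ≤ a) {T : Finset ℕ}
    {X B X' B' : Finset ℤ} {AX AB : ℕ} (hβW : 0 ≤ β * W)
    (hX' : (rs ((q : ℤ) ^ (I + a)) X').card ≤ AX) (hB' : (rs ((q : ℤ) ^ (I + a)) B').card ≤ AB)
    (hgen : ∀ S ⊆ T, (∀ t ∈ S, ∀ t' ∈ S, (q : ℤ) ^ a ∣ (t : ℤ) - t') →
      ∑ t ∈ S, NE α (t : ℤ) (X ×ˢ B) ≤ β * W) :
    ∑ t ∈ bad T ((q : ℤ) ^ (I + 1)) X' B', NE α (t : ℤ) (X ×ˢ B) ≤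
      ((AX : ℝ) * AB) ^ 2 * (β * W) := by
  set Q : ℤ := (q : ℤ) ^ (I + a) with hQ
  set KK := (((rs Q X') ×ˢ (rs Q X')) ×ˢ ((rs Q B') ×ˢ (rs Q B'))).filter
    fun k => ¬ (q : ℤ) ^ (I + 1) ∣ k.1.1 - k.1.2 with hKK
  have hQ1 : (q : ℤ) ^ (I + 1) ∣ Q := by rw [hQ]; exact pow_dvd_pow _ (by omega)
  have hcard : (KK.card : ℝ) ≤ ((AX : ℝ) * AB) ^ 2 := by
    have h1 : KK.card ≤ (AX * AX) * (AB * AB) := by
      refine (Finset.card_le_card (Finset.filter_subset _ _)).trans ?_
      rw [Finset.card_product, Finset.card_product, Finset.card_product]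
      exact Nat.mul_le_mul (Nat.mul_le_mul hX' hX') (Nat.mul_le_mul hB' hB')
    have h2 : (KK.card : ℝ) ≤ ((AX * AX) * (AB * AB) : ℕ) := by exact_mod_cast h1
    refine h2.trans (le_of_eq ?_)
    push_cast
    ring
  have e1 : ∀ y : ℤ, Q ∣ y - y % Q := fun y => by
    rw [← emod_eq_iff]
    exact (Int.emod_emod_of_dvd y dvd_rfl).symm
  refine (sum_le_cover (bad T ((q : ℤ) ^ (I + 1)) X' B') KK (fun k => T.filter fun t : ℕ =>
    Q ∣ (t : ℤ) * (k.1.1 - k.1.2) + (k.2.1 - k.2.2)) (fun t => NE α (t : ℤ) (X ×ˢ B))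
    (fun t => NE_nonneg _ _ _) ?_ (b := β * W) ?_).trans (mul_le_mul_of_nonneg_right hcard hβW)
  · intro t ht
    obtain ⟨htT, x, hx, x', hx', b, hb, b', hb', h1, h2⟩ := Finset.mem_filter.1 ht
    refine ⟨((x % Q, x' % Q), (b % Q, b' % Q)), ?_, ?_⟩
    · rw [hKK, Finset.mem_filter]
      refine ⟨?_, ?_⟩
      · simp only [Finset.mem_product]
        exact ⟨⟨mem_rs hx, mem_rs hx'⟩, ⟨mem_rs hb, mem_rs hb'⟩⟩
      · simp only
        intro h3
        apply h2
        rw [emod_eq_iff]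
        have h4 : x - x' = (x % Q - x' % Q) + ((x - x % Q) - (x' - x' % Q)) := by ring
        rw [h4]
        exact dvd_add h3 (hQ1.trans (dvd_sub (e1 _) (e1 _)))
    · refine Finset.mem_filter.2 ⟨htT, ?_⟩
      simp only
      have h3 : (t : ℤ) * (x % Q - x' % Q) + (b % Q - b' % Q) =
          ((t : ℤ) * x + b - (t * x' + b')) - ((t : ℤ) * ((x - x % Q) - (x' - x' % Q)) +
            ((b - b % Q) - (b' - b' % Q))) := by ring
      rw [h3, h1, sub_self]
      refine dvd_sub (dvd_zero _) (dvd_add ?_ (dvd_sub (e1 _) (e1 _)))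
      exact (dvd_sub (e1 _) (e1 _)).mul_left _
  · intro k hk
    obtain ⟨hk1, hk2⟩ := Finset.mem_filter.1 hk
    refine hgen _ (Finset.filter_subset _ _) ?_
    intro t ht t' ht'
    have h1 := (Finset.mem_filter.1 ht).2
    have h2 := (Finset.mem_filter.1 ht').2
    have h3 : Q ∣ ((t : ℤ) - t') * (k.1.1 - k.1.2) := by
      have := dvd_sub h1 h2
      have e : (t : ℤ) * (k.1.1 - k.1.2) + (k.2.1 - k.2.2) -
          ((t' : ℤ) * (k.1.1 - k.1.2) + (k.2.1 - k.2.2)) = ((t : ℤ) - t') * (k.1.1 - k.1.2) := by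
        ring
      rwa [e] at this
    exact pow_dvd_aux (Nat.prime_iff_prime_int.1 hq) I _ h3 hk2

theorem stepA {α δ c β K : ℝ} {A₀ AB AX : ℕ} (hc : Cn α δ c β 1 A₀ AB AX) (hα : 0 < α)
    (hδ : 0 < δ) (hcc : 0 ≤ c) (hβ : 0 ≤ β) (hK : 0 ≤ K) {m q a : ℕ} (hq : q.Prime) (ha : 1 ≤ a)
    (hqm : q ^ a ∣ m) (hm : m ≠ 0)
    {T : Finset ℕ} (hT : ∀ t ∈ T, ¬ q ∣ t) {X B : Finset ℤ} (hX : A₀ ≤ X.card)
    (hB : AB ≤ B.card) (IH : IHyp α δ K T ((X.card : ℝ) * B.card))
    (hgen : ∀ S ⊆ T, (∀ t ∈ S, ∀ t' ∈ S, (q : ℤ) ^ a ∣ (t : ℤ) - t') →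
      ∑ t ∈ S, NE α (t : ℤ) (X ×ˢ B) ≤
        β * (∑ t ∈ T, NE α (t : ℤ) (X ×ˢ B) + ∑ t ∈ T, NE α ((m : ℤ) * t) (X ×ˢ B))) :
    ∑ t ∈ T, NE α (t : ℤ) (X ×ˢ B) + ∑ t ∈ T, NE α ((m : ℤ) * t) (X ×ˢ B) ≤
      T.card * ((X.card : ℝ) * B.card) ^ (1 + α * δ) * K * (2 * (1 - c * α)) := by
  have hA0 := hc.A0
  have hXn : X.Nonempty := Finset.card_pos.1 (by omega)
  have hBn : B.Nonempty := Finset.card_pos.1 (by have := hc.AB1; omega)
  have hX0 : (0 : ℝ) < X.card := by exact_mod_cast hXn.card_pos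
  have hB0 : (0 : ℝ) < B.card := by exact_mod_cast hBn.card_pos
  have hn0 : 0 < (X.card : ℝ) * B.card := mul_pos hX0 hB0
  have hm0 : (m : ℤ) ≠ 0 := by exact_mod_cast hm
  obtain ⟨N, hN⟩ : ∃ N : ℝ, N = T.card * K * ((X.card : ℝ) * B.card) ^ (α * δ) := ⟨_, rfl⟩
  have hN0 : 0 ≤ N := by rw [hN]; positivity
  have hNe : T.card * ((X.card : ℝ) * B.card) ^ (1 + α * δ) * K * (2 * (1 - c * α)) =
      N * (X.card * B.card) * (2 * (1 - c * α)) := by
    rw [Real.rpow_add hn0, Real.rpow_one, hN]; ring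
  rw [hNe]
  -- the dilated set
  set D : Finset ℤ := X.image fun x => (m : ℤ) * x with hD
  have hDc : D.card = X.card := Finset.card_image_of_injective _ (mul_right_injective₀ hm0)
  have hE : ∑ t ∈ T, NE α ((m : ℤ) * t) (X ×ˢ B) = TS α T D B := by
    unfold TS
    refine Finset.sum_congr rfl fun t _ => ?_
    rw [mul_comm, NE_mul hm0]
  have hE0 : ∑ t ∈ T, NE α (t : ℤ) (X ×ˢ B) = TS α T X B := rfl
  have hE1 : TS α T D B ≤ N * (X.card * B.card) := by
    have := IH.use (X := D) (B := B) hα.le hδ.le hK hn0.le (by rw [hDc]) le_rfl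
    rw [hDc, ← hN] at this
    exact this
  have hE2 : TS α T X B ≤ N * (X.card * B.card) := by
    have := IH.use (X := X) (B := B) hα.le hδ.le hK hn0.le le_rfl le_rfl
    rw [← hN] at this
    exact this
  rw [hE, hE0] at hgen ⊢
  obtain ⟨κ, hκ⟩ : ∃ κ : ℝ, κ = ((1 : ℕ) + 1) * c * α := ⟨_, rfl⟩
  have hcα : 0 ≤ c * α := mul_nonneg hcc hα.le
  have hκe : κ = 2 * (c * α) := by rw [hκ]; push_cast; ring
  have hNn : 0 ≤ N * (X.card * B.card) := mul_nonneg hN0 hn0.le
  -- the level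
  have hex : ∃ j : ℕ, X.card < 2 * (lt A₀ ((q : ℤ) ^ j) X).card := by
    obtain ⟨j, hj⟩ := lt_large hq.two_le hX
    refine ⟨j, ?_⟩
    rw [hj]
    have := hXn.card_pos
    omega
  obtain ⟨I, hI, hI'⟩ : ∃ I : ℕ, X.card < 2 * (lt A₀ ((q : ℤ) ^ (I + 1)) X).card ∧
      ¬ X.card < 2 * (lt A₀ ((q : ℤ) ^ I) X).card := by
    have h1 := Nat.find_spec hex
    have h2 : Nat.find hex ≠ 0 := by
      intro h0
      rw [h0, pow_zero, lt_one hA0] at h1
      simp at h1
    obtain ⟨I, hIe⟩ := Nat.exists_eq_succ_of_ne_zero h2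
    refine ⟨I, ?_, ?_⟩
    · rw [hIe] at h1; exact h1
    · exact Nat.find_min hex (m := I) (by rw [hIe]; exact Nat.lt_succ_self I)
  set Q : ℤ := (q : ℤ) ^ (I + a) with hQ
  set Q₁ : ℤ := (q : ℤ) ^ (I + 1) with hQ₁
  have hQ1 : Q₁ ∣ Q := by rw [hQ, hQ₁]; exact pow_dvd_pow _ (by omega)
  by_cases hcase : B.card ≤ 2 * (lt AB Q B).card
  · -- the second summand is spread
    have hgain : TS α T D B ≤ N * (X.card * B.card) * (1 - κ) := by
      set X' := (hv A₀ ((q : ℤ) ^ I) X).image fun x => (m : ℤ) * x with hX'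
      have hX'D : X' ⊆ D := Finset.image_subset_image (hv_sub _ _ _)
      have hX'c : X'.card = (hv A₀ ((q : ℤ) ^ I) X).card :=
        Finset.card_image_of_injective _ (mul_right_injective₀ hm0)
      have hrs : (rs Q X').card ≤ A₀ := by
        have h1 : rs Q X' ⊆ (rs ((q : ℤ) ^ I) (hv A₀ ((q : ℤ) ^ I) X)).image
            fun r => ((m : ℤ) * r) % Q := by
          intro r hr
          obtain ⟨y, hy, rfl⟩ := Finset.mem_image.1 hr
          obtain ⟨x, hx, rfl⟩ := Finset.mem_image.1 hy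
          refine Finset.mem_image.2 ⟨_, mem_rs hx, ?_⟩
          rw [emod_eq_iff, ← mul_sub]
          have h2 : (q : ℤ) ^ I ∣ x % (q : ℤ) ^ I - x := by
            rw [← emod_eq_iff]
            exact Int.emod_emod_of_dvd x dvd_rfl
          have h3 : Q ∣ (m : ℤ) * (q : ℤ) ^ I := by
            rw [hQ, pow_add, mul_comm]
            refine mul_dvd_mul_right ?_ _
            exact_mod_cast hqm
          exact h3.trans (mul_dvd_mul_left _ h2)
        exact (Finset.card_le_card h1).trans (Finset.card_image_le.trans (hv_class subset_rfl))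
      have h1 := gain_right (X := D) (B := B) (X' := X') (B' := lt AB Q B) IH hα.le hδ.le hK
        (by rw [hDc]) hX'D hc.AB1 hrs (fun r hr => lt_class subset_rfl hr)
      have h2 := combine (X := D) (B := B) (X' := X') (B' := lt AB Q B) (err := 0) IH hα.le
        hδ.le hK (by rw [hDc]) hX'D (lt_sub _ _ _) hc.g1 (by
          rw [hDc, hX'c]
          have h3 := lt_add_hv A₀ ((q : ℤ) ^ I) X
          have h4 : X.card ≤ 2 * (hv A₀ ((q : ℤ) ^ I) X).card := by omega
          have h5 : (X.card : ℝ) ≤ 2 * (hv A₀ ((q : ℤ) ^ I) X).card := by exact_mod_cast h4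
          have h6 : (B.card : ℝ) ≤ 2 * (lt AB Q B).card := by exact_mod_cast hcase
          have h7 := mul_le_mul h5 h6 hB0.le (by positivity)
          have h8 : (0 : ℝ) ≤ (hv A₀ ((q : ℤ) ^ I) X).card * (lt AB Q B).card := by positivity
          linarith) (by rw [add_zero]; exact h1)
      rw [hDc, ← hN, add_zero] at h2
      refine h2.trans ?_
      have h3 := mul_le_mul_of_nonneg_right hc.k1 hNn
      rw [← hκ] at h3
      calc _ = 3 ^ α * (1 - (1 - (A₀ : ℝ) ^ α * (AB : ℝ) ^ (-(α * δ))) / 8) *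
            (N * (X.card * B.card)) := by ring
        _ ≤ _ := h3
        _ = _ := by ring
    rw [hκe] at hgain
    linarith
  · push Not at hcase
    -- the multipliers prime to `q`
    suffices hgain : TS α T X B ≤ N * (X.card * B.card) * (1 - κ) by
      rw [hκe] at hgain
      linarith
    have hTQ : ∀ t ∈ T, IsCoprime Q (t : ℤ) := by
      intro t ht
      rw [hQ]
      refine IsCoprime.pow_left ((Prime.coprime_iff_not_dvd (Nat.prime_iff_prime_int.1 hq)).2 ?_)
      intro h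
      exact hT t ht (Int.natCast_dvd_natCast.1 h)
    have hBh : (B.card : ℝ) ≤ 2 * (hv AB Q B).card := by
      have := lt_add_hv AB Q B
      have : B.card ≤ 2 * (hv AB Q B).card := by omega
      exact_mod_cast this
    by_cases hcX : X.card ≤ 4 * (lt AX Q X).card
    · -- the first summand is spread
      have h1 := gain_left (X := X) (B := B) (X' := lt AX Q X) (B' := hv AB Q B) IH hα.le hδ.le hK
        hTQ le_rfl (hv_sub _ _ _) hc.AX1 (hv_class subset_rfl) (fun r hr => lt_class subset_rfl hr)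
      have h2 := combine (X := X) (B := B) (X' := lt AX Q X) (B' := hv AB Q B) (err := 0) IH hα.le
        hδ.le hK le_rfl (lt_sub _ _ _) (hv_sub _ _ _) hc.g2 (by
          have h5 : (X.card : ℝ) ≤ 4 * (lt AX Q X).card := by exact_mod_cast hcX
          have h7 := mul_le_mul h5 hBh hB0.le (by positivity)
          linarith) (by rw [add_zero]; exact h1)
      rw [← hN, add_zero] at h2
      refine h2.trans ?_
      have h3 := mul_le_mul_of_nonneg_right hc.k2 hNn
      rw [← hκ] at h3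
      calc _ = 3 ^ α * (1 - (1 - (AB : ℝ) ^ α * (AX : ℝ) ^ (-(α * δ))) / 8) *
            (N * (X.card * B.card)) := by ring
        _ ≤ _ := h3
        _ = _ := by ring
    · push Not at hcX
      -- the generic case
      set X' := (lt A₀ Q₁ X) \ (lt AX Q X) with hX'
      have hX'l : X' ⊆ lt A₀ Q₁ X := Finset.sdiff_subset
      have hX'h : X' ⊆ hv AX Q X := by
        intro x hx
        obtain ⟨h1, h2⟩ := Finset.mem_sdiff.1 hx
        refine Finset.mem_filter.2 ⟨lt_sub _ _ _ h1, fun h3 => h2 ?_⟩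
        exact Finset.mem_filter.2 ⟨lt_sub _ _ _ h1, h3⟩
      have hX'c : (X.card : ℝ) ≤ 4 * X'.card := by
        have h1 := Finset.le_card_sdiff (lt AX Q X) (lt A₀ Q₁ X)
        rw [← hX'] at h1
        have : X.card ≤ 4 * X'.card := by omega
        exact_mod_cast this
      have hrs1 : (rs Q₁ X').card ≤ AX := by
        have h1 : rs Q₁ X' ⊆ (rs Q X').image fun r => r % Q₁ := by
          intro r hr
          obtain ⟨x, hx, rfl⟩ := Finset.mem_image.1 hr
          exact Finset.mem_image.2 ⟨_, mem_rs hx, Int.emod_emod_of_dvd x hQ1⟩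
        exact (Finset.card_le_card h1).trans (Finset.card_image_le.trans (hv_class hX'h))
      obtain ⟨W, hW⟩ : ∃ W : ℝ, W = TS α T X B + TS α T D B := ⟨_, rfl⟩
      rw [← hW] at hgen
      have hWle : W ≤ ((1 : ℕ) + 1) * (N * (X.card * B.card)) := by
        rw [hW]
        push_cast
        linarith
      have hW0 : 0 ≤ W := by
        rw [hW]
        exact add_nonneg (TS_nonneg _ _ _ _) (TS_nonneg _ _ _ _)
      have hbad := bad_leA (α := α) (β := β) (W := W) (q := q) (I := I) (a := a) (T := T) (X := X)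
        (B := B) (X' := X') (B' := hv AB Q B) hq ha (mul_nonneg hβ hW0) (hv_class hX'h)
        (hv_class subset_rfl) hgen
      have h1 := gain_gen (X := X) (B := B) (X' := X') (B' := hv AB Q B) (Q := Q₁) IH hα.le hδ.le hK
        le_rfl (hX'l.trans (lt_sub _ _ _)) (hv_sub _ _ _) (A := A₀) (C := AX) (by omega) hc.AX1
        hrs1 (fun r hr => lt_class hX'l hr) (bad T Q₁ X' (hv AB Q B))
        (Finset.filter_subset _ _) (by
          intro t ht hts x hx x' hx' b hb b' hb' h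
          by_contra hne
          exact hts (Finset.mem_filter.2 ⟨ht, x, hx, x', hx', b, hb, b', hb', h, hne⟩))
      have hAXα : 0 ≤ (AX : ℝ) ^ α - 1 := by
        have := Real.one_le_rpow (x := (AX : ℝ)) (by exact_mod_cast hc.AX1) hα.le
        linarith
      have herr := mul_le_mul_of_nonneg_left hbad hAXα
      have h2 := combine (X := X) (B := B) (X' := X') (B' := hv AB Q B) IH hα.le
        hδ.le hK le_rfl (hX'l.trans (lt_sub _ _ _)) (hv_sub _ _ _) hc.g3 (by
          have h7 := mul_le_mul hX'c hBh hB0.le (by positivity)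
          linarith) (h1.trans (add_le_add le_rfl herr))
      rw [← hN] at h2
      refine h2.trans ?_
      have h3 := mul_le_mul_of_nonneg_right hc.k3 hNn
      rw [← hκ] at h3
      have h4 : ((AX : ℝ) ^ α - 1) * (((AX : ℝ) * AB) ^ 2 * (β * W)) ≤
          ((AX : ℝ) ^ α - 1) * (((AX : ℝ) * AB) ^ 2 * (β * (((1 : ℕ) : ℝ) + 1))) *
            (N * (X.card * B.card)) := by
        have h5 : β * W ≤ β * ((((1 : ℕ) : ℝ) + 1) * (N * (X.card * B.card))) :=
          mul_le_mul_of_nonneg_left hWle hβ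
        have h6 := mul_le_mul_of_nonneg_left h5 (sq_nonneg ((AX : ℝ) * AB))
        have h7 := mul_le_mul_of_nonneg_left h6 hAXα
        refine h7.trans (le_of_eq ?_)
        ring
      have h30 : (0 : ℝ) ≤ 3 ^ α := Real.rpow_nonneg (by norm_num) _
      calc _ ≤ 3 ^ α * ((1 - (1 - (A₀ : ℝ) ^ (-(α * δ))) / 8) * N * (X.card * B.card) +
            ((AX : ℝ) ^ α - 1) * (((AX : ℝ) * AB) ^ 2 * (β * (((1 : ℕ) : ℝ) + 1))) *
              (N * (X.card * B.card))) :=
            mul_le_mul_of_nonneg_left (add_le_add le_rfl h4) h30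
        _ = 3 ^ α * (1 - (1 - (A₀ : ℝ) ^ (-(α * δ))) / 8 +
            ((AX : ℝ) ^ α - 1) * (((AX : ℝ) * AB) ^ 2 * (β * (((1 : ℕ) : ℝ) + 1)))) *
              (N * (X.card * B.card)) := by ring
        _ ≤ _ := h3
        _ = _ := by ring

end Pool.Agent.Run7.h386.DL
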